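import Mathlib

/-!
# The family of base cases: definitions (over any field)

`phi = x (x-1) y (y-1)`; special configuration `(p0,0), (p1,0), (p2,1), (p3,1), (0,q0), (0,q1),
(1,q2), (1,q3), z, z'`; classes `(2c, 2c+1-e; c, c, c, c-e, 1)`, `e = 0, 1`, `D0 = 2c-1-e`.
-/

set_option autoImplicit false

open MvPolynomial

namespace Pool.Agent.Lib.MP_ed661f_ag.S.Fam

variable {K : Type} [Field K]

/-- Taylor expansion at `p` -/
noncomputable def tayK (p : Fin 2 → K) (F : MvPolynomial (Fin 2) K) : MvPolynomial (Fin 2) K :=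
  aeval (fun i => X i + C (p i)) F

/-- the Taylor coefficients of degree `< m` at `p` vanish -/
def OrdK (m : ℕ) (p : Fin 2 → K) (F : MvPolynomial (Fin 2) K) : Prop :=
  ∀ e : Fin 2 →₀ ℕ, e.degree < m → coeff e (tayK p F) = 0

theorem tayK_add (p : Fin 2 → K) (F G : MvPolynomial (Fin 2) K) :
    tayK p (F + G) = tayK p F + tayK p G := map_add _ _ _

theorem tayK_mul (p : Fin 2 → K) (F G : MvPolynomial (Fin 2) K) :
    tayK p (F * G) = tayK p F * tayK p G := map_mul _ _ _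

theorem tayK_smul (p : Fin 2 → K) (r : K) (F : MvPolynomial (Fin 2) K) :
    tayK p (r • F) = r • tayK p F := map_smul _ _ _

/-- the sections of `(a,b;c)` at the points `x_j, x'_j` -/
noncomputable def SecK (a b : ℕ) (c : Fin 5 → ℕ) (x x' : Fin 5 → Fin 2 → K) :
    Submodule K (MvPolynomial (Fin 2) K) where
  carrier := {F | (F.degreeOf 0 ≤ a ∧ F.degreeOf 1 ≤ b) ∧
    ∀ j, OrdK (c j) (x j) F ∧ OrdK (c j) (x' j) F}
  add_mem' := by
    rintro F G ⟨⟨h1, h2⟩, h3⟩ ⟨⟨h4, h5⟩, h6⟩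
    refine ⟨⟨(degreeOf_add_le _ _ _).trans (max_le h1 h4),
      (degreeOf_add_le _ _ _).trans (max_le h2 h5)⟩, fun j => ⟨?_, ?_⟩⟩
    · intro e he
      rw [tayK_add, coeff_add, (h3 j).1 e he, (h6 j).1 e he, add_zero]
    · intro e he
      rw [tayK_add, coeff_add, (h3 j).2 e he, (h6 j).2 e he, add_zero]
  zero_mem' := by
    refine ⟨⟨by simp, by simp⟩, fun j => ⟨?_, ?_⟩⟩ <;>
    · intro e _
      simp [tayK]
  smul_mem' := by
    rintro r F ⟨⟨h1, h2⟩, h3⟩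
    have h4 : ∀ i, (r • F).degreeOf i ≤ F.degreeOf i := fun i => by
      rw [smul_eq_C_mul]
      exact degreeOf_C_mul_le _ _ _
    refine ⟨⟨(h4 0).trans h1, (h4 1).trans h2⟩, fun j => ⟨?_, ?_⟩⟩
    · intro e he
      rw [tayK_smul, coeff_smul, (h3 j).1 e he, smul_zero]
    · intro e he
      rw [tayK_smul, coeff_smul, (h3 j).2 e he, smul_zero]

theorem mem_SecK {a b : ℕ} {c : Fin 5 → ℕ} {x x' : Fin 5 → Fin 2 → K}
    {F : MvPolynomial (Fin 2) K} : F ∈ SecK a b c x x' ↔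
    (F.degreeOf 0 ≤ a ∧ F.degreeOf 1 ≤ b) ∧ ∀ j, OrdK (c j) (x j) F ∧ OrdK (c j) (x' j) F :=
  Iff.rfl

/-- no form of degree `< d` vanishes on `(f 0, .., f 3)` -/
def NoRel (d : ℕ) (f : Fin 4 → MvPolynomial (Fin 2) K) : Prop :=
  ∀ m < d, ∀ R : MvPolynomial (Fin 4) K, R.IsHomogeneous m → aeval f R = 0 → R = 0

/-- the four lines `x = 0, x = 1, y = 0, y = 1` -/
noncomputable def phi : MvPolynomial (Fin 2) K := X 0 * (X 0 - 1) * (X 1 * (X 1 - 1))

/-- the parameters of the special configuration -/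
structure Par (K : Type) [Field K] where
  p : Fin 4 → K
  q : Fin 4 → K
  z : Fin 2 → K
  z' : Fin 2 → K

/-- the first five points -/
def Par.x (P : Par K) : Fin 5 → Fin 2 → K :=
  ![![P.p 0, 0], ![P.p 2, 1], ![0, P.q 0], ![0, P.q 1], P.z]

/-- the last five points -/
def Par.x' (P : Par K) : Fin 5 → Fin 2 → K :=
  ![![P.p 1, 0], ![P.p 3, 1], ![1, P.q 2], ![1, P.q 3], P.z']

/-- the conditions for the parameters -/
structure Par.Good (P : Par K) : Prop where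
  p0 : ∀ i, P.p i ≠ 0
  p1 : ∀ i, P.p i ≠ 1
  q0 : ∀ i, P.q i ≠ 0
  q1 : ∀ i, P.q i ≠ 1
  p01 : P.p 0 ≠ P.p 1
  p23 : P.p 2 ≠ P.p 3
  q01 : P.q 0 ≠ P.q 1
  q23 : P.q 2 ≠ P.q 3
  z0 : ∀ i, P.z i ≠ 0
  z1 : ∀ i, P.z i ≠ 1
  z0' : ∀ i, P.z' i ≠ 0
  z1' : ∀ i, P.z' i ≠ 1
  zz : P.z 1 ≠ P.z' 1
  period : P.p 0 * P.p 1 * ((1 - P.p 2) * (1 - P.p 3)) * (P.q 2 * P.q 3 * ((1 - P.q 0) * (1 - P.q 1)))
    ≠ P.p 2 * P.p 3 * ((1 - P.p 0) * (1 - P.p 1)) * (P.q 0 * P.q 1 * ((1 - P.q 2) * (1 - P.q 3)))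

/-- the multiplicities -/
def cc (c e : ℕ) : Fin 5 → ℕ := ![c, c, c, c - e, 1]

/-- the sections of the class `(2c, 2c+1-e; c, c, c, c-e, 1)` at the special configuration -/
noncomputable def HH (P : Par K) (c e : ℕ) : Submodule K (MvPolynomial (Fin 2) K) :=
  SecK (2 * c) (2 * c + 1 - e) (cc c e) P.x P.x'

/-- restriction to `y = 0` -/
noncomputable def bot : MvPolynomial (Fin 2) K →ₐ[K] Polynomial K := aeval ![Polynomial.X, 0]

/-- restriction to `y = 1` -/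
noncomputable def top : MvPolynomial (Fin 2) K →ₐ[K] Polynomial K := aeval ![Polynomial.X, 1]

/-- restriction to `x = 0` -/
noncomputable def lef : MvPolynomial (Fin 2) K →ₐ[K] Polynomial K := aeval ![0, Polynomial.X]

/-- restriction to `x = 1` -/
noncomputable def rig : MvPolynomial (Fin 2) K →ₐ[K] Polynomial K := aeval ![1, Polynomial.X]

/-- the constant of the bottom line -/
noncomputable def al (c : ℕ) (F : MvPolynomial (Fin 2) K) : K := (bot F).coeff (2 * c)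

/-- the constant of the top line -/
noncomputable def be (c : ℕ) (F : MvPolynomial (Fin 2) K) : K := (top F).coeff (2 * c)

/-- the induction statement -/
def PP (P : Par K) (c e : ℕ) : Prop :=
  ∃ g : Fin 4 → MvPolynomial (Fin 2) K, (∀ i, g i ∈ HH P c e) ∧
    al c (g 0) ≠ 0 ∧ be c (g 0) = 0 ∧ al c (g 1) = 0 ∧ be c (g 1) ≠ 0 ∧
    al c (g 2) = 0 ∧ be c (g 2) = 0 ∧ al c (g 3) = 0 ∧ be c (g 3) = 0 ∧
    NoRel (2 * (2 * c - 1 - e)) g

end Pool.Agent.Lib.MP_ed661f_ag.S.Fam
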