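import Mathlib
import Pool.Agent.Lib.MP_ed661f_ag.S.Fam.Defs

/-!
# Polynomials given by arrays of integers
-/

set_option autoImplicit false

open MvPolynomial

namespace Pool.Agent.Lib.MP_ed661f_ag.S.Fam

/-- the entry `(i,j)` -/
def en (A : List (List ℤ)) (i j : ℕ) : ℤ := (A.getD i []).getD j 0

/-- the Taylor coefficient of index `(s,t)` at `(x,y)` -/
def tc (a b : ℕ) (A : List (List ℤ)) (x y : ℤ) (s t : ℕ) : ℤ :=
  ∑ i ∈ Finset.range (a + 1), ∑ j ∈ Finset.range (b + 1),
    en A i j * (((i.choose s : ℕ) : ℤ) * x ^ (i - s) * (((j.choose t : ℕ) : ℤ) * y ^ (j - t)))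

section ring

variable {R : Type} [CommRing R]

/-- the polynomial with the coefficients `A` -/
noncomputable def poly (R : Type) [CommRing R] (a b : ℕ) (A : List (List ℤ)) :
    MvPolynomial (Fin 2) R :=
  ∑ i ∈ Finset.range (a + 1), ∑ j ∈ Finset.range (b + 1),
    C ((en A i j : ℤ) : R) * (X 0 ^ i * X 1 ^ j)

theorem map_poly {R' : Type} [CommRing R'] (φ : R →+* R') (a b : ℕ) (A : List (List ℤ)) :
    map φ (poly R a b A) = poly R' a b A := by
  unfold poly
  simp only [map_sum, map_mul, map_pow, map_C, map_X, map_intCast]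

/-- the integral point `(x,y)` -/
def ipt (R : Type) [CommRing R] (x : ℤ × ℤ) : Fin 2 → R := ![(x.1 : R), (x.2 : R)]

theorem eval_poly (x : ℤ × ℤ) (a b : ℕ) (A : List (List ℤ)) :
    eval (ipt R x) (poly R a b A) = ((tc a b A x.1 x.2 0 0 : ℤ) : R) := by
  unfold poly tc ipt
  simp only [map_sum, map_mul, map_pow, eval_C, eval_X, Matrix.cons_val_zero, Matrix.cons_val_one,
    Nat.choose_zero_right, Nat.cast_one, one_mul, Nat.sub_zero, Int.cast_sum, Int.cast_mul,
    Int.cast_pow, Int.cast_one]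

theorem eval_pderiv0_poly (x : ℤ × ℤ) (a b : ℕ) (A : List (List ℤ)) :
    eval (ipt R x) (pderiv 0 (poly R a b A)) = ((tc a b A x.1 x.2 1 0 : ℤ) : R) := by
  unfold poly tc ipt
  simp only [map_sum, Int.cast_sum]
  refine Finset.sum_congr rfl fun i _ => Finset.sum_congr rfl fun j _ => ?_
  simp [Derivation.leibniz, Derivation.leibniz_pow, pderiv_X_self, pderiv_X_of_ne]
  ring

theorem eval_pderiv1_poly (x : ℤ × ℤ) (a b : ℕ) (A : List (List ℤ)) :
    eval (ipt R x) (pderiv 1 (poly R a b A)) = ((tc a b A x.1 x.2 0 1 : ℤ) : R) := by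
  unfold poly tc ipt
  simp only [map_sum, Int.cast_sum]
  refine Finset.sum_congr rfl fun i _ => Finset.sum_congr rfl fun j _ => ?_
  simp [Derivation.leibniz, Derivation.leibniz_pow, pderiv_X_self, pderiv_X_of_ne]

end ring

section field

variable {K : Type} [Field K]

theorem coeff_shift (x y : K) (i j : ℕ) (e : Fin 2 →₀ ℕ) :
    coeff e ((X 0 + C x) ^ i * (X 1 + C y) ^ j : MvPolynomial (Fin 2) K) =
      (i.choose (e 0) : K) * x ^ (i - e 0) * ((j.choose (e 1) : K) * y ^ (j - e 1)) := by
  classical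
  have h1 : ((X 0 + C x) ^ i * (X 1 + C y) ^ j : MvPolynomial (Fin 2) K) =
      ∑ k ∈ Finset.range (i + 1), ∑ l ∈ Finset.range (j + 1),
        monomial (Finsupp.single 0 k + Finsupp.single 1 l)
          ((i.choose k : K) * x ^ (i - k) * ((j.choose l : K) * y ^ (j - l))) := by
    rw [add_pow, add_pow, Finset.sum_mul_sum]
    refine Finset.sum_congr rfl fun k _ => Finset.sum_congr rfl fun l _ => ?_
    have h2 : (monomial (Finsupp.single 0 k + Finsupp.single 1 l)
          ((i.choose k : K) * x ^ (i - k) * ((j.choose l : K) * y ^ (j - l))) :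
          MvPolynomial (Fin 2) K) =
        C ((i.choose k : K) * x ^ (i - k) * ((j.choose l : K) * y ^ (j - l))) *
          (X 0 ^ k * X 1 ^ l) := by
      rw [X_pow_eq_monomial, X_pow_eq_monomial, monomial_mul, C_mul_monomial]
      simp
    rw [h2]
    simp only [map_mul, map_pow, map_natCast]
    ring
  have hcond : ∀ k l : ℕ, (Finsupp.single 0 k + Finsupp.single 1 l : Fin 2 →₀ ℕ) = e ↔
      k = e 0 ∧ l = e 1 := by
    intro k l
    constructor
    · rintro rfl
      simp
    · rintro ⟨h, h'⟩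
      ext t
      fin_cases t
      · simp [h]
      · simp [h']
  rw [h1, coeff_sum]
  simp only [coeff_sum, coeff_monomial, hcond]
  by_cases hi : e 0 ≤ i
  · by_cases hj : e 1 ≤ j
    · rw [Finset.sum_eq_single (e 0), Finset.sum_eq_single (e 1)]
      · rw [if_pos ⟨rfl, rfl⟩]
      · intro l _ hl
        rw [if_neg fun h => hl h.2]
      · intro h
        exact absurd (Finset.mem_range.2 (Nat.lt_succ_of_le hj)) h
      · intro k _ hk
        exact Finset.sum_eq_zero fun l _ => if_neg fun h => hk h.1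
      · intro h
        exact absurd (Finset.mem_range.2 (Nat.lt_succ_of_le hi)) h
    · rw [Finset.sum_eq_zero fun k _ => Finset.sum_eq_zero fun l hl => if_neg fun h => hj (by
        have := Finset.mem_range.1 hl
        omega), Nat.choose_eq_zero_of_lt (not_le.1 hj)]
      simp
  · rw [Finset.sum_eq_zero fun k hk => Finset.sum_eq_zero fun l _ => if_neg fun h => hi (by
      have := Finset.mem_range.1 hk
      omega), Nat.choose_eq_zero_of_lt (not_le.1 hi)]
    simp

theorem coeff_tayK_poly (x : ℤ × ℤ) (a b : ℕ) (A : List (List ℤ)) (e : Fin 2 →₀ ℕ) :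
    coeff e (tayK (ipt K x) (poly K a b A)) = ((tc a b A x.1 x.2 (e 0) (e 1) : ℤ) : K) := by
  unfold poly tc tayK
  simp only [map_sum, Int.cast_sum, coeff_sum]
  refine Finset.sum_congr rfl fun i _ => Finset.sum_congr rfl fun j _ => ?_
  have h1 : (aeval fun i => X i + C (ipt K x i)) (C ((en A i j : ℤ) : K) * (X 0 ^ i * X 1 ^ j)) =
      C ((en A i j : ℤ) : K) * ((X 0 + C (x.1 : K)) ^ i * (X 1 + C (x.2 : K)) ^ j :
        MvPolynomial (Fin 2) K) := by
    rw [map_mul, map_mul, map_pow, map_pow, aeval_X, aeval_X]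
    have : (aeval fun i => X i + C (ipt K x i)) (C ((en A i j : ℤ) : K)) =
        (C ((en A i j : ℤ) : K) : MvPolynomial (Fin 2) K) := by
      rw [← algebraMap_eq, AlgHom.commutes]
    rw [this]
    rfl
  rw [h1, coeff_C_mul, coeff_shift]
  push_cast
  rfl

theorem degreeOf_poly (a b : ℕ) (A : List (List ℤ)) :
    (poly K a b A).degreeOf 0 ≤ a ∧ (poly K a b A).degreeOf 1 ≤ b := by
  have h : ∀ i j : ℕ, ((C ((en A i j : ℤ) : K) * (X 0 ^ i * X 1 ^ j) :
      MvPolynomial (Fin 2) K)).degreeOf 0 ≤ i ∧ ((C ((en A i j : ℤ) : K) * (X 0 ^ i * X 1 ^ j) :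
      MvPolynomial (Fin 2) K)).degreeOf 1 ≤ j := by
    intro i j
    have h2 : (C ((en A i j : ℤ) : K) * (X 0 ^ i * X 1 ^ j) : MvPolynomial (Fin 2) K) =
        monomial (Finsupp.single 0 i + Finsupp.single 1 j) ((en A i j : ℤ) : K) := by
      rw [X_pow_eq_monomial, X_pow_eq_monomial, monomial_mul, C_mul_monomial]
      simp
    rw [h2]
    have h3 : ∀ t : Fin 2, ((monomial (Finsupp.single 0 i + Finsupp.single 1 j)
        ((en A i j : ℤ) : K) : MvPolynomial (Fin 2) K)).degreeOf t ≤
        (Finsupp.single 0 i + Finsupp.single 1 j : Fin 2 →₀ ℕ) t := by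
      intro t
      rw [degreeOf_le_iff]
      intro m hm
      have := support_monomial_subset hm
      rw [Finset.mem_singleton] at this
      rw [this]
    refine ⟨(h3 0).trans (by simp), (h3 1).trans (by simp)⟩
  constructor
  · unfold poly
    refine (degreeOf_sum_le _ _ _).trans (Finset.sup_le fun i hi => ?_)
    refine (degreeOf_sum_le _ _ _).trans (Finset.sup_le fun j hj => ?_)
    exact (h i j).1.trans (Nat.lt_succ_iff.1 (Finset.mem_range.1 hi))
  · unfold poly
    refine (degreeOf_sum_le _ _ _).trans (Finset.sup_le fun i hi => ?_)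
    refine (degreeOf_sum_le _ _ _).trans (Finset.sup_le fun j hj => ?_)
    exact (h i j).2.trans (Nat.lt_succ_iff.1 (Finset.mem_range.1 hj))

theorem ordK_poly {m : ℕ} {x : ℤ × ℤ} {a b : ℕ} {A : List (List ℤ)}
    (h : ∀ s < m, ∀ t < m - s, tc a b A x.1 x.2 s t = 0) : OrdK m (ipt K x) (poly K a b A) := by
  intro e he
  have h1 : e.degree = e 0 + e 1 := by
    rw [Finsupp.degree_eq_sum, Fin.sum_univ_two]
  rw [coeff_tayK_poly, h (e 0) (by omega) (e 1) (by omega), Int.cast_zero]

theorem al_poly (c b : ℕ) (A : List (List ℤ)) :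
    al c (poly K (2 * c) b A) = ((en A (2 * c) 0 : ℤ) : K) := by
  classical
  unfold al bot poly
  simp only [map_sum, map_mul, map_pow, aeval_X, Matrix.cons_val_zero, Matrix.cons_val_one]
  rw [Polynomial.finsetSum_coeff, Finset.sum_eq_single (2 * c)]
  · rw [Polynomial.finsetSum_coeff, Finset.sum_eq_single 0]
    · simp
    · intro j _ hj
      simp [hj]
    · intro h
      exact absurd (Finset.mem_range.2 (Nat.succ_pos _)) h
  · intro i _ hi
    rw [Polynomial.finsetSum_coeff]
    refine Finset.sum_eq_zero fun j _ => ?_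
    rcases Nat.eq_zero_or_pos j with rfl | hj
    · simp [Polynomial.coeff_X_pow, hi.symm]
    · simp [hj.ne']
  · intro h
    exact absurd (Finset.mem_range.2 (Nat.lt_succ_self _)) h

theorem be_poly (c b : ℕ) (A : List (List ℤ)) :
    be c (poly K (2 * c) b A) = ((∑ j ∈ Finset.range (b + 1), en A (2 * c) j : ℤ) : K) := by
  classical
  unfold be top poly
  simp only [map_sum, map_mul, map_pow, aeval_X, Matrix.cons_val_zero, Matrix.cons_val_one]
  rw [Polynomial.finsetSum_coeff, Finset.sum_eq_single (2 * c)]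
  · rw [Polynomial.finsetSum_coeff, Int.cast_sum]
    refine Finset.sum_congr rfl fun j _ => ?_
    simp
  · intro i _ hi
    rw [Polynomial.finsetSum_coeff]
    refine Finset.sum_eq_zero fun j _ => ?_
    simp [Polynomial.coeff_X_pow, hi.symm]
  · intro h
    exact absurd (Finset.mem_range.2 (Nat.lt_succ_self _)) h

end field

end Pool.Agent.Lib.MP_ed661f_ag.S.Fam
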