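import Mathlib
import Pool.Agent.Lib.MP_ed661f_ag.S.Fam.Arr
import Pool.Agent.Lib.MP_ed661f_ag.S.Zcrit
import Pool.Agent.Lib.MP_ed661f_ag.S.Lift

/-!
# The two base cases, `d = 6` and `d = 8`

Both at the configuration `p = (-1,4,-2,-3)`, `q = (4,-1,-2,3)`, `z = (3,2)`, `z' = (2,-3)`: four
integral sections; modulo `17` the first two have `d` common transversal zeros, at which the ratios
of the last two are different.
-/

set_option autoImplicit false

open MvPolynomial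

namespace Pool.Agent.Lib.MP_ed661f_ag.S.Fam

/-- the configuration -/
def PB : Par ℚ where
  p := ![-1, 4, -2, -3]
  q := ![4, -1, -2, 3]
  z := ![3, 2]
  z' := ![2, -3]

/-- the integral points -/
def xB : Fin 5 → ℤ × ℤ := ![(-1, 0), (-2, 1), (0, 4), (0, -1), (3, 2)]

/-- the integral points -/
def xB' : Fin 5 → ℤ × ℤ := ![(4, 0), (-3, 1), (1, -2), (1, 3), (2, -3)]

theorem PB_x (j : Fin 5) : PB.x j = ipt ℚ (xB j) := by
  funext i
  fin_cases j <;> fin_cases i <;> simp [Par.x, PB, xB, ipt]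

theorem PB_x' (j : Fin 5) : PB.x' j = ipt ℚ (xB' j) := by
  funext i
  fin_cases j <;> fin_cases i <;> simp [Par.x', PB, xB', ipt]

theorem PB_good : PB.Good := by
  constructor
  · intro i; fin_cases i <;> simp [PB]
  · intro i; fin_cases i <;> simp [PB] <;> norm_num
  · intro i; fin_cases i <;> simp [PB]
  · intro i; fin_cases i <;> simp [PB] <;> norm_num
  · simp [PB]; norm_num
  · simp [PB]
  · simp [PB]; norm_num
  · simp [PB]; norm_num
  · intro i; fin_cases i <;> simp [PB]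
  · intro i; fin_cases i <;> simp [PB]
  · intro i; fin_cases i <;> simp [PB]
  · intro i; fin_cases i <;> simp [PB]; norm_num
  · simp [PB]; norm_num
  · simp [PB]; norm_num

/-- the sections for `d = 6` -/
def D6 : Fin 4 → List (List ℤ) := ![
  [[32, 16, -46, -14, 14, -2], [48, -48, -39, 48, -9, 0], [2, -37, 52, -18, 1, 0],
    [-12, 24, -14, 2, 0, 0], [2, -3, 1, 0, 0, 0]],
  [[0, -16, -24, -1, 6, -1], [0, -108, -37, 84, 7, -6], [0, -52, 47, -63, 34, -3],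
    [0, 36, -95, 112, -61, -2], [0, -4, 61, -88, 22, 8]],
  [[0, 0, 0, 0, 0, 0], [0, -8, 2, 8, -2, 0], [0, 2, 5, -15, 9, -1], [0, 8, -18, 20, -10, 0],
    [0, -2, 11, -13, 3, 1]],
  [[0, 0, 0, 0, 0, 0], [0, 8, -22, -3, 22, -5], [0, -2, -9, 30, -22, 3], [0, -8, 26, -15, -4, 1],
    [0, 2, 5, -12, 4, 1]]]

/-- the zeros for `d = 6` -/
def Z6 : Fin 6 → ℤ × ℤ := ![(7, 14), (11, 10), (11, 12), (12, 9), (14, 14), (16, 6)]

/-- the sections for `d = 8` -/
def D8 : Fin 4 → List (List ℤ) := ![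
  [[768, 192, -1200, -60, 420, -132, 12], [1728, -832, -1412, 722, -302, 110, -14],
    [720, -932, 868, -490, -504, 402, -64], [-540, 962, 10, -1469, 1710, -849, 176],
    [-180, 478, -950, 1133, -1077, 894, -298], [108, -346, 142, 157, 208, -481, 212],
    [-12, 46, 22, -173, 85, 92, -60]],
  [[0, -128, -160, 40, 50, -20, 2], [0, -768, -1232, 1048, 891, -550, 71],
    [0, -680, -10, -267, -270, 863, -194], [0, 300, -214, -308, -279, 394, -198],
    [0, 220, -78, 188, 341, -1230, 466], [0, -108, 966, -1180, -16, 596, -273],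
    [0, 12, -232, 639, -477, -53, 110]],
  [[0, 0, 0, 0, 0, 0, 0], [0, 32, 16, -46, -14, 14, -2], [0, 16, -40, 93, -81, 11, 1],
    [0, -46, 77, -118, 185, -140, 42], [0, -14, 19, 7, -153, 225, -84],
    [0, 14, -93, 104, 55, -138, 58], [0, -2, 21, -40, 8, 28, -15]],
  [[0, 0, 0, 0, 0, 0, 0], [0, 32, -112, 18, 106, -50, 6], [0, 16, -80, 143, -179, 121, -21],
    [0, -46, 167, -223, 212, -147, 37], [0, -14, 73, -12, -152, 172, -67],
    [0, 14, -55, 65, 52, -131, 55], [0, -2, 7, 9, -39, 35, -10]]]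

/-- the zeros for `d = 8` -/
def Z8 : Fin 8 → ℤ × ℤ :=
  ![(4, 5), (4, 6), (6, 6), (6, 8), (9, 14), (14, 5), (15, 4), (15, 11)]

/-- criterion (Z) for arrays -/
theorem norel_arr {d a b : ℕ} {D : Fin 4 → List (List ℤ)} {Z : Fin d → ℤ × ℤ}
    (h0 : ∀ l, tc a b (D 0) (Z l).1 (Z l).2 0 0 % 17 = 0)
    (h1 : ∀ l, tc a b (D 1) (Z l).1 (Z l).2 0 0 % 17 = 0)
    (hJ : ∀ l, (tc a b (D 0) (Z l).1 (Z l).2 1 0 * tc a b (D 1) (Z l).1 (Z l).2 0 1 -
      tc a b (D 0) (Z l).1 (Z l).2 0 1 * tc a b (D 1) (Z l).1 (Z l).2 1 0) % 17 ≠ 0)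
    (h2 : ∀ l, tc a b (D 2) (Z l).1 (Z l).2 0 0 % 17 ≠ 0)
    (h3 : ∀ l l', l ≠ l' → (tc a b (D 2) (Z l).1 (Z l).2 0 0 * tc a b (D 3) (Z l').1 (Z l').2 0 0 -
      tc a b (D 2) (Z l').1 (Z l').2 0 0 * tc a b (D 3) (Z l).1 (Z l).2 0 0) % 17 ≠ 0) :
    NoRel d fun i => poly ℚ a b (D i) := by
  have : Fact (Nat.Prime 17) := ⟨by norm_num⟩
  have hz : ∀ n : ℤ, n % 17 = 0 → ((n : ℤ) : ZMod 17) = 0 := fun n hn =>
    (ZMod.intCast_zmod_eq_zero_iff_dvd n 17).2 (Int.dvd_of_emod_eq_zero hn)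
  have hnz : ∀ n : ℤ, n % 17 ≠ 0 → ((n : ℤ) : ZMod 17) ≠ 0 := fun n hn h =>
    hn (Int.emod_eq_zero_of_dvd ((ZMod.intCast_zmod_eq_zero_iff_dvd n 17).1 h))
  have key : NoRel d fun i => poly (ZMod 17) a b (D i) := by
    refine zcrit (fun l => ipt (ZMod 17) (Z l)) ?_ ?_ ?_ ?_ ?_
    · intro l
      rw [eval_poly]
      exact hz _ (h0 l)
    · intro l
      rw [eval_poly]
      exact hz _ (h1 l)
    · intro l
      rw [eval_pderiv0_poly, eval_pderiv0_poly, eval_pderiv1_poly, eval_pderiv1_poly]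
      have := hnz _ (hJ l)
      push_cast at this
      exact this
    · intro l
      rw [eval_poly]
      exact hnz _ (h2 l)
    · intro l l' hl
      rw [eval_poly, eval_poly, eval_poly, eval_poly]
      have := hnz _ (h3 l l' hl)
      push_cast at this
      exact fun h => this (sub_eq_zero.2 h)
  intro m hm H hH hHz
  refine no_relation_generic (Int.castRingHom (ZMod 17)) (Int.castRingHom ℚ)
    (ZMod.ringHom_surjective _) (RingHom.injective_int _) (m := m)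
    (g := fun i => poly ℤ a b (D i)) ?_ H hH ?_
  · intro H' hH' hz'
    simp only [map_poly] at hz'
    exact key m hm H' hH' hz'
  · simp only [map_poly]
    exact hHz

theorem al_arr {c b : ℕ} {A : List (List ℤ)} {n : ℤ} (h : en A (2 * c) 0 = n) :
    al c (poly ℚ (2 * c) b A) = (n : ℚ) := by
  rw [al_poly, h]

theorem be_arr {c b : ℕ} {A : List (List ℤ)} {n : ℤ}
    (h : ∑ j ∈ Finset.range (b + 1), en A (2 * c) j = n) :
    be c (poly ℚ (2 * c) b A) = (n : ℚ) := by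
  rw [be_poly, h]

/-- `d = 6`, class `(4,5;2,2,2,2,1)` -/
theorem base6 : ∃ P : Par ℚ, P.Good ∧ PP P 2 0 := by
  have hsec : ∀ i : Fin 4, ∀ j : Fin 5, ∀ s < cc 2 0 j, ∀ t < cc 2 0 j - s,
      tc 4 5 (D6 i) (xB j).1 (xB j).2 s t = 0 ∧ tc 4 5 (D6 i) (xB' j).1 (xB' j).2 s t = 0 := by
    decide +kernel
  have a0 : al 2 (poly ℚ 4 5 (D6 0)) = ((2 : ℤ) : ℚ) := al_arr (c := 2) (by decide +kernel)
  have a1 : al 2 (poly ℚ 4 5 (D6 1)) = ((0 : ℤ) : ℚ) := al_arr (c := 2) (by decide +kernel)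
  have a2 : al 2 (poly ℚ 4 5 (D6 2)) = ((0 : ℤ) : ℚ) := al_arr (c := 2) (by decide +kernel)
  have a3 : al 2 (poly ℚ 4 5 (D6 3)) = ((0 : ℤ) : ℚ) := al_arr (c := 2) (by decide +kernel)
  have b0 : be 2 (poly ℚ 4 5 (D6 0)) = ((0 : ℤ) : ℚ) := be_arr (c := 2) (by decide +kernel)
  have b1 : be 2 (poly ℚ 4 5 (D6 1)) = ((-1 : ℤ) : ℚ) := be_arr (c := 2) (by decide +kernel)
  have b2 : be 2 (poly ℚ 4 5 (D6 2)) = ((0 : ℤ) : ℚ) := be_arr (c := 2) (by decide +kernel)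
  have b3 : be 2 (poly ℚ 4 5 (D6 3)) = ((0 : ℤ) : ℚ) := be_arr (c := 2) (by decide +kernel)
  refine ⟨PB, PB_good, fun i => poly ℚ 4 5 (D6 i), fun i => ⟨degreeOf_poly _ _ _, fun j => ⟨?_, ?_⟩⟩,
    ?_, ?_, ?_, ?_, ?_, ?_, ?_, ?_, ?_⟩
  · rw [PB_x]
    exact ordK_poly fun s hs t ht => (hsec i j s hs t ht).1
  · rw [PB_x']
    exact ordK_poly fun s hs t ht => (hsec i j s hs t ht).2
  · rw [a0]; norm_num
  · rw [b0]; norm_num
  · rw [a1]; norm_num
  · rw [b1]; norm_num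
  · rw [a2]; norm_num
  · rw [b2]; norm_num
  · rw [a3]; norm_num
  · rw [b3]; norm_num
  · refine norel_arr (Z := Z6) ?_ ?_ ?_ ?_ ?_ <;> decide +kernel

theorem coeff_zero_tayK_base {K : Type} [Field K] (p : Fin 2 → K) (F : MvPolynomial (Fin 2) K) :
    coeff 0 (tayK p F) = eval p F := by
  have h : (constantCoeff : MvPolynomial (Fin 2) K →+* K).comp
      (aeval (fun i => X i + C (p i)) : MvPolynomial (Fin 2) K →ₐ[K] MvPolynomial (Fin 2) K).toRingHom
      = eval p := by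
    refine MvPolynomial.ringHom_ext (fun r => ?_) fun i => ?_
    · simp
    · simp
  exact congrArg (fun φ => φ F) h

theorem eval_eq_of_degreeOf {K : Type} [Field K] {F : MvPolynomial (Fin 2) K}
    (h0 : F.degreeOf 0 ≤ 2) (h1 : F.degreeOf 1 ≤ 2) (p : Fin 2 → K) :
    eval p F =
      ∑ c : Fin 3 × Fin 3, coeff (mexp (c.1, c.2)) F * (p 0 ^ (c.1 : ℕ) * p 1 ^ (c.2 : ℕ)) := by
  have h2 : ∀ e : Fin 2 →₀ ℕ, ¬ (e 0 ≤ 2 ∧ e 1 ≤ 2) → coeff e F = 0 := by
    intro e he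
    by_contra h3
    exact he ⟨(degreeOf_le_iff.1 h0) e (mem_support_iff.2 h3),
      (degreeOf_le_iff.1 h1) e (mem_support_iff.2 h3)⟩
  conv_lhs => rw [← ofBox_coeff h2]
  unfold ofBox
  rw [map_sum]
  refine Finset.sum_congr rfl fun c _ => ?_
  rw [eval_monomial, mexp, Finsupp.prod_add_index' (by simp) (by intros; rw [pow_add]),
    Finsupp.prod_single_index (by simp), Finsupp.prod_single_index (by simp)]
  rfl

theorem finrank_HH11 : Module.finrank ℚ (HH PB 1 1) ≤ 1 := by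
  let L : HH PB 1 1 →ₗ[ℚ] ℚ := (lcoeff ℚ (mexp (2, 0))) ∘ₗ (HH PB 1 1).subtype
  have hL : Function.Injective L := by
    rw [injective_iff_map_eq_zero]
    rintro ⟨F, hF⟩ h
    have h20 : coeff (mexp (2, 0)) F = 0 := h
    obtain ⟨⟨hd0, hd1⟩, ho⟩ := hF
    have e1 : ∀ p : Fin 2 → ℚ, OrdK 1 p F → eval p F = 0 := by
      intro p hp
      rw [← coeff_zero_tayK_base]
      exact hp 0 (by simp)
    have hev := eval_eq_of_degreeOf (F := F) (by simpa using hd0) (by simpa using hd1)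
    have q0 := e1 _ (ho 0).1
    have q1 := e1 _ (ho 0).2
    have q2 := e1 _ (ho 1).1
    have q3 := e1 _ (ho 1).2
    have q4 := e1 _ (ho 2).1
    have q5 := e1 _ (ho 2).2
    have q6 := e1 _ (ho 4).1
    have q7 := e1 _ (ho 4).2
    rw [PB_x, show xB 0 = (-1, 0) from rfl, hev] at q0
    rw [PB_x', show xB' 0 = (4, 0) from rfl, hev] at q1
    rw [PB_x, show xB 1 = (-2, 1) from rfl, hev] at q2
    rw [PB_x', show xB' 1 = (-3, 1) from rfl, hev] at q3
    rw [PB_x, show xB 2 = (0, 4) from rfl, hev] at q4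
    rw [PB_x', show xB' 2 = (1, -2) from rfl, hev] at q5
    rw [PB_x, show xB 4 = (3, 2) from rfl, hev] at q6
    rw [PB_x', show xB' 4 = (2, -3) from rfl, hev] at q7
    simp only [Fintype.sum_prod_type, Fin.sum_univ_three, ipt] at q0 q1 q2 q3 q4 q5 q6 q7
    norm_num [h20] at q0 q1 q2 q3 q4 q5 q6 q7
    have r10 : coeff (mexp (1, 0)) F = 0 := by linarith
    have r00 : coeff (mexp (0, 0)) F = 0 := by linarith
    simp only [r10, r00] at q2 q3 q4 q5 q6 q7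
    have r01 : coeff (mexp (0, 1)) F = 0 := by linarith
    have r02 : coeff (mexp (0, 2)) F = 0 := by linarith
    have r11 : coeff (mexp (1, 1)) F = 0 := by linarith
    have r12 : coeff (mexp (1, 2)) F = 0 := by linarith
    have r21 : coeff (mexp (2, 1)) F = 0 := by linarith
    have r22 : coeff (mexp (2, 2)) F = 0 := by linarith
    apply Subtype.ext
    change F = 0
    ext e
    rw [coeff_zero]
    by_contra h3
    have h4 : e 0 ≤ 2 := (degreeOf_le_iff.1 (show F.degreeOf 0 ≤ 2 by simpa using hd0)) e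
      (mem_support_iff.2 h3)
    have h5 : e 1 ≤ 2 := (degreeOf_le_iff.1 (show F.degreeOf 1 ≤ 2 by simpa using hd1)) e
      (mem_support_iff.2 h3)
    apply h3
    rw [← mexp_self e]
    have h6 : ∀ i ≤ 2, ∀ j ≤ 2, coeff (mexp (i, j)) F = 0 := by
      intro i hi j hj
      interval_cases i <;> interval_cases j <;> assumption
    exact h6 _ h4 _ h5
  have := LinearMap.finrank_le_finrank_of_injective hL
  rwa [Module.finrank_self] at this

/-- `d = 8`, class `(6,6;3,3,3,2,1)` -/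
theorem base8 : ∃ P : Par ℚ, P.Good ∧ Module.finrank ℚ (HH P 1 1) ≤ 1 ∧ PP P 3 1 := by
  have hsec : ∀ i : Fin 4, ∀ j : Fin 5, ∀ s < cc 3 1 j, ∀ t < cc 3 1 j - s,
      tc 6 6 (D8 i) (xB j).1 (xB j).2 s t = 0 ∧ tc 6 6 (D8 i) (xB' j).1 (xB' j).2 s t = 0 := by
    decide +kernel
  have a0 : al 3 (poly ℚ 6 6 (D8 0)) = ((-12 : ℤ) : ℚ) := al_arr (c := 3) (by decide +kernel)
  have a1 : al 3 (poly ℚ 6 6 (D8 1)) = ((0 : ℤ) : ℚ) := al_arr (c := 3) (by decide +kernel)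
  have a2 : al 3 (poly ℚ 6 6 (D8 2)) = ((0 : ℤ) : ℚ) := al_arr (c := 3) (by decide +kernel)
  have a3 : al 3 (poly ℚ 6 6 (D8 3)) = ((0 : ℤ) : ℚ) := al_arr (c := 3) (by decide +kernel)
  have b0 : be 3 (poly ℚ 6 6 (D8 0)) = ((0 : ℤ) : ℚ) := be_arr (c := 3) (by decide +kernel)
  have b1 : be 3 (poly ℚ 6 6 (D8 1)) = ((-1 : ℤ) : ℚ) := be_arr (c := 3) (by decide +kernel)
  have b2 : be 3 (poly ℚ 6 6 (D8 2)) = ((0 : ℤ) : ℚ) := be_arr (c := 3) (by decide +kernel)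
  have b3 : be 3 (poly ℚ 6 6 (D8 3)) = ((0 : ℤ) : ℚ) := be_arr (c := 3) (by decide +kernel)
  refine ⟨PB, PB_good, finrank_HH11, fun i => poly ℚ 6 6 (D8 i),
    fun i => ⟨degreeOf_poly _ _ _, fun j => ⟨?_, ?_⟩⟩, ?_, ?_, ?_, ?_, ?_, ?_, ?_, ?_, ?_⟩
  · rw [PB_x]
    exact ordK_poly fun s hs t ht => (hsec i j s hs t ht).1
  · rw [PB_x']
    exact ordK_poly fun s hs t ht => (hsec i j s hs t ht).2
  · rw [a0]; norm_num
  · rw [b0]; norm_num
  · rw [a1]; norm_num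
  · rw [b1]; norm_num
  · rw [a2]; norm_num
  · rw [b2]; norm_num
  · rw [a3]; norm_num
  · rw [b3]; norm_num
  · refine norel_arr (Z := Z8) ?_ ?_ ?_ ?_ ?_ <;> decide +kernel

end Pool.Agent.Lib.MP_ed661f_ag.S.Fam
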