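import Pool.Agent.Lib.MP_ed661f_ag.S.Fam.Dim

/-!
# The sections which vanish at one more point
-/

set_option autoImplicit false

open MvPolynomial

namespace Pool.Agent.Lib.MP_ed661f_ag.S.Fam

variable {K : Type} [Field K]

/-- evaluation at `w` -/
noncomputable def evw (w : Fin 2 → K) : MvPolynomial (Fin 2) K →ₗ[K] K :=
  (aeval w : MvPolynomial (Fin 2) K →ₐ[K] K).toLinearMap

theorem evw_mul (w : Fin 2 → K) (F G : MvPolynomial (Fin 2) K) :
    evw w (F * G) = evw w F * evw w G := by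
  unfold evw
  rw [AlgHom.toLinearMap_apply, AlgHom.toLinearMap_apply, AlgHom.toLinearMap_apply, map_mul]

/-- the sections which vanish at `w` -/
noncomputable def HHw (P : Par K) (w : Fin 2 → K) (c e : ℕ) : Submodule K (MvPolynomial (Fin 2) K) :=
  HH P c e ⊓ LinearMap.ker (evw w)

theorem mem_HHw {P : Par K} {w : Fin 2 → K} {c e : ℕ} {F : MvPolynomial (Fin 2) K} :
    F ∈ HHw P w c e ↔ F ∈ HH P c e ∧ evw w F = 0 := Iff.rfl

theorem HHw_le (P : Par K) (w : Fin 2 → K) (c e : ℕ) : HHw P w c e ≤ HH P c e := inf_le_left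

variable {P : Par K} {w : Fin 2 → K} {c e : ℕ}

theorem phi_mul_memW (hP : P.Good) (he : e ≤ 1) {G : MvPolynomial (Fin 2) K}
    (hG : G ∈ HHw P w c e) : phi * G ∈ HHw P w (c + 1) e := by
  refine mem_HHw.2 ⟨phi_mul_mem hP he hG.1, ?_⟩
  rw [evw_mul, (mem_HHw.1 hG).2, mul_zero]

theorem exists_phiW (hP : P.Good) (he : e ≤ 1) (hw : evw w (phi : MvPolynomial (Fin 2) K) ≠ 0)
    {F : MvPolynomial (Fin 2) K} (hF : F ∈ HHw P w (c + 1) e)
    (h1 : al (c + 1) F = 0) (h2 : be (c + 1) F = 0) : ∃ G ∈ HHw P w c e, F = phi * G := by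
  obtain ⟨G, hG, rfl⟩ := exists_phi hP he hF.1 h1 h2
  refine ⟨G, ⟨hG, ?_⟩, rfl⟩
  have h3 := (mem_HHw.1 hF).2
  rw [evw_mul] at h3
  exact (mul_eq_zero.1 h3).resolve_left hw

theorem al_phi (c : ℕ) (G : MvPolynomial (Fin 2) K) : al c (phi * G) = 0 := by
  unfold al
  rw [map_mul, bot_phi, zero_mul, Polynomial.coeff_zero]

theorem be_phi (c : ℕ) (G : MvPolynomial (Fin 2) K) : be c (phi * G) = 0 := by
  unfold be
  rw [map_mul, top_phi, zero_mul, Polynomial.coeff_zero]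

/-- a section which does not vanish at `w` -/
theorem exists_not_zero (hP : P.Good) (he : e ≤ 1)
    (hw : evw w (phi : MvPolynomial (Fin 2) K) ≠ 0) {c0 : ℕ}
    (h0 : ∃ G ∈ HH P c0 e, evw w G ≠ 0) (hc : c0 ≤ c) : ∃ G ∈ HH P c e, evw w G ≠ 0 := by
  induction c, hc using Nat.le_induction with
  | base => exact h0
  | succ c hc ih =>
    obtain ⟨G, hG, hG0⟩ := ih
    refine ⟨phi * G, phi_mul_mem hP he hG, ?_⟩
    rw [evw_mul]
    exact mul_ne_zero hw hG0

theorem exists_uvW (hP : P.Good) (he : e ≤ 1) (h1 : e = 1 → Module.finrank K (HH P 1 1) ≤ 1)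
    (hc : 1 ≤ c) (hw : evw w (phi : MvPolynomial (Fin 2) K) ≠ 0)
    (h0 : ∃ G ∈ HH P c e, evw w G ≠ 0) (s t : K) :
    ∃ F ∈ HHw P w (c + 1) e, al (c + 1) F = s ∧ be (c + 1) F = t := by
  obtain ⟨F, hF, hs, ht⟩ := exists_uv hP he h1 hc s t
  obtain ⟨G, hG, hG0⟩ := h0
  have hne : evw w (phi * G) ≠ 0 := by
    rw [evw_mul]
    exact mul_ne_zero hw hG0
  set r : K := evw w F / evw w (phi * G) with hr
  refine ⟨F - r • (phi * G), mem_HHw.2 ⟨sub_mem hF (Submodule.smul_mem _ _ (phi_mul_mem hP he hG)), ?_⟩, ?_, ?_⟩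
  · rw [map_sub, map_smul, smul_eq_mul, hr, div_mul_cancel₀ _ hne, sub_self]
  · have h2 : al (c + 1) (F - r • (phi * G)) = al (c + 1) F - r * al (c + 1) (phi * G) := by
      unfold al
      rw [map_sub, map_smul, Polynomial.coeff_sub, Polynomial.coeff_smul, smul_eq_mul]
    rw [h2, al_phi, mul_zero, sub_zero, hs]
  · have h2 : be (c + 1) (F - r • (phi * G)) = be (c + 1) F - r * be (c + 1) (phi * G) := by
      unfold be
      rw [map_sub, map_smul, Polynomial.coeff_sub, Polynomial.coeff_smul, smul_eq_mul]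
    rw [h2, be_phi, mul_zero, sub_zero, ht]

/-- the dimension drops by one -/
theorem finrank_HHw (hP : P.Good) (he : e ≤ 1) (h1 : e = 1 → Module.finrank K (HH P 1 1) ≤ 1)
    (hc : 1 ≤ c) (h0 : ∃ G ∈ HH P c e, evw w G ≠ 0) :
    Module.finrank K (HHw P w c e) + 1 = 2 * c - e := by
  have hfin : Module.Finite K (HH P c e) := finite_SecK _ _ _ _ _
  rw [← finrank_HH hP he h1 hc]
  set f : HH P c e →ₗ[K] K := (evw w).comp (HH P c e).subtype with hf
  have hsurj : Function.Surjective f := by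
    obtain ⟨G, hG, hG0⟩ := h0
    intro r
    refine ⟨(r / evw w G) • ⟨G, hG⟩, ?_⟩
    rw [map_smul, smul_eq_mul]
    change r / evw w G * evw w G = r
    exact div_mul_cancel₀ _ hG0
  have h2 := LinearMap.finrank_range_add_finrank_ker f
  rw [LinearMap.range_eq_top.2 hsurj, finrank_top, Module.finrank_self] at h2
  have h3 : Module.finrank K (LinearMap.ker f) = Module.finrank K (HHw P w c e) := by
    have h4 : HHw P w c e = (LinearMap.ker f).map (HH P c e).subtype := by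
      ext F
      rw [mem_HHw, Submodule.mem_map]
      constructor
      · rintro ⟨h5, h6⟩
        exact ⟨⟨F, h5⟩, h6, rfl⟩
      · rintro ⟨⟨G, hG⟩, h5, rfl⟩
        exact ⟨hG, h5⟩
    rw [h4]
    exact (Submodule.finrank_map_subtype_eq _ _).symm
  omega

end Pool.Agent.Lib.MP_ed661f_ag.S.Fam
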