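import Pool.Agent.Lib.MP_ed661f_ag.S.Fam.Step
import Pool.Agent.Lib.MP_ed661f_ag.S.Fam.DimW

/-!
# The induction step for subspaces of the spaces of sections
-/

set_option autoImplicit false

open MvPolynomial

namespace Pool.Agent.Lib.MP_ed661f_ag.S.Fam

variable {K : Type} [Field K]

/-- the induction statement for a subspace of the space of sections -/
def PPV (c : ℕ) (V : Submodule K (MvPolynomial (Fin 2) K)) (D : ℕ) : Prop :=
  ∃ g : Fin 4 → MvPolynomial (Fin 2) K, (∀ i, g i ∈ V) ∧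
    al c (g 0) ≠ 0 ∧ be c (g 0) = 0 ∧ al c (g 1) = 0 ∧ be c (g 1) ≠ 0 ∧
    al c (g 2) = 0 ∧ be c (g 2) = 0 ∧ al c (g 3) = 0 ∧ be c (g 3) = 0 ∧ NoRel D g

variable {P : Par K} {c e : ℕ}

/-- the induction step for subspaces of the spaces of sections -/
theorem stepV [Infinite K] (hP : P.Good) (hc : e ≤ c) {D : ℕ} (hD : 3 ≤ D)
    {V V' : Submodule K (MvPolynomial (Fin 2) K)} (hV : V ≤ HH P c e) (hV' : V' ≤ HH P (c + 1) e)
    (hphi : ∀ F ∈ V, phi * F ∈ V')
    (huv : ∀ s t : K, ∃ F ∈ V', al (c + 1) F = s ∧ be (c + 1) F = t) (h : PPV c V D) :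
    PPV (c + 1) V' (D + 4) := by
  obtain ⟨g, hgV, ha0, hb0, ha1, hb1, ha2, hb2, ha3, hb3, hrel⟩ := h
  have hg : ∀ i, g i ∈ HH P c e := fun i => hV (hgV i)
  have hec : e ≤ c := hc
  have hec1 : e ≤ c + 1 := by omega
  obtain ⟨u, huV, hau, hbu⟩ := huv 1 0
  obtain ⟨v, hvV, hav, hbv⟩ := huv 0 1
  have hu : u ∈ HH P (c + 1) e := hV' huV
  have hv : v ∈ HH P (c + 1) e := hV' hvV
  set gs : Fin 4 → MvPolynomial (Fin 2) K := ![g 2, g 3, g 0, g 1] with hgs
  set hh : Fin 4 → MvPolynomial (Fin 2) K := ![u, v, 0, 0] with hhh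
  set d : ℕ := D + 4 with hd
  have hgs' : NoRel D gs := by
    have e1 : gs = g ∘ (![2, 3, 0, 1] : Fin 4 → Fin 4) := by
      funext i
      fin_cases i <;> rfl
    rw [e1]
    refine hrel.comp ?_
    decide
  -- the key: some `s0` works
  have key : ∃ s0 : K, s0 ≠ 0 ∧ NoRel d (fun i => phi * gs i + C s0 * hh i) := by
    by_contra hcon
    push Not at hcon
    obtain ⟨R, hR, hR0, hRg, hRrho⟩ := limit_rel (K := K) (d := d) (by omega) (g := gs) (h := hh)
      (phi_ne_zero (K := K)) hcon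
    -- left
    have hw0 : ∀ (t1 t2 : K) (n1 n2 : ℕ), (Polynomial.X - Polynomial.C t1) ^ n1 *
        (Polynomial.X - Polynomial.C t2) ^ n2 ≠ 0 := fun t1 t2 n1 n2 =>
      mul_ne_zero (pow_ne_zero _ (Polynomial.X_sub_C_ne_zero _))
        (pow_ne_zero _ (Polynomial.X_sub_C_ne_zero _))
    have hl := quad_of_line (mul_ne_zero ha0 (cA_ne hP (c := c) (e := e)))
      (mul_ne_zero hb1 (cB_ne hP (c := c) (e := e))) (cA_ne hP (c := c + 1) (e := e))
      (cB_ne hP (c := c + 1) (e := e)) (hw0 (P.q 0) (P.q 1) c (c - e))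
      (hw0 (P.q 0) (P.q 1) (c + 1) (c + 1 - e)) (rho := lef) (g0 := g 0) (g1 := g 1) (g2 := g 2)
      (g3 := g 3) (u := u) (v := v)
      (by rw [lef_eq hP hec (hg 0), hb0]; simp)
      (by rw [lef_eq hP hec (hg 1), ha1]; simp)
      (by rw [lef_eq hP hec (hg 2), ha2, hb2]; simp)
      (by rw [lef_eq hP hec (hg 3), ha3, hb3]; simp)
      (by rw [lef_eq hP hec1 hu, hau, hbu]; simp)
      (by rw [lef_eq hP hec1 hv, hav, hbv]; simp) hR
      (hRrho lef lef_phi)
    have hr := quad_of_line (mul_ne_zero ha0 (cC_ne hP (c := c) (e := e)))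
      (mul_ne_zero hb1 (cD_ne hP (c := c) (e := e))) (cC_ne hP (c := c + 1) (e := e))
      (cD_ne hP (c := c + 1) (e := e)) (hw0 (P.q 2) (P.q 3) c (c - e))
      (hw0 (P.q 2) (P.q 3) (c + 1) (c + 1 - e)) (rho := rig) (g0 := g 0) (g1 := g 1) (g2 := g 2)
      (g3 := g 3) (u := u) (v := v)
      (by rw [rig_eq hP hec (hg 0), hb0]; simp)
      (by rw [rig_eq hP hec (hg 1), ha1]; simp)
      (by rw [rig_eq hP hec (hg 2), ha2, hb2]; simp)
      (by rw [rig_eq hP hec (hg 3), ha3, hb3]; simp)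
      (by rw [rig_eq hP hec1 hu, hau, hbu]; simp)
      (by rw [rig_eq hP hec1 hv, hav, hbv]; simp) hR
      (hRrho rig rig_phi)
    have n1 : al c (g 0) * cA P c e * cB P (c + 1) e ≠ 0 :=
      mul_ne_zero (mul_ne_zero ha0 (cA_ne hP)) (cB_ne hP)
    have n2 : cA P (c + 1) e * (be c (g 1) * cB P c e) ≠ 0 :=
      mul_ne_zero (cA_ne hP) (mul_ne_zero hb1 (cB_ne hP))
    have n3 : al c (g 0) * cC P c e * cD P (c + 1) e ≠ 0 :=
      mul_ne_zero (mul_ne_zero ha0 (cC_ne hP)) (cD_ne hP)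
    have n4 : cC P (c + 1) e * (be c (g 1) * cD P c e) ≠ 0 :=
      mul_ne_zero (cC_ne hP) (mul_ne_zero hb1 (cD_ne hP))
    exact no_rel_contra (D := D) hD hgs'
      (by
        have : d - 1 = D + 3 := by omega
        rw [← this]
        exact hR) hR0 hRg n1 n2 n3 n4 (quads_ne hP hec ha0 hb1) hl hr
  obtain ⟨s0, hs0, hrel'⟩ := key
  have hal : ∀ F G : MvPolynomial (Fin 2) K, al (c + 1) (phi * F + C s0 * G) =
      s0 * al (c + 1) G := by
    intro F G
    unfold al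
    have h3 : bot (C s0 : MvPolynomial (Fin 2) K) = Polynomial.C s0 := by
      simp [bot]
    rw [map_add, map_mul, map_mul, bot_phi, zero_mul, zero_add, h3, Polynomial.coeff_C_mul]
  have hbe : ∀ F G : MvPolynomial (Fin 2) K, be (c + 1) (phi * F + C s0 * G) =
      s0 * be (c + 1) G := by
    intro F G
    unfold be
    have h3 : top (C s0 : MvPolynomial (Fin 2) K) = Polynomial.C s0 := by
      simp [top]
    rw [map_add, map_mul, map_mul, top_phi, zero_mul, zero_add, h3, Polynomial.coeff_C_mul]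
  have hal0 : al (c + 1) (0 : MvPolynomial (Fin 2) K) = 0 := by
    unfold al
    rw [map_zero, Polynomial.coeff_zero]
  have hbe0 : be (c + 1) (0 : MvPolynomial (Fin 2) K) = 0 := by
    unfold be
    rw [map_zero, Polynomial.coeff_zero]
  have hmem : ∀ F G : MvPolynomial (Fin 2) K, F ∈ V → G ∈ V' → phi * F + C s0 * G ∈ V' := by
    intro F G hF hG
    refine Submodule.add_mem _ (hphi F hF) ?_
    rw [← smul_eq_C_mul]
    exact Submodule.smul_mem _ _ hG
  refine ⟨fun i => phi * gs i + C s0 * hh i, ?_, ?_, ?_, ?_, ?_, ?_, ?_, ?_, ?_, hrel'⟩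
  · intro i
    fin_cases i
    · exact hmem _ _ (hgV 2) huV
    · exact hmem _ _ (hgV 3) hvV
    · exact hmem _ _ (hgV 0) (Submodule.zero_mem _)
    · exact hmem _ _ (hgV 1) (Submodule.zero_mem _)
  · have : al (c + 1) (phi * gs 0 + C s0 * hh 0) = s0 * al (c + 1) u := hal _ _
    rw [this, hau, mul_one]
    exact hs0
  · have : be (c + 1) (phi * gs 0 + C s0 * hh 0) = s0 * be (c + 1) u := hbe _ _
    rw [this, hbu, mul_zero]
  · have : al (c + 1) (phi * gs 1 + C s0 * hh 1) = s0 * al (c + 1) v := hal _ _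
    rw [this, hav, mul_zero]
  · have : be (c + 1) (phi * gs 1 + C s0 * hh 1) = s0 * be (c + 1) v := hbe _ _
    rw [this, hbv, mul_one]
    exact hs0
  · have : al (c + 1) (phi * gs 2 + C s0 * hh 2) = s0 * al (c + 1) 0 := hal _ _
    rw [this, hal0, mul_zero]
  · have : be (c + 1) (phi * gs 2 + C s0 * hh 2) = s0 * be (c + 1) 0 := hbe _ _
    rw [this, hbe0, mul_zero]
  · have : al (c + 1) (phi * gs 3 + C s0 * hh 3) = s0 * al (c + 1) 0 := hal _ _
    rw [this, hal0, mul_zero]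
  · have : be (c + 1) (phi * gs 3 + C s0 * hh 3) = s0 * be (c + 1) 0 := hbe _ _
    rw [this, hbe0, mul_zero]

/-- the step for the sections which vanish at `w` -/
theorem stepW [Infinite K] (hP : P.Good) (he : e ≤ 1)
    (h1 : e = 1 → Module.finrank K (HH P 1 1) ≤ 1) {w : Fin 2 → K}
    (hw : evw w (phi : MvPolynomial (Fin 2) K) ≠ 0) (hc : 2 ≤ c) (h0 : ∃ G ∈ HH P c e, evw w G ≠ 0)
    {D : ℕ} (hD : 3 ≤ D) (h : PPV c (HHw P w c e) D) :
    PPV (c + 1) (HHw P w (c + 1) e) (D + 4) :=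
  stepV hP (by omega) hD (HHw_le P w c e) (HHw_le P w (c + 1) e)
    (fun _ hF => phi_mul_memW hP he hF) (fun s t => exists_uvW hP he h1 (by omega) hw h0 s t) h

end Pool.Agent.Lib.MP_ed661f_ag.S.Fam
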