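import Mathlib
import Pool.Agent.Lib.MP_ed661f_ag.S.Fam.Base
import Pool.Agent.Lib.MP_ed661f_ag.S.Fam.StepW

/-!
# The base cases with one more base point, `d = 7` and `d = 9`

The configuration of `Base.lean` and the point `w = (2,-4)`; primes `23` and `19`.
-/

set_option autoImplicit false

open MvPolynomial

namespace Pool.Agent.Lib.MP_ed661f_ag.S.Fam

/-- the additional point -/
def wB : Fin 2 → ℚ := ipt ℚ (2, -4)

theorem evw_eq_eval {K : Type} [Field K] (w : Fin 2 → K) (F : MvPolynomial (Fin 2) K) :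
    evw w F = eval w F := by
  unfold evw
  rw [← MvPolynomial.coe_aeval_eq_eval]
  rfl

theorem evw_poly (x : ℤ × ℤ) (a b : ℕ) (A : List (List ℤ)) :
    evw (ipt ℚ x) (poly ℚ a b A) = ((tc a b A x.1 x.2 0 0 : ℤ) : ℚ) := by
  rw [← eval_poly, evw_eq_eval]

theorem phi_wB : evw wB (phi : MvPolynomial (Fin 2) ℚ) ≠ 0 := by
  rw [evw_eq_eval]
  simp [phi, wB, ipt]
  norm_num

/-- membership of an integral polynomial -/
theorem mem_HH_arr {c e : ℕ} {A : List (List ℤ)}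
    (h : ∀ j : Fin 5, ∀ s < cc c e j, ∀ t < cc c e j - s,
      tc (2 * c) (2 * c + 1 - e) A (xB j).1 (xB j).2 s t = 0 ∧
      tc (2 * c) (2 * c + 1 - e) A (xB' j).1 (xB' j).2 s t = 0) :
    poly ℚ (2 * c) (2 * c + 1 - e) A ∈ HH PB c e := by
  refine ⟨degreeOf_poly _ _ _, fun j => ⟨?_, ?_⟩⟩
  · rw [PB_x]
    exact ordK_poly fun s hs t ht => (h j s hs t ht).1
  · rw [PB_x']
    exact ordK_poly fun s hs t ht => (h j s hs t ht).2

theorem exW0 : ∃ G ∈ HH PB 2 0, evw wB G ≠ 0 := by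
  refine ⟨poly ℚ (2 * 2) (2 * 2 + 1 - 0) (D6 0), mem_HH_arr (by decide +kernel), ?_⟩
  have h : tc (2 * 2) (2 * 2 + 1 - 0) (D6 0) 2 (-4) 0 0 = 600 := by decide +kernel
  rw [wB, evw_poly, h]
  norm_num

theorem exW1 : ∃ G ∈ HH PB 3 1, evw wB G ≠ 0 := by
  refine ⟨poly ℚ (2 * 3) (2 * 3 + 1 - 1) (D8 0), mem_HH_arr (by decide +kernel), ?_⟩
  have h : tc (2 * 3) (2 * 3 + 1 - 1) (D8 0) 2 (-4) 0 0 = -1036000 := by decide +kernel
  rw [wB, evw_poly, h]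
  norm_num

/-- the sections for `d = 7` -/
def D7 : Fin 4 → List (List ℤ) := ![
  [[1536, 384, -2400, -120, 840, -264, 24], [3456, -1376, -3576, 1478, 110, -102, 10],
    [1440, -1720, 1344, -631, -1421, 1191, -203], [-1080, 1510, 1033, -3200, 2557, -938, 118],
    [-360, 830, -1537, 1657, -779, 313, -124], [216, -566, 23, 802, -457, -176, 158],
    [-24, 74, 73, -346, 230, 48, -55]],
  [[0, 768, 960, -240, -300, 120, -12], [0, 3200, 1472, -1656, 160, 76, -12],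
    [0, 3376, 4, 176, 439, -818, 171], [0, 224, 1796, 1610, -3328, 1959, -431],
    [0, -704, 1972, -1806, 2668, -2333, 761], [0, 32, -388, 1046, -1436, 1297, -461],
    [0, 16, -56, -90, 357, -301, 80]],
  [[0, 0, 0, 0, 0, 0, 0], [0, 128, -64, -120, 64, -8, 0], [0, 64, -200, 422, -422, 154, -18],
    [0, -184, 398, -577, 767, -567, 163], [0, -56, 130, 9, -611, 847, -319],
    [0, 56, -334, 377, 217, -545, 229], [0, -8, 70, -111, -15, 119, -55]],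
  [[0, 0, 0, 0, 0, 0, 0], [0, -256, 288, 160, -278, 96, -10], [0, -128, 264, -278, 215, -84, 11],
    [0, 368, -676, 134, 470, -409, 113], [0, 112, -188, 410, -838, 719, -215],
    [0, -112, 388, -574, 580, -403, 121], [0, 16, -76, 148, -149, 81, -20]]]

/-- the zeros for `d = 7` -/
def Z7 : Fin 7 → ℤ × ℤ := ![(2, 4), (2, 18), (3, 15), (5, 13), (9, 14), (16, 2), (21, 19)]

/-- the sections for `d = 9` -/
def D9 : Fin 4 → List (List ℤ) := ![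
  [[-512, -640, 672, 840, -240, -192, 80, -8], [-1152, -224, 2280, 222, -1302, 30, 174, -28],
    [-480, 1352, 776, -2067, -339, 761, 43, -46], [360, 718, -1559, -962, 1783, 296, -780, 144],
    [120, -298, -701, 1239, 472, -1465, 729, -96], [-72, -62, 71, 604, -1131, 780, -224, 34],
    [8, 18, 45, -316, 357, -114, 10, -8]],
  [[0, 64, 144, 60, -45, -15, 9, -1], [0, 2080, 992, -2774, -481, 946, -241, 18],
    [0, 1700, 511, -842, -1268, -365, 1036, -214], [0, -1820, 1848, 164, 569, 95, -764, 213],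
    [0, -820, -846, 2066, -820, 848, -81, -254], [0, 604, -2408, 1378, 2228, -2305, 137, 381],
    [0, -80, 623, -772, -463, 916, -72, -151]],
  [[0, 0, 0, 0, 0, 0, 0, 0], [0, 0, 48, 24, -69, -21, 21, -3],
    [0, 0, 132, -77, -161, 87, 29, -10], [0, 0, 12, -194, 219, 47, -104, 20],
    [0, 0, -156, 180, 71, -153, 72, -14], [0, 0, -60, 122, -86, 30, -17, 11],
    [0, 0, 24, -55, 26, 10, -1, -4]],
  [[0, 0, 0, 0, 0, 0, 0, 0], [0, -128, 16, 224, -59, -91, 43, -5],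
    [0, -64, 164, -157, -66, 208, -98, 13], [0, 184, -210, -163, 337, -206, 68, -10],
    [0, 56, -126, 229, -219, 66, -16, 10], [0, -56, 194, -181, 6, 49, 1, -13],
    [0, 8, -38, 48, 1, -26, 2, 5]]]

/-- the zeros for `d = 9` -/
def Z9 : Fin 9 → ℤ × ℤ :=
  ![(2, 6), (4, 5), (5, 7), (7, 2), (8, 4), (13, 7), (15, 16), (16, 12), (18, 12)]

/-- criterion (Z) for arrays, any prime -/
theorem norel_arrP (p : ℕ) [Fact p.Prime] {d a b : ℕ} {D : Fin 4 → List (List ℤ)}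
    {Z : Fin d → ℤ × ℤ}
    (h0 : ∀ l, tc a b (D 0) (Z l).1 (Z l).2 0 0 % p = 0)
    (h1 : ∀ l, tc a b (D 1) (Z l).1 (Z l).2 0 0 % p = 0)
    (hJ : ∀ l, (tc a b (D 0) (Z l).1 (Z l).2 1 0 * tc a b (D 1) (Z l).1 (Z l).2 0 1 -
      tc a b (D 0) (Z l).1 (Z l).2 0 1 * tc a b (D 1) (Z l).1 (Z l).2 1 0) % p ≠ 0)
    (h2 : ∀ l, tc a b (D 2) (Z l).1 (Z l).2 0 0 % p ≠ 0)
    (h3 : ∀ l l', l ≠ l' → (tc a b (D 2) (Z l).1 (Z l).2 0 0 * tc a b (D 3) (Z l').1 (Z l').2 0 0 -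
      tc a b (D 2) (Z l').1 (Z l').2 0 0 * tc a b (D 3) (Z l).1 (Z l).2 0 0) % p ≠ 0) :
    NoRel d fun i => poly ℚ a b (D i) := by
  have hz : ∀ n : ℤ, n % p = 0 → ((n : ℤ) : ZMod p) = 0 := fun n hn =>
    (ZMod.intCast_zmod_eq_zero_iff_dvd n p).2 (Int.dvd_of_emod_eq_zero hn)
  have hnz : ∀ n : ℤ, n % p ≠ 0 → ((n : ℤ) : ZMod p) ≠ 0 := fun n hn h =>
    hn (Int.emod_eq_zero_of_dvd ((ZMod.intCast_zmod_eq_zero_iff_dvd n p).1 h))
  have key : NoRel d fun i => poly (ZMod p) a b (D i) := by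
    refine zcrit (fun l => ipt (ZMod p) (Z l)) ?_ ?_ ?_ ?_ ?_
    · intro l
      rw [eval_poly]
      exact hz _ (h0 l)
    · intro l
      rw [eval_poly]
      exact hz _ (h1 l)
    · intro l
      rw [eval_pderiv0_poly, eval_pderiv0_poly, eval_pderiv1_poly, eval_pderiv1_poly]
      have := hnz _ (hJ l)
      push_cast at this
      exact this
    · intro l
      rw [eval_poly]
      exact hnz _ (h2 l)
    · intro l l' hl
      rw [eval_poly, eval_poly, eval_poly, eval_poly]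
      have := hnz _ (h3 l l' hl)
      push_cast at this
      exact fun h => this (sub_eq_zero.2 h)
  intro m hm H hH hHz
  refine no_relation_generic (Int.castRingHom (ZMod p)) (Int.castRingHom ℚ)
    (ZMod.ringHom_surjective _) (RingHom.injective_int _) (m := m)
    (g := fun i => poly ℤ a b (D i)) ?_ H hH ?_
  · intro H' hH' hz'
    simp only [map_poly] at hz'
    exact key m hm H' hH' hz'
  · simp only [map_poly]
    exact hHz

theorem base7 : PPV 3 (HHw PB wB 3 1) 7 := by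
  have hsec : ∀ i : Fin 4, ∀ j : Fin 5, ∀ s < cc 3 1 j, ∀ t < cc 3 1 j - s,
      tc (2 * 3) (2 * 3 + 1 - 1) (D7 i) (xB j).1 (xB j).2 s t = 0 ∧
      tc (2 * 3) (2 * 3 + 1 - 1) (D7 i) (xB' j).1 (xB' j).2 s t = 0 := by
    decide +kernel
  have hw : ∀ i : Fin 4, tc (2 * 3) (2 * 3 + 1 - 1) (D7 i) 2 (-4) 0 0 = 0 := by
    decide +kernel
  have a0 : al 3 (poly ℚ (2 * 3) (2 * 3 + 1 - 1) (D7 0)) = ((-24 : ℤ) : ℚ) :=
    al_arr (by decide +kernel)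
  have a1 : al 3 (poly ℚ (2 * 3) (2 * 3 + 1 - 1) (D7 1)) = ((0 : ℤ) : ℚ) :=
    al_arr (by decide +kernel)
  have a2 : al 3 (poly ℚ (2 * 3) (2 * 3 + 1 - 1) (D7 2)) = ((0 : ℤ) : ℚ) :=
    al_arr (by decide +kernel)
  have a3 : al 3 (poly ℚ (2 * 3) (2 * 3 + 1 - 1) (D7 3)) = ((0 : ℤ) : ℚ) :=
    al_arr (by decide +kernel)
  have b0 : be 3 (poly ℚ (2 * 3) (2 * 3 + 1 - 1) (D7 0)) = ((0 : ℤ) : ℚ) :=
    be_arr (by decide +kernel)
  have b1 : be 3 (poly ℚ (2 * 3) (2 * 3 + 1 - 1) (D7 1)) = ((6 : ℤ) : ℚ) :=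
    be_arr (by decide +kernel)
  have b2 : be 3 (poly ℚ (2 * 3) (2 * 3 + 1 - 1) (D7 2)) = ((0 : ℤ) : ℚ) :=
    be_arr (by decide +kernel)
  have b3 : be 3 (poly ℚ (2 * 3) (2 * 3 + 1 - 1) (D7 3)) = ((0 : ℤ) : ℚ) :=
    be_arr (by decide +kernel)
  refine ⟨fun i => poly ℚ (2 * 3) (2 * 3 + 1 - 1) (D7 i),
    fun i => mem_HHw.2 ⟨mem_HH_arr (hsec i), ?_⟩, ?_, ?_, ?_, ?_, ?_, ?_, ?_, ?_, ?_⟩
  · rw [wB, evw_poly, hw i, Int.cast_zero]
  · rw [a0]; norm_num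
  · rw [b0]; norm_num
  · rw [a1]; norm_num
  · rw [b1]; norm_num
  · rw [a2]; norm_num
  · rw [b2]; norm_num
  · rw [a3]; norm_num
  · rw [b3]; norm_num
  · have : Fact (Nat.Prime 23) := ⟨by norm_num⟩
    refine norel_arrP 23 (Z := Z7) ?_ ?_ ?_ ?_ ?_ <;> decide +kernel

theorem base9 : PPV 3 (HHw PB wB 3 0) 9 := by
  have hsec : ∀ i : Fin 4, ∀ j : Fin 5, ∀ s < cc 3 0 j, ∀ t < cc 3 0 j - s,
      tc (2 * 3) (2 * 3 + 1 - 0) (D9 i) (xB j).1 (xB j).2 s t = 0 ∧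
      tc (2 * 3) (2 * 3 + 1 - 0) (D9 i) (xB' j).1 (xB' j).2 s t = 0 := by
    decide +kernel
  have hw : ∀ i : Fin 4, tc (2 * 3) (2 * 3 + 1 - 0) (D9 i) 2 (-4) 0 0 = 0 := by
    decide +kernel
  have a0 : al 3 (poly ℚ (2 * 3) (2 * 3 + 1 - 0) (D9 0)) = ((8 : ℤ) : ℚ) :=
    al_arr (by decide +kernel)
  have a1 : al 3 (poly ℚ (2 * 3) (2 * 3 + 1 - 0) (D9 1)) = ((0 : ℤ) : ℚ) :=
    al_arr (by decide +kernel)
  have a2 : al 3 (poly ℚ (2 * 3) (2 * 3 + 1 - 0) (D9 2)) = ((0 : ℤ) : ℚ) :=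
    al_arr (by decide +kernel)
  have a3 : al 3 (poly ℚ (2 * 3) (2 * 3 + 1 - 0) (D9 3)) = ((0 : ℤ) : ℚ) :=
    al_arr (by decide +kernel)
  have b0 : be 3 (poly ℚ (2 * 3) (2 * 3 + 1 - 0) (D9 0)) = ((0 : ℤ) : ℚ) :=
    be_arr (by decide +kernel)
  have b1 : be 3 (poly ℚ (2 * 3) (2 * 3 + 1 - 0) (D9 1)) = ((1 : ℤ) : ℚ) :=
    be_arr (by decide +kernel)
  have b2 : be 3 (poly ℚ (2 * 3) (2 * 3 + 1 - 0) (D9 2)) = ((0 : ℤ) : ℚ) :=
    be_arr (by decide +kernel)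
  have b3 : be 3 (poly ℚ (2 * 3) (2 * 3 + 1 - 0) (D9 3)) = ((0 : ℤ) : ℚ) :=
    be_arr (by decide +kernel)
  refine ⟨fun i => poly ℚ (2 * 3) (2 * 3 + 1 - 0) (D9 i),
    fun i => mem_HHw.2 ⟨mem_HH_arr (hsec i), ?_⟩, ?_, ?_, ?_, ?_, ?_, ?_, ?_, ?_, ?_⟩
  · rw [wB, evw_poly, hw i, Int.cast_zero]
  · rw [a0]; norm_num
  · rw [b0]; norm_num
  · rw [a1]; norm_num
  · rw [b1]; norm_num
  · rw [a2]; norm_num
  · rw [b2]; norm_num
  · rw [a3]; norm_num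
  · rw [b3]; norm_num
  · have : Fact (Nat.Prime 19) := ⟨by norm_num⟩
    refine norel_arrP 19 (Z := Z9) ?_ ?_ ?_ ?_ ?_ <;> decide +kernel

end Pool.Agent.Lib.MP_ed661f_ag.S.Fam
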