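import Mathlib
import Pool.Agent.Lib.MP_ed661f_ag.S.Fam.Defs

/-!
# The restrictions of a section to the four lines
-/

set_option autoImplicit false

open MvPolynomial

namespace Pool.Agent.Lib.MP_ed661f_ag.S.Fam

variable {K : Type} [Field K]

/-- constants of the restrictions to `x = 0` and `x = 1` -/
noncomputable def cA (P : Par K) (c e : ℕ) : K :=
  (P.p 0 * P.p 1) ^ c / ((-P.q 0) ^ c * (-P.q 1) ^ (c - e))

noncomputable def cB (P : Par K) (c e : ℕ) : K :=
  (P.p 2 * P.p 3) ^ c / ((1 - P.q 0) ^ c * (1 - P.q 1) ^ (c - e))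

noncomputable def cC (P : Par K) (c e : ℕ) : K :=
  ((1 - P.p 0) * (1 - P.p 1)) ^ c / ((-P.q 2) ^ c * (-P.q 3) ^ (c - e))

noncomputable def cD (P : Par K) (c e : ℕ) : K :=
  ((1 - P.p 2) * (1 - P.p 3)) ^ c / ((1 - P.q 2) ^ c * (1 - P.q 3) ^ (c - e))

/-! ### auxiliary statements -/

private theorem line_dvd_aux {m : ℕ} {p : Fin 2 → K} {F : MvPolynomial (Fin 2) K} (h : OrdK m p F)
    (v : Fin 2 → K) (t : K) : (Polynomial.X - Polynomial.C t) ^ m ∣
      aeval (fun i => Polynomial.C (p i) + (Polynomial.X - Polynomial.C t) * Polynomial.C (v i))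
        F := by
  have h1 : aeval (fun i => Polynomial.C (p i) +
      (Polynomial.X - Polynomial.C t) * Polynomial.C (v i)) F =
      aeval (fun i => (Polynomial.X - Polynomial.C t) * Polynomial.C (v i)) (tayK p F) := by
    have h2 : (aeval (fun i => Polynomial.C (p i) +
        (Polynomial.X - Polynomial.C t) * Polynomial.C (v i)) :
        MvPolynomial (Fin 2) K →ₐ[K] Polynomial K) =
        (aeval (fun i => (Polynomial.X - Polynomial.C t) * Polynomial.C (v i)) :
          MvPolynomial (Fin 2) K →ₐ[K] Polynomial K).comp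
        (aeval (fun i => X i + C (p i)) : MvPolynomial (Fin 2) K →ₐ[K] _) := by
      refine MvPolynomial.algHom_ext fun i => ?_
      rw [AlgHom.comp_apply, aeval_X, aeval_X, map_add, aeval_X, algHom_C, add_comm]
      rfl
    exact congrArg (fun φ => φ F) h2
  rw [h1, aeval_def, eval₂_eq']
  refine Finset.dvd_sum fun e he => Dvd.dvd.mul_left ?_ _
  have h3 : m ≤ e.degree := by
    by_contra h4
    push Not at h4
    exact (mem_support_iff.1 he) (h e h4)
  refine (pow_dvd_pow _ h3).trans ?_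
  rw [Finsupp.degree_eq_sum, ← Finset.prod_pow_eq_pow_sum]
  refine Finset.prod_dvd_prod_of_dvd _ _ fun i _ => ?_
  rw [mul_pow]
  exact Dvd.intro _ rfl

private theorem aeval_two (F : MvPolynomial (Fin 2) K) (f g : Polynomial K) :
    aeval (![f, g] : Fin 2 → Polynomial K) F =
      ∑ e ∈ F.support, Polynomial.C (coeff e F) * (f ^ e 0 * g ^ e 1) := by
  rw [aeval_def, eval₂_eq']
  refine Finset.sum_congr rfl fun e _ => ?_
  rw [Fin.prod_univ_two]
  rfl

private theorem natDegree_aeval_le {F : MvPolynomial (Fin 2) K} {f g : Polynomial K} {d a b : ℕ}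
    (hf : f.natDegree ≤ a) (hg : g.natDegree ≤ b)
    (h : ∀ e ∈ F.support, e 0 * a + e 1 * b ≤ d) :
    (aeval (![f, g] : Fin 2 → Polynomial K) F).natDegree ≤ d := by
  rw [aeval_two]
  refine Polynomial.natDegree_sum_le_of_forall_le _ _ fun e he => ?_
  refine (Polynomial.natDegree_C_mul_le _ _).trans ?_
  exact (Polynomial.natDegree_mul_le_of_le (Polynomial.natDegree_pow_le_of_le (e 0) hf)
    (Polynomial.natDegree_pow_le_of_le (e 1) hg)).trans (h e he)

private theorem eval_aeval_two (F : MvPolynomial (Fin 2) K) (f g : Polynomial K) (a : K) :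
    (aeval (![f, g] : Fin 2 → Polynomial K) F).eval a = eval ![f.eval a, g.eval a] F := by
  rw [aeval_two, Polynomial.eval_finsetSum, eval_eq']
  refine Finset.sum_congr rfl fun e _ => ?_
  rw [Fin.prod_univ_two, Polynomial.eval_mul, Polynomial.eval_C, Polynomial.eval_mul,
    Polynomial.eval_pow, Polynomial.eval_pow]
  rfl

private theorem eq_of_dvd {f M : Polynomial K} (hM : M.Monic) (hd : M ∣ f) {n : ℕ}
    (hn : M.natDegree = n) (hf : f.natDegree ≤ n) : f = Polynomial.C (f.coeff n) * M := by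
  obtain ⟨r, rfl⟩ := hd
  by_cases hr : r = 0
  · subst hr
    simp
  · have h1 : r.natDegree = 0 := by
      rw [hM.natDegree_mul' hr] at hf
      omega
    obtain ⟨c, rfl⟩ : ∃ c, r = Polynomial.C c := ⟨_, Polynomial.eq_C_of_natDegree_eq_zero h1⟩
    rw [Polynomial.coeff_mul_C, ← hn, hM.coeff_natDegree, one_mul, mul_comm]

private theorem lin_eq {r : Polynomial K} (h : r.natDegree ≤ 1) :
    r = Polynomial.C (r.eval 0) * (1 - Polynomial.X) + Polynomial.C (r.eval 1) * Polynomial.X := by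
  obtain ⟨a, b, rfl⟩ := Polynomial.exists_eq_X_add_C_of_natDegree_le_one h
  simp only [Polynomial.eval_add, Polynomial.eval_mul, Polynomial.eval_C, Polynomial.eval_X,
    mul_zero, zero_add, mul_one, Polynomial.C_add]
  ring

private theorem two_dvd {f : Polynomial K} {a b : K} (hab : a ≠ b) {m n : ℕ}
    (h1 : (Polynomial.X - Polynomial.C a) ^ m ∣ f) (h2 : (Polynomial.X - Polynomial.C b) ^ n ∣ f) :
    (Polynomial.X - Polynomial.C a) ^ m * (Polynomial.X - Polynomial.C b) ^ n ∣ f := by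
  refine IsCoprime.mul_dvd (IsCoprime.pow ?_) h1 h2
  exact Polynomial.isCoprime_X_sub_C_of_isUnit_sub (sub_ne_zero_of_ne hab).isUnit

private theorem monic_two (a b : K) (m n : ℕ) :
    ((Polynomial.X - Polynomial.C a) ^ m * (Polynomial.X - Polynomial.C b) ^ n).Monic :=
  ((Polynomial.monic_X_sub_C _).pow _).mul ((Polynomial.monic_X_sub_C _).pow _)

private theorem natDegree_two (a b : K) (m n : ℕ) :
    ((Polynomial.X - Polynomial.C a) ^ m * (Polynomial.X - Polynomial.C b) ^ n).natDegree =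
      m + n := by
  rw [((Polynomial.monic_X_sub_C a).pow m).natDegree_mul ((Polynomial.monic_X_sub_C b).pow n),
    Polynomial.natDegree_pow, Polynomial.natDegree_pow, Polynomial.natDegree_X_sub_C,
    Polynomial.natDegree_X_sub_C, mul_one, mul_one]

private theorem side_eq {f : Polynomial K} {a b u v : K} (hab : a ≠ b) (ha0 : a ≠ 0) (ha1 : a ≠ 1)
    (hb0 : b ≠ 0) (hb1 : b ≠ 1) {m n : ℕ}
    (h1 : (Polynomial.X - Polynomial.C a) ^ m ∣ f) (h2 : (Polynomial.X - Polynomial.C b) ^ n ∣ f)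
    (hdeg : f.natDegree ≤ m + n + 1) (hu : f.eval 0 = u) (hv : f.eval 1 = v) :
    f = (Polynomial.X - Polynomial.C a) ^ m * (Polynomial.X - Polynomial.C b) ^ n *
      (Polynomial.C (u / ((-a) ^ m * (-b) ^ n)) * (1 - Polynomial.X) +
        Polynomial.C (v / ((1 - a) ^ m * (1 - b) ^ n)) * Polynomial.X) := by
  obtain ⟨r, hr⟩ := two_dvd hab h1 h2
  have hM0 : ((Polynomial.X - Polynomial.C a) ^ m * (Polynomial.X - Polynomial.C b) ^ n).eval 0 =
      (-a) ^ m * (-b) ^ n := by
    simp
  have hM1 : ((Polynomial.X - Polynomial.C a) ^ m * (Polynomial.X - Polynomial.C b) ^ n).eval 1 =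
      (1 - a) ^ m * (1 - b) ^ n := by
    simp
  have hn0 : (-a) ^ m * (-b) ^ n ≠ 0 :=
    mul_ne_zero (pow_ne_zero _ (neg_ne_zero.2 ha0)) (pow_ne_zero _ (neg_ne_zero.2 hb0))
  have hn1 : (1 - a) ^ m * (1 - b) ^ n ≠ 0 :=
    mul_ne_zero (pow_ne_zero _ (sub_ne_zero.2 ha1.symm)) (pow_ne_zero _ (sub_ne_zero.2 hb1.symm))
  have hrdeg : r.natDegree ≤ 1 := by
    by_cases h0 : r = 0
    · rw [h0]
      simp
    · rw [hr, (monic_two a b m n).natDegree_mul' h0, natDegree_two] at hdeg
      omega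
  have e0 : r.eval 0 = u / ((-a) ^ m * (-b) ^ n) := by
    rw [eq_div_iff hn0, ← hu, hr, Polynomial.eval_mul, hM0, mul_comm]
  have e1 : r.eval 1 = v / ((1 - a) ^ m * (1 - b) ^ n) := by
    rw [eq_div_iff hn1, ← hv, hr, Polynomial.eval_mul, hM1, mul_comm]
  rw [← e0, ← e1, ← lin_eq hrdeg]
  exact hr

/-- Proof. `aeval (fun i => C (p i) + X * C (v i)) F = aeval (fun i => X * C (v i)) (tayK p F)`, and every monomial of
`tayK p F` has degree `≥ m`, so the right side is divisible by `X ^ m`. -/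
theorem line_dvd {m : ℕ} {p : Fin 2 → K} {F : MvPolynomial (Fin 2) K} (h : OrdK m p F)
    (v : Fin 2 → K) : Polynomial.X ^ m ∣
      aeval (fun i => Polynomial.C (p i) + Polynomial.X * Polynomial.C (v i)) F := by
  have h1 := line_dvd_aux h v 0
  rwa [Polynomial.C_0, sub_zero] at h1

/-- Proof. `line_dvd` with `v = (1,0)` (resp. `(0,1)`) and the composition with `X - C t`. -/
theorem bot_dvd {m : ℕ} {t : K} {F : MvPolynomial (Fin 2) K} (h : OrdK m ![t, 0] F) :
    (Polynomial.X - Polynomial.C t) ^ m ∣ bot F := by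
  have h1 := line_dvd_aux h ![1, 0] t
  have h2 : (fun i => Polynomial.C ((![t, 0] : Fin 2 → K) i) +
      (Polynomial.X - Polynomial.C t) * Polynomial.C ((![1, 0] : Fin 2 → K) i)) =
      ![Polynomial.X, 0] := by
    ext i : 1
    fin_cases i <;> simp
  rw [h2] at h1
  exact h1

theorem top_dvd {m : ℕ} {t : K} {F : MvPolynomial (Fin 2) K} (h : OrdK m ![t, 1] F) :
    (Polynomial.X - Polynomial.C t) ^ m ∣ top F := by
  have h1 := line_dvd_aux h ![1, 0] t
  have h2 : (fun i => Polynomial.C ((![t, 1] : Fin 2 → K) i) +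
      (Polynomial.X - Polynomial.C t) * Polynomial.C ((![1, 0] : Fin 2 → K) i)) =
      ![Polynomial.X, 1] := by
    ext i : 1
    fin_cases i <;> simp
  rw [h2] at h1
  exact h1

theorem lef_dvd {m : ℕ} {t : K} {F : MvPolynomial (Fin 2) K} (h : OrdK m ![0, t] F) :
    (Polynomial.X - Polynomial.C t) ^ m ∣ lef F := by
  have h1 := line_dvd_aux h ![0, 1] t
  have h2 : (fun i => Polynomial.C ((![0, t] : Fin 2 → K) i) +
      (Polynomial.X - Polynomial.C t) * Polynomial.C ((![0, 1] : Fin 2 → K) i)) =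
      ![0, Polynomial.X] := by
    ext i : 1
    fin_cases i <;> simp
  rw [h2] at h1
  exact h1

theorem rig_dvd {m : ℕ} {t : K} {F : MvPolynomial (Fin 2) K} (h : OrdK m ![1, t] F) :
    (Polynomial.X - Polynomial.C t) ^ m ∣ rig F := by
  have h1 := line_dvd_aux h ![0, 1] t
  have h2 : (fun i => Polynomial.C ((![1, t] : Fin 2 → K) i) +
      (Polynomial.X - Polynomial.C t) * Polynomial.C ((![0, 1] : Fin 2 → K) i)) =
      ![1, Polynomial.X] := by
    ext i : 1
    fin_cases i <;> simp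
  rw [h2] at h1
  exact h1

theorem natDegree_bot_le (F : MvPolynomial (Fin 2) K) : (bot F).natDegree ≤ F.degreeOf 0 := by
  refine natDegree_aeval_le (a := 1) (b := 0) Polynomial.natDegree_X_le (by simp) fun e he => ?_
  have := monomial_le_degreeOf 0 he
  omega

theorem natDegree_top_le (F : MvPolynomial (Fin 2) K) : (top F).natDegree ≤ F.degreeOf 0 := by
  refine natDegree_aeval_le (a := 1) (b := 0) Polynomial.natDegree_X_le (by simp) fun e he => ?_
  have := monomial_le_degreeOf 0 he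
  omega

theorem natDegree_lef_le (F : MvPolynomial (Fin 2) K) : (lef F).natDegree ≤ F.degreeOf 1 := by
  refine natDegree_aeval_le (a := 0) (b := 1) (by simp) Polynomial.natDegree_X_le fun e he => ?_
  have := monomial_le_degreeOf 1 he
  omega

theorem natDegree_rig_le (F : MvPolynomial (Fin 2) K) : (rig F).natDegree ≤ F.degreeOf 1 := by
  refine natDegree_aeval_le (a := 0) (b := 1) (by simp) Polynomial.natDegree_X_le fun e he => ?_
  have := monomial_le_degreeOf 1 he
  omega

/-- the four corners -/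
theorem corner00 (F : MvPolynomial (Fin 2) K) : (lef F).eval 0 = (bot F).eval 0 := by
  unfold lef bot
  rw [eval_aeval_two, eval_aeval_two]
  simp

theorem corner01 (F : MvPolynomial (Fin 2) K) : (lef F).eval 1 = (top F).eval 0 := by
  unfold lef top
  rw [eval_aeval_two, eval_aeval_two]
  simp

theorem corner10 (F : MvPolynomial (Fin 2) K) : (rig F).eval 0 = (bot F).eval 1 := by
  unfold rig bot
  rw [eval_aeval_two, eval_aeval_two]
  simp

theorem corner11 (F : MvPolynomial (Fin 2) K) : (rig F).eval 1 = (top F).eval 1 := by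
  unfold rig top
  rw [eval_aeval_two, eval_aeval_two]
  simp

variable {P : Par K} {c e : ℕ}

/-- Proof. `bot F` has degree `≤ 2c` and is divisible by the coprime polynomials `(X - p0)^c`, `(X - p1)^c`, so it is
a constant times the (monic) product, and the constant is the coefficient of `X^{2c}`. -/
theorem bot_eq (hP : P.Good) {F : MvPolynomial (Fin 2) K} (hF : F ∈ HH P c e) :
    bot F = Polynomial.C (al c F) * ((Polynomial.X - Polynomial.C (P.p 0)) *
      (Polynomial.X - Polynomial.C (P.p 1))) ^ c := by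
  obtain ⟨⟨h1, h2⟩, h3⟩ := mem_SecK.1 hF
  have h4 : (Polynomial.X - Polynomial.C (P.p 0)) ^ c ∣ bot F := bot_dvd (h3 0).1
  have h5 : (Polynomial.X - Polynomial.C (P.p 1)) ^ c ∣ bot F := bot_dvd (h3 0).2
  rw [mul_pow]
  refine eq_of_dvd (monic_two _ _ c c) (two_dvd hP.p01 h4 h5) ?_ ((natDegree_bot_le F).trans h1)
  rw [natDegree_two]
  ring

theorem top_eq (hP : P.Good) {F : MvPolynomial (Fin 2) K} (hF : F ∈ HH P c e) :
    top F = Polynomial.C (be c F) * ((Polynomial.X - Polynomial.C (P.p 2)) *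
      (Polynomial.X - Polynomial.C (P.p 3))) ^ c := by
  obtain ⟨⟨h1, h2⟩, h3⟩ := mem_SecK.1 hF
  have h4 : (Polynomial.X - Polynomial.C (P.p 2)) ^ c ∣ top F := top_dvd (h3 1).1
  have h5 : (Polynomial.X - Polynomial.C (P.p 3)) ^ c ∣ top F := top_dvd (h3 1).2
  rw [mul_pow]
  refine eq_of_dvd (monic_two _ _ c c) (two_dvd hP.p23 h4 h5) ?_ ((natDegree_top_le F).trans h1)
  rw [natDegree_two]
  ring

/-- Proof. `lef F` has degree `≤ 2c+1-e` and is divisible by `(X - q0)^c (X - q1)^(c-e)`; the quotient has degree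
`≤ 1` (`e ≤ 1`, `e ≤ c`), so it is determined by its values at `0` and `1`, which come from the corners and `bot_eq`,
`top_eq`. -/
theorem lef_eq (hP : P.Good) (he : e ≤ c) {F : MvPolynomial (Fin 2) K} (hF : F ∈ HH P c e) :
    lef F = (Polynomial.X - Polynomial.C (P.q 0)) ^ c * (Polynomial.X - Polynomial.C (P.q 1)) ^ (c - e) *
      (Polynomial.C (al c F * cA P c e) * (1 - Polynomial.X) +
        Polynomial.C (be c F * cB P c e) * Polynomial.X) := by
  obtain ⟨⟨h1, h2⟩, h3⟩ := mem_SecK.1 hF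
  have h4 : (Polynomial.X - Polynomial.C (P.q 0)) ^ c ∣ lef F := lef_dvd (h3 2).1
  have h5 : (Polynomial.X - Polynomial.C (P.q 1)) ^ (c - e) ∣ lef F := lef_dvd (h3 3).1
  have h6 : (lef F).natDegree ≤ c + (c - e) + 1 := (natDegree_lef_le F).trans (h2.trans (by omega))
  have h7 : (lef F).eval 0 = al c F * (P.p 0 * P.p 1) ^ c := by
    rw [corner00, bot_eq hP hF]
    simp
  have h8 : (lef F).eval 1 = be c F * (P.p 2 * P.p 3) ^ c := by
    rw [corner01, top_eq hP hF]
    simp
  have h9 := side_eq hP.q01 (hP.q0 0) (hP.q1 0) (hP.q0 1) (hP.q1 1) h4 h5 h6 h7 h8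
  rw [mul_div_assoc, mul_div_assoc] at h9
  exact h9

theorem rig_eq (hP : P.Good) (he : e ≤ c) {F : MvPolynomial (Fin 2) K} (hF : F ∈ HH P c e) :
    rig F = (Polynomial.X - Polynomial.C (P.q 2)) ^ c * (Polynomial.X - Polynomial.C (P.q 3)) ^ (c - e) *
      (Polynomial.C (al c F * cC P c e) * (1 - Polynomial.X) +
        Polynomial.C (be c F * cD P c e) * Polynomial.X) := by
  obtain ⟨⟨h1, h2⟩, h3⟩ := mem_SecK.1 hF
  have h4 : (Polynomial.X - Polynomial.C (P.q 2)) ^ c ∣ rig F := rig_dvd (h3 2).2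
  have h5 : (Polynomial.X - Polynomial.C (P.q 3)) ^ (c - e) ∣ rig F := rig_dvd (h3 3).2
  have h6 : (rig F).natDegree ≤ c + (c - e) + 1 := (natDegree_rig_le F).trans (h2.trans (by omega))
  have h7 : (rig F).eval 0 = al c F * ((1 - P.p 0) * (1 - P.p 1)) ^ c := by
    rw [corner10, bot_eq hP hF]
    simp
  have h8 : (rig F).eval 1 = be c F * ((1 - P.p 2) * (1 - P.p 3)) ^ c := by
    rw [corner11, top_eq hP hF]
    simp
  have h9 := side_eq hP.q23 (hP.q0 2) (hP.q1 2) (hP.q0 3) (hP.q1 3) h4 h5 h6 h7 h8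
  rw [mul_div_assoc, mul_div_assoc] at h9
  exact h9

end Pool.Agent.Lib.MP_ed661f_ag.S.Fam
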