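import Mathlib
import Pool.Agent.Lib.MP_ed661f_ag.S.Fam.Restrict

/-!
# Division by `phi`
-/

set_option autoImplicit false

open MvPolynomial

namespace Pool.Agent.Lib.MP_ed661f_ag.S.Fam

variable {K : Type} [Field K]

private theorem peel_ordK_iff {m : ℕ} {p : Fin 2 → K} {F : MvPolynomial (Fin 2) K} :
    OrdK m p F ↔ (m : ℕ∞) ≤ (tayK p F : MvPowerSeries (Fin 2) K).order := by
  constructor
  · intro h
    refine MvPowerSeries.nat_le_order fun e he => ?_
    rw [MvPolynomial.coeff_coe]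
    exact h e he
  · intro h e he
    have := MvPowerSeries.coeff_of_lt_order (f := (tayK p F : MvPowerSeries (Fin 2) K)) (d := e)
      (lt_of_lt_of_le (by exact_mod_cast he) h)
    rwa [MvPolynomial.coeff_coe] at this

private theorem peel_order_mul (p : Fin 2 → K) (F G : MvPolynomial (Fin 2) K) :
    (tayK p (F * G) : MvPowerSeries (Fin 2) K).order =
      (tayK p F : MvPowerSeries (Fin 2) K).order + (tayK p G : MvPowerSeries (Fin 2) K).order := by
  rw [tayK_mul, MvPolynomial.coe_mul, MvPowerSeries.order_mul]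

private theorem peel_mono {m k : ℕ} (hk : k ≤ m) {p : Fin 2 → K} {F : MvPolynomial (Fin 2) K}
    (h : OrdK m p F) : OrdK k p F := fun e he => h e (lt_of_lt_of_le he hk)

private theorem peel_ordK_zero (p : Fin 2 → K) (F : MvPolynomial (Fin 2) K) : OrdK 0 p F :=
  fun _ he => absurd he (Nat.not_lt_zero _)

/-- Proof. `tayK p (F * G) = tayK p F * tayK p G` and the order of `MvPowerSeries` over a field is additive
(`MvPowerSeries.order_mul`, as in `E.mlt_mul` of `E/Mlt.lean`). -/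
theorem OrdK.of_mul {m k : ℕ} {p : Fin 2 → K} {F G : MvPolynomial (Fin 2) K} (h : OrdK m p (F * G))
    (hF : ¬ OrdK (k + 1) p F) : OrdK (m - k) p G := by
  rw [peel_ordK_iff] at h hF ⊢
  rw [peel_order_mul] at h
  have hk : (tayK p F : MvPowerSeries (Fin 2) K).order ≤ (k : ℕ∞) := by
    have h1 := lt_of_not_ge hF
    rw [Nat.cast_add, Nat.cast_one] at h1
    exact ENat.lt_add_one_iff (ENat.natCast_ne_top k) |>.mp h1
  rw [ENat.natCast_sub, tsub_le_iff_left]
  exact h.trans (add_le_add_left hk _)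

theorem OrdK.mul {m k : ℕ} {p : Fin 2 → K} {F G : MvPolynomial (Fin 2) K} (hF : OrdK m p F)
    (hG : OrdK k p G) : OrdK (m + k) p (F * G) := by
  rw [peel_ordK_iff] at hF hG ⊢
  rw [peel_order_mul, Nat.cast_add]
  exact add_le_add hF hG

private theorem peel_coeff_zero (p : Fin 2 → K) (F : MvPolynomial (Fin 2) K) :
    coeff 0 (tayK p F) = eval p F := by
  have h : (constantCoeff.comp ((aeval (fun i => X i + C (p i)) :
      MvPolynomial (Fin 2) K →ₐ[K] MvPolynomial (Fin 2) K)).toRingHom) = eval p := by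
    ext i <;> simp
  exact congrArg (fun φ => φ F) h

private theorem peel_ordK_one {p : Fin 2 → K} {F : MvPolynomial (Fin 2) K} :
    OrdK 1 p F ↔ eval p F = 0 := by
  constructor
  · intro h
    rw [← peel_coeff_zero]
    exact h 0 (by simp)
  · intro h e he
    have : e = 0 := by
      rw [← Finsupp.degree_eq_zero_iff]
      omega
    rw [this, peel_coeff_zero, h]

private theorem peel_lin_coeff (i : Fin 2) (b : K) :
    coeff (Finsupp.single i 1) (X i + C b : MvPolynomial (Fin 2) K) = 1 := by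
  have h0 : (0 : Fin 2 →₀ ℕ) ≠ Finsupp.single i 1 := by
    intro h
    have := DFunLike.congr_fun h i
    simp at this
  rw [coeff_add, coeff_C, if_neg h0, add_zero]
  simp

private theorem peel_lin_not {p : Fin 2 → K} (i : Fin 2) (a : K) :
    ¬ OrdK 2 p (X i - C a : MvPolynomial (Fin 2) K) := by
  intro h
  have h1 := h (Finsupp.single i 1) (by rw [Finsupp.degree_single]; norm_num)
  have h2 : tayK p (X i - C a : MvPolynomial (Fin 2) K) = X i + C (p i - a) := by
    simp only [tayK, map_sub, aeval_X, aeval_C, algebraMap_eq]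
    ring
  rw [h2, peel_lin_coeff] at h1
  exact one_ne_zero h1

private theorem peel_lin_ne (i : Fin 2) (a : K) : (X i - C a : MvPolynomial (Fin 2) K) ≠ 0 := by
  intro h
  have h1 := peel_lin_coeff i (-a)
  rw [map_neg, ← sub_eq_add_neg, h, coeff_zero] at h1
  exact zero_ne_one h1

private theorem peel_point {p : Fin 2 → K} {F G : MvPolynomial (Fin 2) K} (i : Fin 2) (a : K)
    (hF : F = (X i - C a) * G) (hp : p i = a) (hG : eval p G ≠ 0) :
    OrdK 1 p F ∧ ¬ OrdK 2 p F := by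
  refine ⟨?_, fun h => hG ?_⟩
  · rw [peel_ordK_one, hF, map_mul]
    simp [hp]
  · rw [hF] at h
    have := OrdK.of_mul (k := 1) h (peel_lin_not i a)
    exact peel_ordK_one.mp this

private theorem peel_phi_eq : (phi : MvPolynomial (Fin 2) K) =
    (X 0 - C 0) * (X 0 - C 1) * ((X 1 - C 0) * (X 1 - C 1)) := by
  simp [phi]

/-- Proof. Exactly one of the four factors of `phi` vanishes at a point of the four lines which is not a corner. -/
theorem ordK_phi {P : Par K} (hP : P.Good) : (∀ j : Fin 5, j ≠ 4 →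
    OrdK 1 (P.x j) (phi : MvPolynomial (Fin 2) K) ∧ ¬ OrdK 2 (P.x j) (phi : MvPolynomial (Fin 2) K) ∧
    OrdK 1 (P.x' j) (phi : MvPolynomial (Fin 2) K) ∧ ¬ OrdK 2 (P.x' j) (phi : MvPolynomial (Fin 2) K)) ∧
    ¬ OrdK 1 P.z (phi : MvPolynomial (Fin 2) K) ∧ ¬ OrdK 1 P.z' (phi : MvPolynomial (Fin 2) K) := by
  have hy0 : ∀ p : Fin 2 → K, p 1 = 0 → p 0 ≠ 0 → p 0 ≠ 1 →
      OrdK 1 p (phi : MvPolynomial (Fin 2) K) ∧ ¬ OrdK 2 p (phi : MvPolynomial (Fin 2) K) := by
    intro p h1 h2 h3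
    refine peel_point (G := (X 0 - C 0) * (X 0 - C 1) * (X 1 - C 1)) 1 0 ?_ h1 ?_
    · rw [peel_phi_eq]; ring
    · simp [h1, h2, sub_eq_zero, h3]
  have hy1 : ∀ p : Fin 2 → K, p 1 = 1 → p 0 ≠ 0 → p 0 ≠ 1 →
      OrdK 1 p (phi : MvPolynomial (Fin 2) K) ∧ ¬ OrdK 2 p (phi : MvPolynomial (Fin 2) K) := by
    intro p h1 h2 h3
    refine peel_point (G := (X 0 - C 0) * (X 0 - C 1) * (X 1 - C 0)) 1 1 ?_ h1 ?_
    · rw [peel_phi_eq]; ring
    · simp [h1, h2, sub_eq_zero, h3]
  have hx0 : ∀ p : Fin 2 → K, p 0 = 0 → p 1 ≠ 0 → p 1 ≠ 1 →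
      OrdK 1 p (phi : MvPolynomial (Fin 2) K) ∧ ¬ OrdK 2 p (phi : MvPolynomial (Fin 2) K) := by
    intro p h1 h2 h3
    refine peel_point (G := (X 0 - C 1) * ((X 1 - C 0) * (X 1 - C 1))) 0 0 ?_ h1 ?_
    · rw [peel_phi_eq]; ring
    · simp [h1, h2, sub_eq_zero, h3]
  have hx1 : ∀ p : Fin 2 → K, p 0 = 1 → p 1 ≠ 0 → p 1 ≠ 1 →
      OrdK 1 p (phi : MvPolynomial (Fin 2) K) ∧ ¬ OrdK 2 p (phi : MvPolynomial (Fin 2) K) := by
    intro p h1 h2 h3
    refine peel_point (G := (X 0 - C 0) * ((X 1 - C 0) * (X 1 - C 1))) 0 1 ?_ h1 ?_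
    · rw [peel_phi_eq]; ring
    · simp [h1, h2, sub_eq_zero, h3]
  have hz : ∀ p : Fin 2 → K, (∀ i, p i ≠ 0) → (∀ i, p i ≠ 1) →
      ¬ OrdK 1 p (phi : MvPolynomial (Fin 2) K) := by
    intro p h0 h1 h
    rw [peel_ordK_one, peel_phi_eq] at h
    simp [h0, sub_eq_zero, h1] at h
  refine ⟨?_, hz _ hP.z0 hP.z1, hz _ hP.z0' hP.z1'⟩
  intro j hj
  fin_cases j
  · exact ⟨(hy0 _ rfl (hP.p0 0) (hP.p1 0)).1, (hy0 _ rfl (hP.p0 0) (hP.p1 0)).2,
      (hy0 _ rfl (hP.p0 1) (hP.p1 1)).1, (hy0 _ rfl (hP.p0 1) (hP.p1 1)).2⟩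
  · exact ⟨(hy1 _ rfl (hP.p0 2) (hP.p1 2)).1, (hy1 _ rfl (hP.p0 2) (hP.p1 2)).2,
      (hy1 _ rfl (hP.p0 3) (hP.p1 3)).1, (hy1 _ rfl (hP.p0 3) (hP.p1 3)).2⟩
  · exact ⟨(hx0 _ rfl (hP.q0 0) (hP.q1 0)).1, (hx0 _ rfl (hP.q0 0) (hP.q1 0)).2,
      (hx1 _ rfl (hP.q0 2) (hP.q1 2)).1, (hx1 _ rfl (hP.q0 2) (hP.q1 2)).2⟩
  · exact ⟨(hx0 _ rfl (hP.q0 1) (hP.q1 1)).1, (hx0 _ rfl (hP.q0 1) (hP.q1 1)).2,
      (hx1 _ rfl (hP.q0 3) (hP.q1 3)).1, (hx1 _ rfl (hP.q0 3) (hP.q1 3)).2⟩
  · exact absurd rfl hj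

/-- a polynomial that vanishes after the substitution `X i ↦ a` is divisible by `X i - a` -/
private theorem peel_dvd {F : MvPolynomial (Fin 2) K} (i : Fin 2) (a : K)
    (g : Fin 2 → MvPolynomial (Fin 2) K) (hi : g i = C a) (hj : ∀ j, j ≠ i → g j = X j)
    (h : aeval g F = 0) : (X i - C a : MvPolynomial (Fin 2) K) ∣ F := by
  rw [← Ideal.mem_span_singleton, ← Ideal.Quotient.eq_zero_iff_mem]
  have hh : (Ideal.Quotient.mk (Ideal.span {(X i - C a : MvPolynomial (Fin 2) K)})).comp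
      ((aeval g : MvPolynomial (Fin 2) K →ₐ[K] MvPolynomial (Fin 2) K)).toRingHom =
      Ideal.Quotient.mk (Ideal.span {(X i - C a : MvPolynomial (Fin 2) K)}) := by
    refine MvPolynomial.ringHom_ext (fun r => ?_) (fun j => ?_)
    · simp
    · by_cases hji : j = i
      · subst hji
        simp only [RingHom.comp_apply, AlgHom.toRingHom_eq_coe, RingHom.coe_coe, aeval_X, hi]
        rw [eq_comm, Ideal.Quotient.eq, Ideal.mem_span_singleton]
      · simp only [RingHom.comp_apply, AlgHom.toRingHom_eq_coe, RingHom.coe_coe, aeval_X,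
          hj j hji]
  have h2 := congrArg (fun φ => φ F) hh
  simp only [RingHom.comp_apply, AlgHom.toRingHom_eq_coe, RingHom.coe_coe, h, map_zero] at h2
  exact h2.symm

private theorem peel_dvd_of (i j : Fin 2) (hij : j ≠ i) (a : K) {F : MvPolynomial (Fin 2) K}
    (v : Fin 2 → Polynomial K) (hi : v i = Polynomial.C a) (hj : v j = Polynomial.X)
    (h : aeval v F = 0) : (X i - C a : MvPolynomial (Fin 2) K) ∣ F := by
  refine peel_dvd i a (fun k => Polynomial.aeval (X j : MvPolynomial (Fin 2) K) (v k)) ?_ ?_ ?_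
  · simp [hi, algebraMap_eq]
  · intro k hk
    have : k = j := by
      fin_cases i <;> fin_cases j <;> fin_cases k <;> simp_all
    subst this
    simp [hj]
  · have hc : (Polynomial.aeval (X j : MvPolynomial (Fin 2) K)).comp
        (aeval v : MvPolynomial (Fin 2) K →ₐ[K] Polynomial K) =
        aeval (fun k => Polynomial.aeval (X j : MvPolynomial (Fin 2) K) (v k)) := by
      ext k
      simp
    rw [← hc, AlgHom.comp_apply, h, map_zero]

/-- Proof. `bot F = 0` gives `X 1 ∣ F`, `top F = 0` gives `(X 1 - 1) ∣ F`, and so on (for instance by the change of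
variables `X 1 ↦ X 1 + 1`, or `F - (F with X 1 replaced by 1)` is divisible by `X 1 - 1`); the four factors are
pairwise coprime primes. -/
theorem phi_dvd {F : MvPolynomial (Fin 2) K} (h1 : bot F = 0) (h2 : top F = 0) (h3 : lef F = 0)
    (h4 : rig F = 0) : (phi : MvPolynomial (Fin 2) K) ∣ F := by
  have hX : (Polynomial.X : Polynomial K) ≠ 0 := Polynomial.X_ne_zero
  have hX1 : (Polynomial.X - 1 : Polynomial K) ≠ 0 := by
    have := Polynomial.X_sub_C_ne_zero (1 : K)
    simpa using this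
  obtain ⟨F1, rfl⟩ := peel_dvd_of 1 0 (by decide) (0 : K) ![Polynomial.X, 0] (by simp) (by simp) h1
  have h2' : top F1 = 0 := by
    rw [map_mul] at h2
    simpa [top] using h2
  obtain ⟨F2, rfl⟩ := peel_dvd_of 1 0 (by decide) (1 : K) ![Polynomial.X, 1] (by simp) (by simp) h2'
  have h3' : lef F2 = 0 := by
    rw [map_mul, map_mul] at h3
    have e1 : lef (X 1 - C 0 : MvPolynomial (Fin 2) K) = Polynomial.X := by simp [lef]
    have e2 : lef (X 1 - C 1 : MvPolynomial (Fin 2) K) = Polynomial.X - 1 := by simp [lef]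
    rw [e1, e2] at h3
    rcases mul_eq_zero.mp h3 with h | h
    · exact absurd h hX
    · rcases mul_eq_zero.mp h with h | h
      · exact absurd h hX1
      · exact h
  obtain ⟨F3, rfl⟩ := peel_dvd_of 0 1 (by decide) (0 : K) ![0, Polynomial.X] (by simp) (by simp) h3'
  have h4' : rig F3 = 0 := by
    rw [map_mul, map_mul, map_mul] at h4
    have e1 : rig (X 1 - C 0 : MvPolynomial (Fin 2) K) = Polynomial.X := by simp [rig]
    have e2 : rig (X 1 - C 1 : MvPolynomial (Fin 2) K) = Polynomial.X - 1 := by simp [rig]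
    have e3 : rig (X 0 - C 0 : MvPolynomial (Fin 2) K) = 1 := by simp [rig]
    rw [e1, e2, e3, one_mul] at h4
    rcases mul_eq_zero.mp h4 with h | h
    · exact absurd h hX
    · rcases mul_eq_zero.mp h with h | h
      · exact absurd h hX1
      · exact h
  obtain ⟨F4, rfl⟩ := peel_dvd_of 0 1 (by decide) (1 : K) ![1, Polynomial.X] (by simp) (by simp) h4'
  refine ⟨F4, ?_⟩
  rw [peel_phi_eq]
  ring

theorem bot_phi : bot (phi : MvPolynomial (Fin 2) K) = 0 := by
  simp [bot, phi]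

theorem top_phi : top (phi : MvPolynomial (Fin 2) K) = 0 := by
  simp [top, phi]

theorem lef_phi : lef (phi : MvPolynomial (Fin 2) K) = 0 := by
  simp [lef, phi]

theorem rig_phi : rig (phi : MvPolynomial (Fin 2) K) = 0 := by
  simp [rig, phi]

theorem phi_ne_zero : (phi : MvPolynomial (Fin 2) K) ≠ 0 := by
  rw [peel_phi_eq]
  exact mul_ne_zero (mul_ne_zero (peel_lin_ne _ _) (peel_lin_ne _ _))
    (mul_ne_zero (peel_lin_ne _ _) (peel_lin_ne _ _))

private theorem peel_degreeOf_self (i : Fin 2) (a : K) :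
    (X i - C a : MvPolynomial (Fin 2) K).degreeOf i = 1 := by
  refine le_antisymm ?_ ?_
  · refine (degreeOf_sub_le _ _ _).trans ?_
    rw [degreeOf_X, degreeOf_C]
    simp
  · have h1 : Finsupp.single i 1 ∈ (X i - C a : MvPolynomial (Fin 2) K).support := by
      rw [mem_support_iff]
      have h2 := peel_lin_coeff i (-a)
      rw [map_neg, ← sub_eq_add_neg] at h2
      rw [h2]
      exact one_ne_zero
    have h3 := monomial_le_degreeOf i h1
    simpa using h3

private theorem peel_degreeOf_other {i j : Fin 2} (hij : i ≠ j) (a : K) :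
    (X i - C a : MvPolynomial (Fin 2) K).degreeOf j = 0 := by
  have h := degreeOf_sub_le j (X i : MvPolynomial (Fin 2) K) (C a)
  rw [degreeOf_X, degreeOf_C, if_neg (fun h => hij h.symm)] at h
  simpa using h

private theorem peel_degreeOf_phi (i : Fin 2) : (phi : MvPolynomial (Fin 2) K).degreeOf i = 2 := by
  rw [peel_phi_eq, degreeOf_mul_eq
    (mul_ne_zero (peel_lin_ne _ _) (peel_lin_ne _ _))
    (mul_ne_zero (peel_lin_ne _ _) (peel_lin_ne _ _)),
    degreeOf_mul_eq (peel_lin_ne _ _) (peel_lin_ne _ _),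
    degreeOf_mul_eq (peel_lin_ne _ _) (peel_lin_ne _ _)]
  fin_cases i
  · simp only [Fin.zero_eta, peel_degreeOf_self,
      peel_degreeOf_other (show (1 : Fin 2) ≠ 0 by decide)]
  · simp only [Fin.mk_one, peel_degreeOf_self,
      peel_degreeOf_other (show (0 : Fin 2) ≠ 1 by decide)]

/-- Proof. `degreeOf_mul_eq` (domain) and `degreeOf i phi = 2`. -/
theorem degreeOf_phi_mul {G : MvPolynomial (Fin 2) K} (hG : G ≠ 0) (i : Fin 2) :
    (phi * G).degreeOf i = G.degreeOf i + 2 := by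
  rw [degreeOf_mul_eq phi_ne_zero hG, peel_degreeOf_phi, add_comm]

variable {P : Par K} {c e : ℕ}

theorem phi_mul_mem (hP : P.Good) (he : e ≤ 1) {G : MvPolynomial (Fin 2) K} (hG : G ∈ HH P c e) :
    phi * G ∈ HH P (c + 1) e := by
  by_cases hG0 : G = 0
  · rw [hG0, mul_zero]
    exact Submodule.zero_mem _
  rw [HH, mem_SecK] at hG ⊢
  obtain ⟨⟨hd0, hd1⟩, ho⟩ := hG
  obtain ⟨hphi, -, -⟩ := ordK_phi hP
  refine ⟨⟨?_, ?_⟩, fun j => ?_⟩
  · rw [degreeOf_phi_mul hG0]
    omega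
  · rw [degreeOf_phi_mul hG0]
    omega
  · by_cases hj : j = 4
    · subst hj
      have e1 : cc (c + 1) e 4 = 0 + 1 := rfl
      have e2 : cc c e 4 = 1 := rfl
      rw [e1]
      have h4 := ho 4
      rw [e2] at h4
      exact ⟨(peel_ordK_zero _ _).mul h4.1, (peel_ordK_zero _ _).mul h4.2⟩
    · obtain ⟨a1, -, a3, -⟩ := hphi j hj
      have e1 : cc (c + 1) e j ≤ 1 + cc c e j := by
        fin_cases j
        · show c + 1 ≤ 1 + c
          omega
        · show c + 1 ≤ 1 + c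
          omega
        · show c + 1 ≤ 1 + c
          omega
        · show c + 1 - e ≤ 1 + (c - e)
          omega
        · exact absurd rfl hj
      exact ⟨peel_mono e1 (a1.mul (ho j).1), peel_mono e1 (a3.mul (ho j).2)⟩

/-- Proof. `bot_eq`, `top_eq`, `lef_eq`, `rig_eq` give `bot F = top F = lef F = rig F = 0`; then `phi_dvd`,
`degreeOf_phi_mul` and `OrdK.of_mul`. -/
theorem exists_phi (hP : P.Good) (he : e ≤ 1) {F : MvPolynomial (Fin 2) K} (hF : F ∈ HH P (c + 1) e)
    (h1 : al (c + 1) F = 0) (h2 : be (c + 1) F = 0) : ∃ G ∈ HH P c e, F = phi * G := by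
  have hb : bot F = 0 := by rw [bot_eq hP hF, h1, map_zero, zero_mul]
  have ht : top F = 0 := by rw [top_eq hP hF, h2, map_zero, zero_mul]
  have hl : lef F = 0 := by
    rw [lef_eq hP (by omega) hF, h1, h2]
    simp
  have hr : rig F = 0 := by
    rw [rig_eq hP (by omega) hF, h1, h2]
    simp
  obtain ⟨G, rfl⟩ := phi_dvd hb ht hl hr
  refine ⟨G, ?_, rfl⟩
  by_cases hG0 : G = 0
  · rw [hG0]
    exact Submodule.zero_mem _
  rw [HH, mem_SecK] at hF ⊢
  obtain ⟨⟨hd0, hd1⟩, ho⟩ := hF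
  obtain ⟨hphi, hz, hz'⟩ := ordK_phi hP
  rw [degreeOf_phi_mul hG0] at hd0 hd1
  refine ⟨⟨by omega, by omega⟩, fun j => ?_⟩
  by_cases hj : j = 4
  · subst hj
    have h4 := ho 4
    have e1 : cc (c + 1) e 4 = 1 := rfl
    have e2 : cc c e 4 = 1 - 0 := rfl
    rw [e1] at h4
    rw [e2]
    exact ⟨OrdK.of_mul (k := 0) h4.1 hz, OrdK.of_mul (k := 0) h4.2 hz'⟩
  · obtain ⟨-, a2, -, a4⟩ := hphi j hj
    have e1 : cc c e j ≤ cc (c + 1) e j - 1 := by
      fin_cases j
      · show c ≤ c + 1 - 1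
        omega
      · show c ≤ c + 1 - 1
        omega
      · show c ≤ c + 1 - 1
        omega
      · show c - e ≤ c + 1 - e - 1
        omega
      · exact absurd rfl hj
    exact ⟨peel_mono e1 (OrdK.of_mul (k := 1) (ho j).1 a2),
      peel_mono e1 (OrdK.of_mul (k := 1) (ho j).2 a4)⟩

end Pool.Agent.Lib.MP_ed661f_ag.S.Fam
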