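import Mathlib
import Pool.Agent.Lib.MP_ed661f_ag.S.Fam.Peel

/-!
# The dimension of the space of sections at the special configuration
-/

set_option autoImplicit false

open MvPolynomial

namespace Pool.Agent.Lib.MP_ed661f_ag.S.Fam

variable {K : Type} [Field K]

/-- Polynomials of bidegree at most `(a, b)`. -/
noncomputable def dimBox (K : Type) [Field K] (a b : ℕ) : Submodule K (MvPolynomial (Fin 2) K) :=
  restrictSupport K {e : Fin 2 →₀ ℕ | e 0 ≤ a ∧ e 1 ≤ b}

theorem mem_dimBox {a b : ℕ} {F : MvPolynomial (Fin 2) K} :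
    F ∈ dimBox K a b ↔ F.degreeOf 0 ≤ a ∧ F.degreeOf 1 ≤ b := by
  unfold dimBox
  rw [mem_restrictSupport_iff, degreeOf_le_iff, degreeOf_le_iff]
  constructor
  · intro h
    exact ⟨fun m hm => (h hm).1, fun m hm => (h hm).2⟩
  · intro h m hm
    exact ⟨h.1 m hm, h.2 m hm⟩

theorem dimBox_set_finite (a b : ℕ) : Set.Finite {e : Fin 2 →₀ ℕ | e 0 ≤ a ∧ e 1 ≤ b} := by
  refine (Set.finite_Icc (0 : Fin 2 →₀ ℕ) (Finsupp.single 0 a + Finsupp.single 1 b)).subset ?_
  intro e he
  refine ⟨by positivity, fun i => ?_⟩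
  fin_cases i
  · simpa using he.1
  · simpa using he.2

instance dimBox_finite (a b : ℕ) : Module.Finite K (dimBox K a b) := by
  have : Finite {e : Fin 2 →₀ ℕ | e 0 ≤ a ∧ e 1 ≤ b} := dimBox_set_finite a b
  exact Module.Finite.of_basis (basisRestrictSupport K {e : Fin 2 →₀ ℕ | e 0 ≤ a ∧ e 1 ≤ b})

/-- the exponent `(i, j)` -/
noncomputable def dimExp (i j : ℕ) : Fin 2 →₀ ℕ := Finsupp.single 0 i + Finsupp.single 1 j

theorem dimExp_zero (i j : ℕ) : dimExp i j 0 = i := by simp [dimExp]

theorem dimExp_one (i j : ℕ) : dimExp i j 1 = j := by simp [dimExp]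

theorem dimExp_eq (e : Fin 2 →₀ ℕ) : dimExp (e 0) (e 1) = e := by
  ext i
  fin_cases i
  · exact dimExp_zero _ _
  · exact dimExp_one _ _

theorem degree_two (e : Fin 2 →₀ ℕ) : e.degree = e 0 + e 1 := by
  rw [Finsupp.degree_eq_sum, Fin.sum_univ_two]

theorem le_finrank_dimBox (a b : ℕ) : (a + 1) * (b + 1) ≤ Module.finrank K (dimBox K a b) := by
  let f : Fin (a + 1) × Fin (b + 1) → dimBox K a b := fun ij =>
    ⟨monomial (dimExp ij.1 ij.2) 1, by
      unfold dimBox
      rw [mem_restrictSupport_iff]
      intro m hm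
      have h := support_monomial_subset hm
      rw [Finset.mem_singleton] at h
      subst h
      refine ⟨?_, ?_⟩
      · rw [dimExp_zero]; omega
      · rw [dimExp_one]; omega⟩
  have hf : LinearIndependent K f := by
    apply LinearIndependent.of_comp (dimBox K a b).subtype
    have h1 := (basisMonomials (Fin 2) K).linearIndependent
    have h2 : Function.Injective (fun ij : Fin (a + 1) × Fin (b + 1) =>
        dimExp ij.1 ij.2) := by
      rintro ⟨i, j⟩ ⟨i', j'⟩ h
      have e1 := DFunLike.congr_fun h 0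
      have e2 := DFunLike.congr_fun h 1
      simp only [dimExp_zero, dimExp_one] at e1 e2
      ext <;> simp [e1, e2]
    have h3 := h1.comp _ h2
    have h4 : (dimBox K a b).subtype ∘ f = basisMonomials (Fin 2) K ∘
        (fun ij : Fin (a + 1) × Fin (b + 1) => dimExp ij.1 ij.2) := by
      funext ij
      simp [f]
    rw [h4]
    exact h3
  have := hf.fintype_card_le_finrank
  simpa using this

theorem SecK_le_dimBox (a b : ℕ) (c : Fin 5 → ℕ) (x x' : Fin 5 → Fin 2 → K) :
    SecK a b c x x' ≤ dimBox K a b := fun _ hF => mem_dimBox.2 hF.1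

/-- Proof. Polynomials with `deg_0 ≤ a`, `deg_1 ≤ b` form a space of dimension `(a+1)(b+1)`. -/
theorem finite_SecK (a b : ℕ) (c : Fin 5 → ℕ) (x x' : Fin 5 → Fin 2 → K) :
    Module.Finite K (SecK a b c x x') :=
  Submodule.finiteDimensional_of_le (SecK_le_dimBox a b c x x')

/-- the Taylor coefficient as a linear map -/
noncomputable def dimTay (p : Fin 2 → K) (e : Fin 2 →₀ ℕ) : MvPolynomial (Fin 2) K →ₗ[K] K where
  toFun F := coeff e (tayK p F)
  map_add' F G := by rw [tayK_add, coeff_add]
  map_smul' r F := by rw [tayK_smul, coeff_smul]; rfl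

/-- Counting. Proof. The conditions at a point of multiplicity `m` are `m(m+1)/2` linear forms on the space of
dimension `(a+1)(b+1)`. -/
theorem le_finrank_SecK (a b : ℕ) (c : Fin 5 → ℕ) (x x' : Fin 5 → Fin 2 → K) :
    (a + 1) * (b + 1) ≤ Module.finrank K (SecK a b c x x') + ∑ j, c j * (c j + 1) := by
  let ι := (j : Fin 5) × (Bool × ((m : Fin (c j)) × Fin (m.1 + 1)))
  let L : MvPolynomial (Fin 2) K →ₗ[K] (ι → K) := LinearMap.pi fun t =>
    dimTay (if t.2.1 then x t.1 else x' t.1) (dimExp t.2.2.2.1 (t.2.2.1.1 - t.2.2.2.1))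
  let g : dimBox K a b →ₗ[K] (ι → K) := L.comp (dimBox K a b).subtype
  have hcard : Fintype.card ι = ∑ j, c j * (c j + 1) := by
    rw [Fintype.card_sigma]
    apply Finset.sum_congr rfl
    intro j _
    rw [Fintype.card_prod, Fintype.card_bool, Fintype.card_sigma]
    simp only [Fintype.card_fin]
    rw [Fin.sum_univ_eq_sum_range (fun m => m + 1) (c j)]
    have := Finset.sum_range_id_mul_two (c j + 1)
    rw [Finset.sum_range_succ'] at this
    simp only [add_zero, Nat.add_sub_cancel] at this
    linarith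
  have hker : (LinearMap.ker g).map (dimBox K a b).subtype ≤ SecK a b c x x' := by
    rintro F ⟨G, hG, rfl⟩
    rw [SetLike.mem_coe, LinearMap.mem_ker] at hG
    refine ⟨mem_dimBox.1 G.2, fun j => ?_⟩
    have key : ∀ (t : Bool) (e : Fin 2 →₀ ℕ), e.degree < c j →
        coeff e (tayK (if t then x j else x' j) (G : MvPolynomial (Fin 2) K)) = 0 := by
      intro t e he
      have hd := degree_two e
      have h := congrFun hG ⟨j, t, ⟨e.degree, he⟩, ⟨e 0, by simp only; omega⟩⟩
      have e1 : e.degree - e 0 = e 1 := by omega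
      simp only [g, L, LinearMap.comp_apply, LinearMap.pi_apply, e1, dimExp_eq] at h
      exact h
    exact ⟨fun e he => key true e he, fun e he => key false e he⟩
  have := finite_SecK a b c x x'
  have h1 : Module.finrank K (LinearMap.ker g) ≤ Module.finrank K (SecK a b c x x') := by
    rw [(Submodule.equivMapOfInjective _ (dimBox K a b).injective_subtype
      (LinearMap.ker g)).finrank_eq]
    exact Submodule.finrank_mono hker
  have h2 := LinearMap.finrank_range_add_finrank_ker g
  have h3 : Module.finrank K (LinearMap.range g) ≤ ∑ j, c j * (c j + 1) := by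
    rw [← hcard]
    have := Submodule.finrank_le (LinearMap.range g)
    rwa [Module.finrank_fintype_fun_eq_card] at this
  have h4 := le_finrank_dimBox (K := K) a b
  omega

variable {P : Par K} {c e : ℕ}

instance HH_finite (P : Par K) (c e : ℕ) : Module.Finite K (HH P c e) := finite_SecK _ _ _ _ _

theorem coeff_zero_tayK (p : Fin 2 → K) (F : MvPolynomial (Fin 2) K) :
    coeff 0 (tayK p F) = eval p F := by
  rw [← constantCoeff_eq]
  have : (constantCoeff : MvPolynomial (Fin 2) K →+* K).comp
      (aeval (fun i => X i + C (p i)) : MvPolynomial (Fin 2) K →ₐ[K] _).toRingHom = eval p := by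
    ext i
    · simp
    · simp
  exact RingHom.congr_fun this F

/-- Proof. `F` is a polynomial of degree `≤ 1` in `y` alone (a constant if `e = 1`) and vanishes at `z`, `z'` with
`z 1 ≠ z' 1`. -/
theorem HH_zero (hP : P.Good) (he : e ≤ 1) : HH P 0 e = ⊥ := by
  rw [eq_bot_iff]
  intro F hF
  rw [HH, mem_SecK] at hF
  obtain ⟨⟨h0, h1⟩, h2⟩ := hF
  rw [degreeOf_le_iff] at h0 h1
  have h1' : ∀ m ∈ F.support, m 1 ≤ 1 := fun m hm => (h1 m hm).trans (by omega)
  have hz : eval P.z F = 0 := by
    rw [← coeff_zero_tayK]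
    exact (h2 4).1 0 (by rw [map_zero]; exact Nat.one_pos)
  have hz' : eval P.z' F = 0 := by
    rw [← coeff_zero_tayK]
    exact (h2 4).2 0 (by rw [map_zero]; exact Nat.one_pos)
  have hF : F = monomial 0 (coeff 0 F) + monomial (dimExp 0 1) (coeff (dimExp 0 1) F) := by
    ext m
    rw [coeff_add, coeff_monomial, coeff_monomial]
    by_cases hm : m ∈ F.support
    · have a0 := h0 m hm
      have a1 := h1' m hm
      have b0 : m 0 = 0 := by omega
      rcases Nat.le_one_iff_eq_zero_or_eq_one.1 a1 with b1 | b1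
      · have : m = 0 := by
          rw [← dimExp_eq m, b0, b1]
          simp [dimExp]
        subst this
        rw [if_pos rfl, if_neg, add_zero]
        intro h
        have := DFunLike.congr_fun h 1
        rw [dimExp_one] at this
        simp at this
      · have : m = dimExp 0 1 := by
          rw [← dimExp_eq m, b0, b1]
        subst this
        rw [if_pos rfl, if_neg, zero_add]
        intro h
        have := DFunLike.congr_fun h 1
        rw [dimExp_one] at this
        simp at this
    · have hm0 : coeff m F = 0 := notMem_support_iff.1 hm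
      rw [hm0]
      split_ifs with g1 g2 g2
      · rw [show coeff 0 F = 0 by rw [g1]; exact hm0,
          show coeff (dimExp 0 1) F = 0 by rw [g2]; exact hm0, add_zero]
      · rw [show coeff 0 F = 0 by rw [g1]; exact hm0, add_zero]
      · rw [show coeff (dimExp 0 1) F = 0 by rw [g2]; exact hm0, add_zero]
      · simp
  have ev : ∀ p : Fin 2 → K, eval p F = coeff 0 F + coeff (dimExp 0 1) F * p 1 := by
    intro p
    conv_lhs => rw [hF]
    rw [map_add, eval_monomial, eval_monomial]
    simp [dimExp]
  rw [ev] at hz hz'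
  have hb : coeff (dimExp 0 1) F = 0 := by
    have : coeff (dimExp 0 1) F * (P.z 1 - P.z' 1) = 0 := by linear_combination hz - hz'
    exact (mul_eq_zero.1 this).resolve_right (sub_ne_zero.2 hP.zz)
  have ha : coeff 0 F = 0 := by
    rw [hb] at hz
    simpa using hz
  rw [ha, hb] at hF
  rw [Submodule.mem_bot, hF]
  simp

/-- the pair of constants -/
noncomputable def dimAB (c : ℕ) : MvPolynomial (Fin 2) K →ₗ[K] K × K where
  toFun F := (al c F, be c F)
  map_add' F G := by simp [al, be]
  map_smul' r F := by simp [al, be]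

theorem dimAB_apply (c : ℕ) (F : MvPolynomial (Fin 2) K) : dimAB c F = (al c F, be c F) := rfl

theorem finrank_ker_le (hP : P.Good) (he : e ≤ 1) (c : ℕ) :
    Module.finrank K (LinearMap.ker ((dimAB (c + 1)).comp (HH P (c + 1) e).subtype)) ≤
      Module.finrank K (HH P c e) := by
  set g := (dimAB (c + 1)).comp (HH P (c + 1) e).subtype with hg
  rw [(Submodule.equivMapOfInjective _ (HH P (c + 1) e).injective_subtype
      (LinearMap.ker g)).finrank_eq]
  have h1 : (LinearMap.ker g).map (HH P (c + 1) e).subtype ≤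
      (HH P c e).map (LinearMap.mulLeft K (phi : MvPolynomial (Fin 2) K)) := by
    rintro F ⟨G, hG, rfl⟩
    rw [SetLike.mem_coe, LinearMap.mem_ker, hg, LinearMap.comp_apply, dimAB_apply,
      Prod.mk_eq_zero] at hG
    obtain ⟨G', hG', h⟩ := exists_phi hP he G.2 hG.1 hG.2
    exact ⟨G', hG', h.symm⟩
  exact (Submodule.finrank_mono h1).trans (Submodule.finrank_map_le _ _)

/-- Proof. The kernel of `(al, be) : HH P (c+1) e → K²` is contained in `phi * HH P c e` by `exists_phi`. -/
theorem finrank_succ_le (hP : P.Good) (he : e ≤ 1) (c : ℕ) :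
    Module.finrank K (HH P (c + 1) e) ≤ Module.finrank K (HH P c e) + 2 := by
  have h1 := finrank_ker_le hP he c
  have h2 := LinearMap.finrank_range_add_finrank_ker
    ((dimAB (c + 1)).comp (HH P (c + 1) e).subtype)
  have h3 := Submodule.finrank_le (LinearMap.range
    ((dimAB (c + 1)).comp (HH P (c + 1) e).subtype))
  rw [Module.finrank_prod, Module.finrank_self] at h3
  omega

/-- Proof. `≥` by `le_finrank_SecK` (`(2c+1)(2c+2-e) = 2c-e + 2(3 c(c+1)/2·…)`: for `e = 0` this is
`(2c+1)(2c+2) = 2c + 4c(c+1) + 2`, for `e = 1` it is `(2c+1)^2 = (2c-1) + 3c(c+1) + (c-1)c + 2`), `≤` by induction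
with `finrank_succ_le`, `HH_zero` and `h1`. -/
theorem finrank_HH (hP : P.Good) (he : e ≤ 1) (h1 : e = 1 → Module.finrank K (HH P 1 1) ≤ 1)
    (hc : 1 ≤ c) : Module.finrank K (HH P c e) = 2 * c - e := by
  apply le_antisymm
  · induction c, hc using Nat.le_induction with
    | base =>
      rcases Nat.le_one_iff_eq_zero_or_eq_one.1 he with rfl | rfl
      · have := finrank_succ_le hP he 0
        rw [HH_zero hP he, finrank_bot] at this
        simpa using this
      · exact h1 rfl
    | succ n hn ih =>
      have := finrank_succ_le hP he n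
      omega
  · have h := le_finrank_SecK (2 * c) (2 * c + 1 - e) (cc c e) P.x P.x'
    rw [Fin.sum_univ_five] at h
    change _ ≤ Module.finrank K (HH P c e) + _ at h
    have e0 : cc c e 0 = c := rfl
    have e1 : cc c e 1 = c := rfl
    have e2 : cc c e 2 = c := rfl
    have e3 : cc c e 3 = c - e := rfl
    have e4 : cc c e 4 = 1 := rfl
    rw [e0, e1, e2, e3, e4] at h
    rcases Nat.le_one_iff_eq_zero_or_eq_one.1 he with rfl | rfl
    · simp only [Nat.sub_zero] at h ⊢
      nlinarith
    · obtain ⟨d, rfl⟩ : ∃ d, c = d + 1 := ⟨c - 1, by omega⟩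
      simp only [Nat.add_sub_cancel] at h
      have h5 : 2 * (d + 1) - 1 = 2 * d + 1 := by omega
      rw [h5]
      nlinarith

/-- Proof. The kernel of `(al, be) : HH P (c+1) e → K²` has dimension at most `finrank (HH P c e) = 2c - e`, and
`finrank (HH P (c+1) e) = 2c + 2 - e`, so the map is onto. -/
theorem exists_uv (hP : P.Good) (he : e ≤ 1) (h1 : e = 1 → Module.finrank K (HH P 1 1) ≤ 1)
    (hc : 1 ≤ c) (s t : K) : ∃ F ∈ HH P (c + 1) e, al (c + 1) F = s ∧ be (c + 1) F = t := by
  have k1 := finrank_ker_le hP he c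
  have k2 := LinearMap.finrank_range_add_finrank_ker
    ((dimAB (c + 1)).comp (HH P (c + 1) e).subtype)
  rw [finrank_HH hP he h1 hc] at k1
  rw [finrank_HH hP he h1 (Nat.le_add_left 1 c)] at k2
  have k3 : LinearMap.range ((dimAB (c + 1)).comp (HH P (c + 1) e).subtype) = ⊤ := by
    apply Submodule.eq_top_of_finrank_eq
    have h3 := Submodule.finrank_le (LinearMap.range
      ((dimAB (c + 1)).comp (HH P (c + 1) e).subtype))
    rw [Module.finrank_prod, Module.finrank_self] at h3 ⊢
    omega
  obtain ⟨F, hF⟩ := LinearMap.range_eq_top.1 k3 (s, t)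
  refine ⟨F, F.2, ?_⟩
  rw [LinearMap.comp_apply, dimAB_apply, Prod.mk.injEq] at hF
  exact hF

end Pool.Agent.Lib.MP_ed661f_ag.S.Fam
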