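import Mathlib

/-!
# A family of vectors which depends polynomially on a parameter
-/

set_option autoImplicit false

open Polynomial

namespace Pool.Agent.Lib.MP_ed661f_ag.S.Fam

/-- dividing a relation by the highest power of `X` which divides all coefficients -/
theorem kernel_poly_div {K : Type} [Field K] {n ι : Type} [Fintype n]
    (u : n → ι → K[X]) (k0 : n) : ∀ (d : ℕ) (w : n → K[X]), w k0 ≠ 0 → (w k0).natDegree ≤ d →
    (∀ i, ∑ k, w k * u k i = 0) →
    ∃ v : n → K[X], (∃ k, (v k).eval 0 ≠ 0) ∧ ∀ i, ∑ k, v k * u k i = 0 := by
  intro d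
  induction d with
  | zero =>
    intro w h0 hd hw
    refine ⟨w, ⟨k0, ?_⟩, hw⟩
    rw [eq_C_of_natDegree_le_zero hd] at h0 ⊢
    rw [eval_C]
    intro h
    apply h0
    rw [h, C_0]
  | succ d ih =>
    intro w h0 hd hw
    by_cases hk : ∃ k, (w k).eval 0 ≠ 0
    · exact ⟨w, hk, hw⟩
    · push Not at hk
      have hX : ∀ k, w k = X * (w k).divX := by
        intro k
        have h1 := divX_mul_X_add (w k)
        rw [coeff_zero_eq_eval_zero, hk k, C_0, add_zero] at h1
        rw [mul_comm, h1]
      refine ih (fun k => (w k).divX) ?_ ?_ ?_
      · intro h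
        apply h0
        rw [hX k0, h, mul_zero]
      · rw [natDegree_divX_eq_natDegree_tsub_one]
        omega
      · intro i
        have h2 := hw i
        have h3 : ∑ k, w k * u k i = X * ∑ k, (w k).divX * u k i := by
          rw [Finset.mul_sum]
          refine Finset.sum_congr rfl fun k _ => ?_
          rw [← mul_assoc, ← hX k]
        rw [h3] at h2
        rcases mul_eq_zero.1 h2 with h4 | h4
        · exact absurd h4 X_ne_zero
        · exact h4

/-- Proof. If the vectors `u k` were linearly independent over `K(s)` then (left inverse of an injective linear map,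
common denominator) there would be a matrix `N` over `K[s]` and `D ≠ 0` in `K[s]` with `∑ i, N l i * u k i = D δ_{kl}`,
so `u k` at `s0` would be independent for all `s0` with `D(s0) ≠ 0`, against `h` (`K` infinite: there is such an
`s0 ≠ 0`). So there is a relation over `K(s)`, hence over `K[s]`, not all coefficients zero; divide by the highest
power of `X` which divides all coefficients. -/
theorem kernel_poly {K : Type} [Field K] [Infinite K] {n ι : Type} [Fintype n] [Fintype ι]
    (u : n → ι → K[X])
    (h : ∀ s0 : K, s0 ≠ 0 → ∃ v : n → K, v ≠ 0 ∧ ∀ i, ∑ k, v k * (u k i).eval s0 = 0) :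
    ∃ v : n → K[X], (∃ k, (v k).eval 0 ≠ 0) ∧ ∀ i, ∑ k, v k * u k i = 0 := by
  classical
  set F := FractionRing K[X] with hF
  have hinj : Function.Injective (algebraMap K[X] F) := IsFractionRing.injective K[X] F
  -- the vectors over the field of rational functions
  set U : n → ι → F := fun k i => algebraMap K[X] F (u k i) with hU
  by_cases hli : LinearIndependent F U
  · exfalso
    -- a left inverse
    have hker : LinearMap.ker (Fintype.linearCombination F U) = ⊥ := by
      rw [LinearMap.ker_eq_bot']
      intro g hg
      rw [Fintype.linearCombination_apply] at hg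
      exact funext (Fintype.linearIndependent_iff.1 hli g hg)
    obtain ⟨g, hg⟩ := (Fintype.linearCombination F U).exists_leftInverse_of_injective hker
    have hgU : ∀ k l, g (U k) l = if k = l then 1 else 0 := by
      intro k l
      have h1 := LinearMap.congr_fun hg (Pi.single k 1)
      rw [LinearMap.comp_apply, LinearMap.id_apply, Fintype.linearCombination_apply_single,
        one_smul] at h1
      rw [h1, Pi.single_apply]
      simp only [eq_comm]
    -- common denominator
    obtain ⟨D, hD⟩ := IsLocalization.exist_integer_multiples_of_finite (nonZeroDivisors K[X])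
      (fun p : ι × n => g (Pi.single p.1 1) p.2)
    choose N hN using hD
    have hD0 : (D : K[X]) ≠ 0 := nonZeroDivisors.coe_ne_zero D
    have key : ∀ k l, ∑ i, u k i * N (i, l) = if k = l then (D : K[X]) else 0 := by
      intro k l
      apply hinj
      rw [map_sum]
      have h1 : ∀ i, algebraMap K[X] F (u k i * N (i, l))
          = algebraMap K[X] F D * (U k i * g (Pi.single i 1) l) := by
        intro i
        rw [map_mul]
        have h2 := hN (i, l)
        simp only at h2
        rw [h2, Algebra.smul_def]
        simp only [hU]
        ring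
      rw [Finset.sum_congr rfl fun i _ => h1 i, ← Finset.mul_sum]
      have h3 : ∑ i, U k i * g (Pi.single i 1) l = g (U k) l := by
        have h4 : U k = ∑ i, U k i • (Pi.single i (1 : F) : ι → F) := by
          funext j
          rw [Finset.sum_apply]
          simp [Pi.single_apply]
        conv_rhs => rw [h4, map_sum, Finset.sum_apply]
        refine Finset.sum_congr rfl fun i _ => ?_
        rw [map_smul, Pi.smul_apply, smul_eq_mul]
      rw [h3, hgU]
      split_ifs
      · rw [mul_one]
      · rw [mul_zero, map_zero]
    -- a good parameter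
    obtain ⟨s0, hs0⟩ : ∃ s0 : K, ((D : K[X]) * X).eval s0 ≠ 0 := by
      by_contra hcon
      push Not at hcon
      have h1 : (D : K[X]) * X = 0 := by
        apply Polynomial.funext
        intro r
        rw [hcon r, eval_zero]
      rcases mul_eq_zero.1 h1 with h2 | h2
      · exact hD0 h2
      · exact X_ne_zero h2
    rw [eval_mul, eval_X] at hs0
    have hs1 : (D : K[X]).eval s0 ≠ 0 := left_ne_zero_of_mul hs0
    obtain ⟨v, hv, hv0⟩ := h s0 (right_ne_zero_of_mul hs0)
    apply hv
    funext l
    have h1 : ∑ i, (∑ k, v k * (u k i).eval s0) * (N (i, l)).eval s0 = 0 := by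
      refine Finset.sum_eq_zero fun i _ => ?_
      rw [hv0 i, zero_mul]
    have h2 : ∑ i, (∑ k, v k * (u k i).eval s0) * (N (i, l)).eval s0
        = ∑ k, v k * (∑ i, u k i * N (i, l)).eval s0 := by
      simp only [Finset.sum_mul]
      rw [Finset.sum_comm]
      refine Finset.sum_congr rfl fun k _ => ?_
      rw [eval_finsetSum, Finset.mul_sum]
      refine Finset.sum_congr rfl fun i _ => ?_
      rw [eval_mul, mul_assoc]
    rw [h2] at h1
    have h3 : ∑ k, v k * (∑ i, u k i * N (i, l)).eval s0 = v l * (D : K[X]).eval s0 := by
      rw [Finset.sum_eq_single l]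
      · rw [key, if_pos rfl]
      · intro k _ hk
        rw [key, if_neg hk, eval_zero, mul_zero]
      · intro hl
        exact absurd (Finset.mem_univ l) hl
    rw [h3] at h1
    rcases mul_eq_zero.1 h1 with h4 | h4
    · exact h4
    · exact absurd h4 hs1
  · rw [Fintype.not_linearIndependent_iff] at hli
    obtain ⟨g, hg, k0, hk0⟩ := hli
    obtain ⟨D, hD⟩ := IsLocalization.exist_integer_multiples_of_finite (nonZeroDivisors K[X]) g
    choose w hw using hD
    have hD0 : (D : K[X]) ≠ 0 := nonZeroDivisors.coe_ne_zero D
    refine kernel_poly_div u k0 _ w ?_ le_rfl ?_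
    · intro h0
      have h1 := hw k0
      rw [h0, map_zero, Algebra.smul_def] at h1
      rcases mul_eq_zero.1 h1.symm with h2 | h2
      · exact hD0 (hinj (by rw [h2, map_zero]))
      · exact hk0 h2
    · intro i
      apply hinj
      rw [map_zero, map_sum]
      have h1 : ∀ k, algebraMap K[X] F (w k * u k i) = algebraMap K[X] F D * (g k * U k i) := by
        intro k
        rw [map_mul, hw k, Algebra.smul_def]
        simp only [hU]
        ring
      rw [Finset.sum_congr rfl fun k _ => h1 k, ← Finset.mul_sum]
      have h2 := congrFun hg i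
      rw [Finset.sum_apply] at h2
      simp only [Pi.smul_apply, smul_eq_mul, Pi.zero_apply] at h2
      rw [h2, mul_zero]

end Pool.Agent.Lib.MP_ed661f_ag.S.Fam
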