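import Mathlib
import Pool.Agent.Lib.MP_ed661f_ag.S.Fam.Defs
import Pool.Agent.Lib.MP_ed661f_ag.S.Fam.Kern

/-!
# Limits of relations
-/

set_option autoImplicit false

open MvPolynomial

namespace Pool.Agent.Lib.MP_ed661f_ag.S.Fam

variable {K : Type} [Field K]

/-- the exponents of degree `m` in four variables -/
abbrev Ex (m : ℕ) : Type := {e : Fin 4 →₀ ℕ // e ∈ (Finset.univ : Finset (Fin 4)).finsuppAntidiag m}

theorem mem_ex {m : ℕ} {e : Fin 4 →₀ ℕ} :
    e ∈ (Finset.univ : Finset (Fin 4)).finsuppAntidiag m ↔ e.degree = m := by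
  rw [Finset.mem_finsuppAntidiag]
  have h : (Finset.univ : Finset (Fin 4)).sum (⇑e) = e.degree := by
    rw [Finsupp.degree_eq_sum]
  rw [h]
  simp

theorem sum_ex {R : Type*} [CommSemiring R] {m : ℕ} {H : MvPolynomial (Fin 4) R}
    (hH : H.IsHomogeneous m) : H = ∑ e : Ex m, monomial e.1 (coeff e.1 H) := by
  classical
  ext e
  rw [coeff_sum]
  simp only [coeff_monomial]
  by_cases he : e.degree = m
  · rw [Finset.sum_eq_single (⟨e, mem_ex.2 he⟩ : Ex m)]
    · simp
    · intro b _ hb
      rw [if_neg]
      intro h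
      exact hb (Subtype.ext h)
    · intro h
      exact absurd (Finset.mem_univ _) h
  · rw [Finset.sum_eq_zero]
    · by_contra h
      exact he (by
        have := hH h
        rw [Finsupp.degree_eq_weight_one]
        exact this)
    · intro b _
      rw [if_neg]
      rintro rfl
      exact he (mem_ex.1 b.2)

theorem aeval_monomial_prod {R A : Type*} [CommSemiring R] [CommSemiring A] [Algebra R A]
    (f : Fin 4 → A) (e : Fin 4 →₀ ℕ) (r : R) :
    aeval f (monomial e r) = algebraMap R A r * ∏ i, f i ^ e i := by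
  rw [aeval_monomial, Finsupp.prod_fintype]
  intro i
  exact pow_zero _

/-- the family over `K[s]` -/
noncomputable def famF (ph : MvPolynomial (Fin 2) K) (g h : Fin 4 → MvPolynomial (Fin 2) K)
    (i : Fin 4) : MvPolynomial (Fin 2) (Polynomial K) :=
  map Polynomial.C (ph * g i) + C Polynomial.X * map Polynomial.C (h i)

theorem eval_famF (ph : MvPolynomial (Fin 2) K) (g h : Fin 4 → MvPolynomial (Fin 2) K)
    (i : Fin 4) (s : K) :
    map (Polynomial.evalRingHom s) (famF ph g h i) = ph * g i + C s * h i := by
  unfold famF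
  have h1 : (Polynomial.evalRingHom s).comp Polynomial.C = RingHom.id K := by
    ext x
    simp
  simp only [map_add, map_mul, map_C, map_map, h1, map_id]
  simp

/-- the substitution `s = T ph` -/
noncomputable def subS (ph : MvPolynomial (Fin 2) K) :
    Polynomial K →+* Polynomial (MvPolynomial (Fin 2) K) :=
  Polynomial.eval₂RingHom (Polynomial.C.comp C) (Polynomial.X * Polynomial.C ph)

noncomputable def subF (ph : MvPolynomial (Fin 2) K) :
    MvPolynomial (Fin 2) (Polynomial K) →+* Polynomial (MvPolynomial (Fin 2) K) :=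
  eval₂Hom (subS ph) (fun i => Polynomial.C (X i))

theorem subF_map (ph F : MvPolynomial (Fin 2) K) :
    subF ph (map Polynomial.C F) = Polynomial.C F := by
  have h : ((subF ph).comp (map Polynomial.C)) = (Polynomial.C : MvPolynomial (Fin 2) K →+* _) := by
    refine MvPolynomial.ringHom_ext (fun r => ?_) fun i => ?_
    · simp [subF, subS]
    · simp [subF]
  exact congrArg (fun ψ => ψ F) h

theorem subF_famF (ph : MvPolynomial (Fin 2) K) (g h : Fin 4 → MvPolynomial (Fin 2) K)
    (i : Fin 4) : subF ph (famF ph g h i) =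
      Polynomial.C ph * (Polynomial.C (g i) + Polynomial.X * Polynomial.C (h i)) := by
  unfold famF
  have h1 : subF ph (C Polynomial.X) = Polynomial.X * Polynomial.C ph := by
    simp [subF, subS]
  have h2 := subF_map ph (ph * g i)
  have h3 := subF_map ph (h i)
  rw [map_add, h2, map_mul (subF ph) (C Polynomial.X), h1, h3, Polynomial.C_mul]
  ring

theorem map_subS (ph : MvPolynomial (Fin 2) K) (rho : MvPolynomial (Fin 2) K →ₐ[K] Polynomial K)
    (hr : rho ph = 0) (v : Polynomial K) :
    Polynomial.mapRingHom (rho : MvPolynomial (Fin 2) K →+* Polynomial K) (subS ph v) =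
      Polynomial.C (Polynomial.C (v.eval 0)) := by
  have h : (Polynomial.mapRingHom (rho : MvPolynomial (Fin 2) K →+* Polynomial K)).comp (subS ph) =
      (Polynomial.C.comp Polynomial.C).comp (Polynomial.evalRingHom 0) := by
    refine Polynomial.ringHom_ext (fun r => ?_) ?_
    · have h1 : rho (C r) = Polynomial.C r := by
        have := rho.commutes r
        rw [MvPolynomial.algebraMap_eq] at this
        rw [this]
        rfl
      simp [subS, h1]
    · simp [subS, hr]
  exact congrArg (fun ψ => ψ v) h

theorem eval_subS (ph : MvPolynomial (Fin 2) K) (v : Polynomial K) :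
    Polynomial.evalRingHom 0 (subS ph v) = C (v.eval 0) := by
  have h : (Polynomial.evalRingHom (0 : MvPolynomial (Fin 2) K)).comp (subS ph) =
      (C : K →+* MvPolynomial (Fin 2) K).comp (Polynomial.evalRingHom 0) := by
    refine Polynomial.ringHom_ext (fun r => ?_) ?_
    · simp [subS]
    · simp [subS]
  exact congrArg (fun ψ => ψ v) h

/-- Limit of relations. -/
theorem limit_rel [Infinite K] {d : ℕ} (_hd : 1 ≤ d) {g h : Fin 4 → MvPolynomial (Fin 2) K}
    {ph : MvPolynomial (Fin 2) K} (hph : ph ≠ 0)
    (hrel : ∀ s0 : K, s0 ≠ 0 → ¬ NoRel d (fun i => ph * g i + C s0 * h i)) :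
    ∃ R : MvPolynomial (Fin 4) K, R.IsHomogeneous (d - 1) ∧ R ≠ 0 ∧ aeval g R = 0 ∧
      ∀ rho : MvPolynomial (Fin 2) K →ₐ[K] Polynomial K, rho ph = 0 →
        aeval (fun i => Polynomial.C (rho (g i)) + Polynomial.X * Polynomial.C (rho (h i))) R = 0 := by
  classical
  set m : ℕ := d - 1 with hm
  -- the monomials
  let M : Ex m → MvPolynomial (Fin 2) (Polynomial K) := fun e => ∏ i, famF ph g h i ^ (e.1 i)
  let J : Finset (Fin 2 →₀ ℕ) := Finset.univ.biUnion fun e : Ex m => (M e).support
  have hJ : ∀ e : Ex m, ∀ j, j ∉ J → coeff j (M e) = 0 := by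
    intro e j hj
    by_contra h0
    exact hj (Finset.mem_biUnion.2 ⟨e, Finset.mem_univ e, mem_support_iff.2 h0⟩)
  obtain ⟨v, ⟨k, hk⟩, hv⟩ := kernel_poly (K := K) (n := Ex m) (ι := J)
    (fun e j => coeff j.1 (M e)) (by
      intro s0 hs0
      have h1 := hrel s0 hs0
      unfold NoRel at h1
      push Not at h1
      obtain ⟨m', hm', R, hR, hz, hne⟩ := h1
      have hmm : m' ≤ m := by omega
      -- degree exactly `m`
      set R1 : MvPolynomial (Fin 4) K := X 0 ^ (m - m') * R with hR1
      have hR1h : R1.IsHomogeneous m := by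
        have h2 : (X 0 ^ (m - m') : MvPolynomial (Fin 4) K).IsHomogeneous (m - m') := by
          have := (isHomogeneous_X K (0 : Fin 4)).pow (m - m')
          rwa [one_mul] at this
        have h3 := h2.mul hR
        rwa [Nat.sub_add_cancel hmm] at h3
      have hR1ne : R1 ≠ 0 := mul_ne_zero (pow_ne_zero _ (X_ne_zero _)) hne
      have hR1z : aeval (fun i => ph * g i + C s0 * h i) R1 = 0 := by
        rw [hR1, map_mul, hz, mul_zero]
      refine ⟨fun e => coeff e.1 R1, ?_, ?_⟩
      · intro h0
        apply hR1ne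
        rw [sum_ex hR1h]
        refine Finset.sum_eq_zero fun e _ => ?_
        have : coeff e.1 R1 = 0 := congrFun h0 e
        rw [this, monomial_zero]
      · intro j
        have h2 := hR1z
        rw [sum_ex hR1h, map_sum] at h2
        have h3 := congrArg (coeff j.1) h2
        rw [coeff_sum, coeff_zero] at h3
        rw [← h3]
        refine Finset.sum_congr rfl fun e _ => ?_
        rw [aeval_monomial_prod, MvPolynomial.algebraMap_eq, coeff_C_mul]
        refine congrArg (fun z => coeff e.1 R1 * z) ?_
        have h4 : map (Polynomial.evalRingHom s0) (M e) =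
            ∏ i, (ph * g i + C s0 * h i) ^ (e.1 i) := by
          rw [map_prod]
          refine Finset.prod_congr rfl fun i _ => ?_
          rw [map_pow, eval_famF]
        rw [← h4, coeff_map]
        rfl)
  -- the relation over `K[s]`
  have h1 : ∑ e : Ex m, C (v e) * M e = 0 := by
    ext j : 1
    rw [coeff_sum, coeff_zero]
    by_cases hj : j ∈ J
    · have := hv ⟨j, hj⟩
      rw [← this]
      exact Finset.sum_congr rfl fun e _ => coeff_C_mul _ _ _
    · refine Finset.sum_eq_zero fun e _ => ?_
      rw [coeff_C_mul, hJ e j hj, mul_zero]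
  have h2 : ∀ e : Ex m, ∑ i, e.1 i = m := by
    intro e
    have := mem_ex.1 e.2
    rwa [Finsupp.degree_eq_sum] at this
  -- substitute `s = T ph`
  have h3 : ∑ e : Ex m, subS ph (v e) *
      ∏ i, (Polynomial.C (g i) + Polynomial.X * Polynomial.C (h i)) ^ (e.1 i) = 0 := by
    have h4 := congrArg (subF ph) h1
    rw [map_sum, map_zero] at h4
    have h5 : ∀ e : Ex m, subF ph (C (v e) * M e) = Polynomial.C ph ^ m * (subS ph (v e) *
        ∏ i, (Polynomial.C (g i) + Polynomial.X * Polynomial.C (h i)) ^ (e.1 i)) := by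
      intro e
      rw [map_mul]
      have h6 : subF ph (C (v e)) = subS ph (v e) := by simp [subF]
      have h7 : subF ph (M e) = Polynomial.C ph ^ m *
          ∏ i, (Polynomial.C (g i) + Polynomial.X * Polynomial.C (h i)) ^ (e.1 i) := by
        rw [map_prod]
        have h8 : ∀ i, subF ph (famF ph g h i ^ e.1 i) = Polynomial.C ph ^ (e.1 i) *
            (Polynomial.C (g i) + Polynomial.X * Polynomial.C (h i)) ^ (e.1 i) := by
          intro i
          rw [map_pow, subF_famF, mul_pow]
        rw [Finset.prod_congr rfl fun i _ => h8 i, Finset.prod_mul_distrib,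
          Finset.prod_pow_eq_pow_sum, h2 e]
      rw [h6, h7]
      ring
    rw [Finset.sum_congr rfl fun e _ => h5 e, ← Finset.mul_sum] at h4
    rcases mul_eq_zero.1 h4 with h9 | h9
    · exact absurd h9 (pow_ne_zero _ (Polynomial.C_ne_zero.2 hph))
    · exact h9
  -- the limit
  set R : MvPolynomial (Fin 4) K := ∑ e : Ex m, monomial e.1 ((v e).eval 0) with hR
  have hcoef : ∀ e : Ex m, coeff e.1 R = (v e).eval 0 := by
    intro e
    rw [hR, coeff_sum, Finset.sum_eq_single e]
    · rw [coeff_monomial, if_pos rfl]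
    · intro b _ hb
      rw [coeff_monomial, if_neg]
      intro h
      exact hb (Subtype.ext h)
    · intro h
      exact absurd (Finset.mem_univ _) h
  refine ⟨R, ?_, ?_, ?_, ?_⟩
  · rw [hR]
    refine IsHomogeneous.sum _ _ _ fun e _ => ?_
    exact isHomogeneous_monomial _ (mem_ex.1 e.2)
  · intro h0
    apply hk
    rw [← hcoef k, h0, coeff_zero]
  · have h4 := congrArg (Polynomial.evalRingHom 0) h3
    rw [map_sum, map_zero] at h4
    rw [hR, map_sum, ← h4]
    refine Finset.sum_congr rfl fun e _ => ?_
    rw [aeval_monomial_prod, map_mul, eval_subS, map_prod, MvPolynomial.algebraMap_eq]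
    refine congrArg (fun z => C (Polynomial.eval 0 (v e)) * z) ?_
    refine Finset.prod_congr rfl fun i _ => ?_
    rw [map_pow]
    refine congrArg (fun z => z ^ (e.1 i)) ?_
    simp
  · intro rho hrho
    have h4 := congrArg (Polynomial.mapRingHom (rho : MvPolynomial (Fin 2) K →+* Polynomial K)) h3
    rw [map_sum, map_zero] at h4
    rw [hR, map_sum, ← h4]
    refine Finset.sum_congr rfl fun e _ => ?_
    rw [aeval_monomial_prod, map_mul, map_subS ph rho hrho, map_prod]
    refine congrArg (fun z => Polynomial.C (Polynomial.C (Polynomial.eval 0 (v e))) * z) ?_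
    refine Finset.prod_congr rfl fun i _ => ?_
    rw [map_pow]
    refine congrArg (fun z => z ^ (e.1 i)) ?_
    simp

end Pool.Agent.Lib.MP_ed661f_ag.S.Fam
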