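import Mathlib

/-!
# Forms which vanish on a quadric
-/

set_option autoImplicit false

open MvPolynomial

namespace Pool.Agent.Lib.MP_ed661f_ag.S.Fam

variable {K : Type} [Field K]

/-- Proof. `MvPolynomial.irreducible_mul_X_add` (Mathlib, `RingTheory/MvPolynomial/IrreducibleQuadratic.lean`). -/
theorem quad_irreducible {a b : K} (ha : a ≠ 0) (hb : b ≠ 0) :
    Irreducible (C a * (X 0 * X 3) - C b * (X 1 * X 2) : MvPolynomial (Fin 4) K) := by
  have hmain : Irreducible (C a * X 0 * X 3 + (-(C b * (X 1 * X 2))) : MvPolynomial (Fin 4) K) := by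
    have hv : ∀ c : K, ∀ i : Fin 4, (C c * X i : MvPolynomial (Fin 4) K).vars ⊆ {i} := by
      intro c i
      refine (vars_mul _ _).trans ?_
      rw [vars_C, vars_X, Finset.empty_union]
    refine irreducible_mul_X_add (C a * X 0) (-(C b * (X 1 * X 2))) 3 ?_ ?_ ?_ ?_
    · exact mul_ne_zero (C_ne_zero.2 ha) (X_ne_zero _)
    · intro h
      have := hv a 0 h
      rw [Finset.mem_singleton] at this
      exact absurd this (by decide)
    · intro h
      rw [vars_neg, ← mul_assoc] at h
      have h1 := vars_mul (C b * X 1) (X 2 : MvPolynomial (Fin 4) K) h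
      rw [Finset.mem_union, vars_X, Finset.mem_singleton] at h1
      rcases h1 with h1 | h1
      · have := hv b 1 h1
        rw [Finset.mem_singleton] at this
        exact absurd this (by decide)
      · exact absurd h1 (by decide)
    · intro d hd1 hd2
      have hX : Irreducible (X 0 : MvPolynomial (Fin 4) K) := (X_prime (i := (0 : Fin 4))).irreducible
      have hu : IsUnit (C a : MvPolynomial (Fin 4) K) := (IsUnit.mk0 a ha).map C
      obtain ⟨e, he⟩ : d ∣ (X 0 : MvPolynomial (Fin 4) K) := (hu.dvd_mul_left).1 hd1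
      rcases hX.isUnit_or_isUnit he with h | h
      · exact h
      · exfalso
        have h1 : (X 0 : MvPolynomial (Fin 4) K) ∣ -(C b * (X 1 * X 2)) := by
          refine dvd_trans ?_ hd2
          rw [he]
          exact (h.mul_right_dvd).2 dvd_rfl
        obtain ⟨q, hq⟩ := h1
        have h2 := congrArg (eval (![0, 1, 1, 0] : Fin 4 → K)) hq
        simp at h2
        exact hb h2
  have he : (C a * (X 0 * X 3) - C b * (X 1 * X 2) : MvPolynomial (Fin 4) K) =
      C a * X 0 * X 3 + (-(C b * (X 1 * X 2))) := by ring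
  rw [he]
  exact hmain

private theorem quad_comp {F : MvPolynomial (Fin 4) K} {κ : ℕ} (hF : F.IsHomogeneous κ)
    (G : MvPolynomial (Fin 4) K) (j : ℕ) :
    homogeneousComponent (κ + j) (F * G) = F * homogeneousComponent j G := by
  have h0 : ∀ k, homogeneousComponent k (F * G) = F * ∑ i ∈ Finset.range (G.totalDegree + 1),
      if κ + i = k then homogeneousComponent i G else 0 := by
    intro k
    conv_lhs => rw [← sum_homogeneousComponent G]
    rw [Finset.mul_sum, map_sum, Finset.mul_sum]
    refine Finset.sum_congr rfl fun i _ => ?_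
    have h1 : F * homogeneousComponent i G ∈ homogeneousSubmodule (Fin 4) K (κ + i) :=
      hF.mul (homogeneousComponent_isHomogeneous i G)
    rw [homogeneousComponent_of_mem h1]
    by_cases h : κ + i = k
    · rw [if_pos h, if_pos h.symm]
    · rw [if_neg h, if_neg (fun h' => h h'.symm), mul_zero]
  rw [h0]
  congr 1
  by_cases hj : j < G.totalDegree + 1
  · rw [Finset.sum_eq_single j]
    · rw [if_pos rfl]
    · intro i _ hi
      rw [if_neg]
      omega
    · intro h
      exact absurd (Finset.mem_range.2 hj) h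
  · rw [homogeneousComponent_eq_zero _ _ (by omega)]
    refine Finset.sum_eq_zero fun i hi => ?_
    rw [if_neg]
    have := Finset.mem_range.1 hi
    omega

private theorem quad_homog (a b : K) :
    (C a * (X 0 * X 3) - C b * (X 1 * X 2) : MvPolynomial (Fin 4) K).IsHomogeneous 2 := by
  have h : ∀ (c : K) (i j : Fin 4), (C c * (X i * X j) : MvPolynomial (Fin 4) K).IsHomogeneous 2 := by
    intro c i j
    have h1 := (isHomogeneous_C (Fin 4) c).mul
      ((isHomogeneous_X K i).mul (isHomogeneous_X K j))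
    exact h1
  exact (h a 0 3).sub (h b 1 2)

private theorem quad_scale {A : Type} [CommRing A] [Algebra K A] {n m : ℕ}
    {R : MvPolynomial (Fin n) K} (hR : R.IsHomogeneous m) (c : A) (f : Fin n → A) :
    aeval (fun i => c * f i) R = c ^ m * aeval f R := by
  rw [aeval_def, aeval_def, eval₂_eq', eval₂_eq', Finset.mul_sum]
  refine Finset.sum_congr rfl fun d hd => ?_
  have h1 : ∏ i, (c * f i) ^ d i = c ^ m * ∏ i, f i ^ d i := by
    have h2 : ∑ i, d i = m := by
      have h3 : d.degree = m := by
        rw [Finsupp.degree_eq_weight_one]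
        exact hR (mem_support_iff.1 hd)
      rw [Finsupp.degree_eq_sum] at h3
      exact h3
    rw [← h2, ← Finset.prod_pow_eq_pow_sum, ← Finset.prod_mul_distrib]
    exact Finset.prod_congr rfl fun i _ => by rw [mul_pow]
  rw [h1]
  ring

/-- no homogeneous relation between `T w' A' (1 - y)`, `T w' B' y`, `w A (1 - y)` -/
private theorem quad_three {A A' B' : K} (hA : A ≠ 0) (hA' : A' ≠ 0) (hB' : B' ≠ 0)
    {w w' : Polynomial K} (hw : w ≠ 0) (hw' : w' ≠ 0) {n : ℕ} {S : MvPolynomial (Fin 3) K}
    (hS : S.IsHomogeneous n)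
    (h : aeval (![Polynomial.X * Polynomial.C (w' * (Polynomial.C A' * (1 - Polynomial.X))),
      Polynomial.X * Polynomial.C (w' * (Polynomial.C B' * Polynomial.X)),
      Polynomial.C (w * (Polynomial.C A * (1 - Polynomial.X)))] :
        Fin 3 → Polynomial (Polynomial K)) S = 0) : S = 0 := by
  by_contra hS0
  have hdeg : ∀ e ∈ S.support, e 0 + e 1 + e 2 = n := by
    intro e he
    have h3 : e.degree = n := by
      rw [Finsupp.degree_eq_weight_one]
      exact hS (mem_support_iff.1 he)
    rw [Finsupp.degree_eq_sum, Fin.sum_univ_three] at h3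
    exact h3
  have hne : S.support.Nonempty := by
    rw [Finset.nonempty_iff_ne_empty]
    intro h0
    exact hS0 (support_eq_empty.1 h0)
  obtain ⟨e, he, hmin⟩ := S.support.exists_min_image (fun e => e 1) hne
  -- the value as a sum
  obtain ⟨c, hc⟩ : ∃ c : (Fin 3 →₀ ℕ) → K, c = fun d =>
    coeff d S * (A' ^ d 0 * B' ^ d 1 * A ^ d 2) := ⟨_, rfl⟩
  have hterm : ∀ d : Fin 3 →₀ ℕ,
      algebraMap K (Polynomial (Polynomial K)) (coeff d S) *
        ∏ i, (![Polynomial.X * Polynomial.C (w' * (Polynomial.C A' * (1 - Polynomial.X))),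
          Polynomial.X * Polynomial.C (w' * (Polynomial.C B' * Polynomial.X)),
          Polynomial.C (w * (Polynomial.C A * (1 - Polynomial.X)))] :
            Fin 3 → Polynomial (Polynomial K)) i ^ d i =
      Polynomial.C (w' ^ (d 0 + d 1) * w ^ d 2 *
        (Polynomial.C (c d) * ((1 - Polynomial.X) ^ (d 0 + d 2) * Polynomial.X ^ d 1))) *
        Polynomial.X ^ (d 0 + d 1) := by
    intro d
    rw [Fin.prod_univ_three, hc]
    have h1 : algebraMap K (Polynomial (Polynomial K)) (coeff d S) =
        Polynomial.C (Polynomial.C (coeff d S)) := rfl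
    rw [h1]
    simp only [Matrix.cons_val_zero, Matrix.cons_val_one, Matrix.cons_val_two, Matrix.head_cons,
      Matrix.tail_cons]
    simp only [mul_pow, ← map_pow, map_mul, pow_add]
    ring
  have hsum : ∑ d ∈ S.support, Polynomial.C (w' ^ (d 0 + d 1) * w ^ d 2 *
        (Polynomial.C (c d) * ((1 - Polynomial.X) ^ (d 0 + d 2) * Polynomial.X ^ d 1))) *
        Polynomial.X ^ (d 0 + d 1) = (0 : Polynomial (Polynomial K)) := by
    rw [aeval_def, eval₂_eq'] at h
    rw [← h]
    exact Finset.sum_congr rfl fun d _ => (hterm d).symm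
  have h2 := congrArg (fun P : Polynomial (Polynomial K) => P.coeff (e 0 + e 1)) hsum
  simp only [Polynomial.finsetSum_coeff, Polynomial.coeff_C_mul_X_pow, Polynomial.coeff_zero] at h2
  have h3 : (w' ^ (e 0 + e 1) * w ^ e 2) * ∑ d ∈ S.support, (if e 0 + e 1 = d 0 + d 1 then
      Polynomial.C (c d) * ((1 - Polynomial.X) ^ (d 0 + d 2) * Polynomial.X ^ d 1) else 0) = 0 := by
    refine Eq.trans ?_ h2
    rw [Finset.mul_sum]
    refine Finset.sum_congr rfl fun d hd => ?_
    by_cases hde : e 0 + e 1 = d 0 + d 1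
    · rw [if_pos hde, if_pos hde]
      have h4 : d 2 = e 2 := by
        have := hdeg d hd
        have := hdeg e he
        omega
      rw [h4, ← hde]
    · rw [if_neg hde, if_neg hde, mul_zero]
  have h4 := (mul_eq_zero.1 h3).resolve_left
    (mul_ne_zero (pow_ne_zero _ hw') (pow_ne_zero _ hw))
  have h5 := congrArg (fun P : Polynomial K => P.coeff (e 1)) h4
  simp only [Polynomial.finsetSum_coeff, Polynomial.coeff_zero] at h5
  rw [Finset.sum_eq_single e] at h5
  · rw [if_pos rfl, Polynomial.coeff_C_mul, Polynomial.coeff_mul_X_pow', if_pos le_rfl,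
      Nat.sub_self] at h5
    have h6 : ((1 - Polynomial.X : Polynomial K) ^ (e 0 + e 2)).coeff 0 = 1 := by
      rw [Polynomial.coeff_zero_eq_eval_zero]
      simp
    rw [h6, mul_one, hc] at h5
    have h7 : coeff e S * (A' ^ e 0 * B' ^ e 1 * A ^ e 2) ≠ 0 :=
      mul_ne_zero (mem_support_iff.1 he) (mul_ne_zero (mul_ne_zero (pow_ne_zero _ hA')
        (pow_ne_zero _ hB')) (pow_ne_zero _ hA))
    exact h7 h5
  · intro d hd hde
    by_cases h6 : e 0 + e 1 = d 0 + d 1
    · rw [if_pos h6, Polynomial.coeff_C_mul, Polynomial.coeff_mul_X_pow', if_neg, mul_zero]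
      intro h7
      apply hde
      have h8 := hmin d hd
      have h9 := hdeg d hd
      have h10 := hdeg e he
      ext i
      fin_cases i
      · show d 0 = e 0
        omega
      · show d 1 = e 1
        omega
      · show d 2 = e 2
        omega
    · rw [if_neg h6, Polynomial.coeff_zero]
  · intro h6
    exact absurd he h6

/-- Proof. Let `Q = a X0 X3 - b X1 X2`, `a = A B'`, `b = A' B`. The parametrisation kills `Q`. Either (1) normal forms:
modulo `Q` every form of degree `m` is a combination of the monomials `X^g`, `g 0 = 0` or `g 3 = 0`, of degree `m`,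
and these have independent images: the image of `X^g` is a nonzero constant times
`w'^(g0+g1) w^(g2+g3) T^(g0+g1) (1-y)^(g0+g2) y^(g1+g3)`; for fixed `k = g0+g1` the first factors are common and
`(1-y)^i y^(m-i)`, `i = 0..m`, are independent, and `(k, i, m, g0 g3 = 0)` determines `g`. Or (2): some power
`X0^m R` is congruent modulo `Q` to a form `S` in `X0, X1, X2` (substitute `X3 = b X1 X2 / (a X0)`), the image of `S`
is `0`, and `T w' A' (1-y), T w' B' y, w A (1-y)` have no homogeneous relation, so `S = 0` and the prime `Q` divides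
`X0^m R`. -/
theorem quad_dvd {A B A' B' : K} (hA : A ≠ 0) (hB : B ≠ 0) (hA' : A' ≠ 0) (hB' : B' ≠ 0)
    {w w' : Polynomial K} (hw : w ≠ 0) (hw' : w' ≠ 0) {m : ℕ} {R : MvPolynomial (Fin 4) K}
    (hR : R.IsHomogeneous m)
    (h : aeval (![Polynomial.X * Polynomial.C (w' * (Polynomial.C A' * (1 - Polynomial.X))),
      Polynomial.X * Polynomial.C (w' * (Polynomial.C B' * Polynomial.X)),
      Polynomial.C (w * (Polynomial.C A * (1 - Polynomial.X))),
      Polynomial.C (w * (Polynomial.C B * Polynomial.X))] : Fin 4 → Polynomial (Polynomial K)) R = 0) :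
    (C (A * B') * (X 0 * X 3) - C (A' * B) * (X 1 * X 2) : MvPolynomial (Fin 4) K) ∣ R := by
  obtain ⟨a, ha⟩ : ∃ a, a = A * B' := ⟨_, rfl⟩
  obtain ⟨b, hb⟩ : ∃ b, b = A' * B := ⟨_, rfl⟩
  have ha0 : a ≠ 0 := ha ▸ mul_ne_zero hA hB'
  have hb0 : b ≠ 0 := hb ▸ mul_ne_zero hA' hB
  obtain ⟨Q, hQ⟩ : ∃ Q : MvPolynomial (Fin 4) K, Q = C a * (X 0 * X 3) - C b * (X 1 * X 2) :=
    ⟨_, rfl⟩
  obtain ⟨v, hv⟩ : ∃ v : Fin 4 → Polynomial (Polynomial K), v =
      ![Polynomial.X * Polynomial.C (w' * (Polynomial.C A' * (1 - Polynomial.X))),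
      Polynomial.X * Polynomial.C (w' * (Polynomial.C B' * Polynomial.X)),
      Polynomial.C (w * (Polynomial.C A * (1 - Polynomial.X))),
      Polynomial.C (w * (Polynomial.C B * Polynomial.X))] := ⟨_, rfl⟩
  rw [← ha, ← hb, ← hQ]
  rw [← hv] at h
  have hprime : Prime Q := hQ ▸ (quad_irreducible ha0 hb0).prime
  -- the substitution into three variables
  obtain ⟨σ, hσ⟩ : ∃ σ : Fin 4 → MvPolynomial (Fin 3) K, σ =
      ![C a * X 0 * X 0, C a * X 0 * X 1, C a * X 0 * X 2, C b * (X 1 * X 2)] := ⟨_, rfl⟩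
  have hσh : (aeval σ R).IsHomogeneous (2 * m) := by
    refine hR.aeval σ ?_
    intro i
    have h1 : ∀ (c : K) (i j : Fin 3), (C c * (X i * X j) :
        MvPolynomial (Fin 3) K).IsHomogeneous 2 := by
      intro c i j
      have h1 := (isHomogeneous_C (Fin 3) c).mul
        ((isHomogeneous_X K i).mul (isHomogeneous_X K j))
      exact h1
    rw [hσ]
    fin_cases i
    · show (C a * X 0 * X 0 : MvPolynomial (Fin 3) K).IsHomogeneous 2
      rw [mul_assoc]; exact h1 _ _ _
    · show (C a * X 0 * X 1 : MvPolynomial (Fin 3) K).IsHomogeneous 2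
      rw [mul_assoc]; exact h1 _ _ _
    · show (C a * X 0 * X 2 : MvPolynomial (Fin 3) K).IsHomogeneous 2
      rw [mul_assoc]; exact h1 _ _ _
    · exact h1 _ _ _
  -- the image of the substitution vanishes
  obtain ⟨v3, hv3⟩ : ∃ v3 : Fin 3 → Polynomial (Polynomial K), v3 =
      ![Polynomial.X * Polynomial.C (w' * (Polynomial.C A' * (1 - Polynomial.X))),
      Polynomial.X * Polynomial.C (w' * (Polynomial.C B' * Polynomial.X)),
      Polynomial.C (w * (Polynomial.C A * (1 - Polynomial.X)))] := ⟨_, rfl⟩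
  have hzero : aeval v3 (aeval σ R) = 0 := by
    have h1 : aeval v3 (aeval σ R) = aeval (fun i => aeval v3 (σ i)) R := by
      rw [← AlgHom.comp_apply]
      congr 1
      ext i
      simp
    have h2 : (fun i => aeval v3 (σ i)) =
        fun i => (Polynomial.C (Polynomial.C a) * v 0) * v i := by
      funext i
      have hCC : ∀ x : K, aeval v3 (C x) = Polynomial.C (Polynomial.C x) := fun x => by
        rw [aeval_C]
        rfl
      fin_cases i
      · show aeval v3 (σ 0) = _ * v 0
        rw [hσ, hv]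
        simp only [Matrix.cons_val_zero, map_mul, hCC, aeval_X]
        rw [hv3]
        simp only [Matrix.cons_val_zero]
        simp only [map_mul]
      · show aeval v3 (σ 1) = _ * v 1
        rw [hσ, hv]
        simp only [Matrix.cons_val_zero, Matrix.cons_val_one, map_mul, hCC, aeval_X]
        rw [hv3]
        simp only [Matrix.cons_val_zero, Matrix.cons_val_one]
        simp only [map_mul]
      · show aeval v3 (σ 2) = _ * v 2
        rw [hσ, hv]
        simp only [Matrix.cons_val_zero, Matrix.cons_val, map_mul, hCC, aeval_X]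
        rw [hv3]
        simp only [Matrix.cons_val_zero, Matrix.cons_val]
        simp only [map_mul]
      · show aeval v3 (σ 3) = _ * v 3
        rw [hσ, hv]
        simp only [Matrix.cons_val_zero, Matrix.cons_val, map_mul, hCC, aeval_X]
        rw [hv3, ha, hb]
        simp only [Matrix.cons_val_zero, Matrix.cons_val_one, Matrix.cons_val]
        simp only [map_mul]
        ring
    rw [h1, h2, quad_scale hR, h, mul_zero]
  have hS0 : aeval σ R = 0 := by
    rw [hv3] at hzero
    exact quad_three hA hA' hB' hw hw' hσh hzero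
  -- congruence modulo `Q`
  have hcong : Q ∣ (C a * X 0) ^ m * R := by
    have h1 : aeval (fun i => Ideal.Quotient.mk (Ideal.span {Q}) (C a * X 0) *
        Ideal.Quotient.mk (Ideal.span {Q}) (X i)) R =
        Ideal.Quotient.mk (Ideal.span {Q}) (C a * X 0) ^ m *
          aeval (fun i => Ideal.Quotient.mk (Ideal.span {Q}) (X i)) R := quad_scale hR _ _
    have h2 : aeval (fun i => Ideal.Quotient.mk (Ideal.span {Q}) (X i)) R =
        Ideal.Quotient.mk (Ideal.span {Q}) R := by
      have h3 : (aeval (fun i => Ideal.Quotient.mk (Ideal.span {Q}) (X i)) :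
          MvPolynomial (Fin 4) K →ₐ[K] MvPolynomial (Fin 4) K ⧸ Ideal.span {Q}) =
          Ideal.Quotient.mkₐ K (Ideal.span {Q}) := by
        ext i
        simp
      rw [h3]
      rfl
    obtain ⟨τ, hτ⟩ : ∃ τ : Fin 3 → MvPolynomial (Fin 4) K ⧸ Ideal.span {Q},
      τ = ![Ideal.Quotient.mk _ (X 0), Ideal.Quotient.mk _ (X 1), Ideal.Quotient.mk _ (X 2)] :=
      ⟨_, rfl⟩
    have h4 : aeval τ (aeval σ R) = aeval (fun i => aeval τ (σ i)) R := by
      rw [← AlgHom.comp_apply]
      congr 1
      ext i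
      simp
    have hCC : ∀ x : K, aeval τ (C x) = Ideal.Quotient.mk (Ideal.span {Q}) (C x) := fun x => by
      rw [aeval_C]
      rfl
    have h5 : (fun i => aeval τ (σ i)) = fun i =>
        Ideal.Quotient.mk (Ideal.span {Q}) (C a * X 0) *
        Ideal.Quotient.mk (Ideal.span {Q}) (X i) := by
      funext i
      fin_cases i
      · show aeval τ (σ 0) = _ * Ideal.Quotient.mk (Ideal.span {Q}) (X 0)
        rw [hσ]
        simp only [Matrix.cons_val_zero, map_mul, hCC, aeval_X]
        rw [hτ]
        simp only [Matrix.cons_val_zero]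
      · show aeval τ (σ 1) = _ * Ideal.Quotient.mk (Ideal.span {Q}) (X 1)
        rw [hσ]
        simp only [Matrix.cons_val_one, Matrix.cons_val_zero, map_mul, hCC, aeval_X]
        rw [hτ]
        simp only [Matrix.cons_val_one, Matrix.cons_val_zero]
      · show aeval τ (σ 2) = _ * Ideal.Quotient.mk (Ideal.span {Q}) (X 2)
        rw [hσ]
        simp only [Matrix.cons_val, map_mul, hCC, aeval_X]
        rw [hτ]
        simp only [Matrix.cons_val_zero, Matrix.cons_val]
      · show aeval τ (σ 3) = _ * Ideal.Quotient.mk (Ideal.span {Q}) (X 3)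
        rw [hσ]
        simp only [Matrix.cons_val, map_mul, hCC, aeval_X]
        rw [hτ]
        simp only [Matrix.cons_val_one, Matrix.cons_val_zero, Matrix.cons_val]
        rw [← map_mul, ← map_mul, ← map_mul, ← map_mul, eq_comm, Ideal.Quotient.eq,
          Ideal.mem_span_singleton, hQ]
        refine dvd_of_eq ?_
        ring
    rw [← h5, ← h4, hS0, map_zero, h2] at h1
    rw [← Ideal.mem_span_singleton, ← Ideal.Quotient.eq_zero_iff_mem, map_mul, map_pow]
    exact h1.symm
  rcases hprime.dvd_or_dvd hcong with h1 | h1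
  · exfalso
    obtain ⟨q, hq⟩ := hprime.dvd_of_dvd_pow h1
    have h2 := congrArg (eval (![1, 0, 0, 0] : Fin 4 → K)) hq
    rw [hQ] at h2
    simp at h2
    exact ha0 h2
  · exact h1

/-- two different quadrics of this form, and the degree of the quotient -/
theorem two_quads {a b a' b' : K} (ha : a ≠ 0) (hb : b ≠ 0) (ha' : a' ≠ 0) (hb' : b' ≠ 0)
    (hne : a * b' ≠ a' * b) {m : ℕ} {R : MvPolynomial (Fin 4) K} (hR : R.IsHomogeneous m)
    (hR0 : R ≠ 0)
    (h1 : (C a * (X 0 * X 3) - C b * (X 1 * X 2) : MvPolynomial (Fin 4) K) ∣ R)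
    (h2 : (C a' * (X 0 * X 3) - C b' * (X 1 * X 2) : MvPolynomial (Fin 4) K) ∣ R) :
    ∃ (k : ℕ) (R' : MvPolynomial (Fin 4) K), m = k + 4 ∧ R'.IsHomogeneous k ∧
      R = (C a * (X 0 * X 3) - C b * (X 1 * X 2)) * ((C a' * (X 0 * X 3) - C b' * (X 1 * X 2)) * R') := by
  obtain ⟨Q₁, hQ₁⟩ : ∃ Q : MvPolynomial (Fin 4) K, Q = C a * (X 0 * X 3) - C b * (X 1 * X 2) :=
    ⟨_, rfl⟩
  obtain ⟨Q₂, hQ₂⟩ : ∃ Q : MvPolynomial (Fin 4) K,
    Q = C a' * (X 0 * X 3) - C b' * (X 1 * X 2) := ⟨_, rfl⟩
  rw [← hQ₁] at h1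
  rw [← hQ₂] at h2
  have hp2 : Prime Q₂ := hQ₂ ▸ (quad_irreducible ha' hb').prime
  have hh1 : Q₁.IsHomogeneous 2 := hQ₁ ▸ quad_homog a b
  have hh2 : Q₂.IsHomogeneous 2 := hQ₂ ▸ quad_homog a' b'
  obtain ⟨R₁, hR₁⟩ := h1
  have h3 : Q₂ ∣ R₁ := by
    rw [hR₁] at h2
    rcases hp2.dvd_or_dvd h2 with h4 | h4
    · exfalso
      obtain ⟨q, hq⟩ := h4
      have h5 := congrArg (eval (![1, 1, a', b'] : Fin 4 → K)) hq
      rw [hQ₁, hQ₂] at h5
      simp at h5
      apply hne
      linear_combination h5
    · exact h4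
  obtain ⟨R', hR'⟩ := h3
  have hprod : (Q₁ * Q₂).IsHomogeneous 4 := hh1.mul hh2
  have hRR : R = (Q₁ * Q₂) * R' := by rw [hR₁, hR', mul_assoc]
  have hQ0 : Q₁ * Q₂ ≠ 0 := by
    intro h0
    apply hR0
    rw [hRR, h0, zero_mul]
  have hcomp : ∀ j, 4 + j ≠ m → homogeneousComponent j R' = 0 := by
    intro j hj
    have h4 := quad_comp hprod R' j
    rw [← hRR, homogeneousComponent_of_mem (hR : R ∈ homogeneousSubmodule (Fin 4) K m),
      if_neg hj] at h4
    exact (mul_eq_zero.1 h4.symm).resolve_left hQ0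
  have hR'0 : R' ≠ 0 := by
    intro h0
    apply hR0
    rw [hRR, h0, mul_zero]
  have hm : 4 ≤ m := by
    by_contra hlt
    apply hR'0
    rw [← sum_homogeneousComponent R']
    exact Finset.sum_eq_zero fun j _ => hcomp j (by omega)
  refine ⟨m - 4, R', by omega, ?_, ?_⟩
  · have h4 : R' = homogeneousComponent (m - 4) R' := by
      conv_lhs => rw [← sum_homogeneousComponent R']
      by_cases hj : m - 4 < R'.totalDegree + 1
      · rw [Finset.sum_eq_single (m - 4)]
        · intro j _ hj
          exact hcomp j (by omega)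
        · intro h4
          exact absurd (Finset.mem_range.2 hj) h4
      · rw [homogeneousComponent_eq_zero (m - 4) R' (by omega)]
        refine Finset.sum_eq_zero fun j hj' => hcomp j ?_
        have := Finset.mem_range.1 hj'
        omega
    rw [h4]
    exact homogeneousComponent_isHomogeneous _ _
  · rw [← hQ₁, ← hQ₂, hRR, mul_assoc]

end Pool.Agent.Lib.MP_ed661f_ag.S.Fam
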