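import Mathlib
import Pool.Agent.Lib.MP_ed661f_ag.S.Fam.Dim
import Pool.Agent.Lib.MP_ed661f_ag.S.Fam.Quad
import Pool.Agent.Lib.MP_ed661f_ag.S.Fam.Limit

/-!
# The induction step
-/

set_option autoImplicit false

open MvPolynomial

namespace Pool.Agent.Lib.MP_ed661f_ag.S.Fam

variable {K : Type} [Field K]

theorem NoRel.comp {d : ℕ} {g : Fin 4 → MvPolynomial (Fin 2) K} (h : NoRel d g)
    {s : Fin 4 → Fin 4} (hs : Function.Injective s) : NoRel d (g ∘ s) := by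
  intro m hm R hR hz
  have h1 : aeval (g ∘ s) R = aeval g (rename s R) := (aeval_rename s g R).symm
  rw [h1] at hz
  have h2 := h m hm (rename s R) hR.rename_isHomogeneous hz
  exact rename_injective s hs (by rw [h2, map_zero])

variable {P : Par K} {c e : ℕ}

theorem cA_ne (hP : P.Good) : cA P c e ≠ 0 := by
  unfold cA
  exact div_ne_zero (pow_ne_zero _ (mul_ne_zero (hP.p0 0) (hP.p0 1)))
    (mul_ne_zero (pow_ne_zero _ (neg_ne_zero.2 (hP.q0 0))) (pow_ne_zero _ (neg_ne_zero.2 (hP.q0 1))))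

theorem cB_ne (hP : P.Good) : cB P c e ≠ 0 := by
  unfold cB
  exact div_ne_zero (pow_ne_zero _ (mul_ne_zero (hP.p0 2) (hP.p0 3)))
    (mul_ne_zero (pow_ne_zero _ (sub_ne_zero.2 (hP.q1 0).symm))
      (pow_ne_zero _ (sub_ne_zero.2 (hP.q1 1).symm)))

theorem cC_ne (hP : P.Good) : cC P c e ≠ 0 := by
  unfold cC
  exact div_ne_zero (pow_ne_zero _ (mul_ne_zero (sub_ne_zero.2 (hP.p1 0).symm)
    (sub_ne_zero.2 (hP.p1 1).symm)))
    (mul_ne_zero (pow_ne_zero _ (neg_ne_zero.2 (hP.q0 2))) (pow_ne_zero _ (neg_ne_zero.2 (hP.q0 3))))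

theorem cD_ne (hP : P.Good) : cD P c e ≠ 0 := by
  unfold cD
  exact div_ne_zero (pow_ne_zero _ (mul_ne_zero (sub_ne_zero.2 (hP.p1 2).symm)
    (sub_ne_zero.2 (hP.p1 3).symm)))
    (mul_ne_zero (pow_ne_zero _ (sub_ne_zero.2 (hP.q1 2).symm))
      (pow_ne_zero _ (sub_ne_zero.2 (hP.q1 3).symm)))

/-- the quotients of consecutive constants -/
theorem succ_aux {x y a b : K} (ha : a ≠ 0) (hb : b ≠ 0) {n k : ℕ} :
    (x * y) ^ (n + 1) / (a ^ (n + 1) * b ^ (k + 1)) * (a * b) =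
      (x * y) ^ n / (a ^ n * b ^ k) * (x * y) := by
  rw [div_mul_eq_mul_div, div_mul_eq_mul_div, div_eq_div_iff
    (mul_ne_zero (pow_ne_zero _ ha) (pow_ne_zero _ hb))
    (mul_ne_zero (pow_ne_zero _ ha) (pow_ne_zero _ hb))]
  ring

theorem cA_succ (hP : P.Good) (he : e ≤ c) :
    cA P (c + 1) e * (P.q 0 * P.q 1) = cA P c e * (P.p 0 * P.p 1) := by
  have h1 : c + 1 - e = (c - e) + 1 := by omega
  have h2 := succ_aux (x := P.p 0) (y := P.p 1) (neg_ne_zero.2 (hP.q0 0)) (neg_ne_zero.2 (hP.q0 1))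
    (n := c) (k := c - e)
  rw [neg_mul_neg] at h2
  unfold cA
  rw [h1]
  exact h2

theorem cB_succ (hP : P.Good) (he : e ≤ c) :
    cB P (c + 1) e * ((1 - P.q 0) * (1 - P.q 1)) = cB P c e * (P.p 2 * P.p 3) := by
  have h1 : c + 1 - e = (c - e) + 1 := by omega
  have h2 := succ_aux (x := P.p 2) (y := P.p 3) (sub_ne_zero.2 (hP.q1 0).symm)
    (sub_ne_zero.2 (hP.q1 1).symm) (n := c) (k := c - e)
  unfold cB
  rw [h1]
  exact h2

theorem cC_succ (hP : P.Good) (he : e ≤ c) :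
    cC P (c + 1) e * (P.q 2 * P.q 3) = cC P c e * ((1 - P.p 0) * (1 - P.p 1)) := by
  have h1 : c + 1 - e = (c - e) + 1 := by omega
  have h2 := succ_aux (x := 1 - P.p 0) (y := 1 - P.p 1) (neg_ne_zero.2 (hP.q0 2))
    (neg_ne_zero.2 (hP.q0 3)) (n := c) (k := c - e)
  rw [neg_mul_neg] at h2
  unfold cC
  rw [h1]
  exact h2

theorem cD_succ (hP : P.Good) (he : e ≤ c) :
    cD P (c + 1) e * ((1 - P.q 2) * (1 - P.q 3)) = cD P c e * ((1 - P.p 2) * (1 - P.p 3)) := by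
  have h1 : c + 1 - e = (c - e) + 1 := by omega
  have h2 := succ_aux (x := 1 - P.p 2) (y := 1 - P.p 3) (sub_ne_zero.2 (hP.q1 2).symm)
    (sub_ne_zero.2 (hP.q1 3).symm) (n := c) (k := c - e)
  unfold cD
  rw [h1]
  exact h2

/-- the two quadrics are different -/
theorem quads_ne (hP : P.Good) (he : e ≤ c) {s t : K} (hs : s ≠ 0) (ht : t ≠ 0) :
    (s * cA P c e) * cB P (c + 1) e * (cC P (c + 1) e * (t * cD P c e)) ≠
      (s * cC P c e) * cD P (c + 1) e * (cA P (c + 1) e * (t * cB P c e)) := by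
  intro h
  have hA := cA_succ hP he
  have hB := cB_succ hP he
  have hC := cC_succ hP he
  have hD := cD_succ hP he
  have hN : s * t * cA P c e * cB P c e * cC P c e * cD P c e ≠ 0 :=
    mul_ne_zero (mul_ne_zero (mul_ne_zero (mul_ne_zero (mul_ne_zero hs ht) (cA_ne hP)) (cB_ne hP))
      (cC_ne hP)) (cD_ne hP)
  apply hP.period
  apply mul_left_cancel₀ hN
  have h1 : s * t * cA P c e * cB P c e * cC P c e * cD P c e *
      (P.p 2 * P.p 3 * ((1 - P.p 0) * (1 - P.p 1)) * (P.q 0 * P.q 1 * ((1 - P.q 2) * (1 - P.q 3)))) =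
      (s * cA P c e) * cB P (c + 1) e * (cC P (c + 1) e * (t * cD P c e)) *
        (P.q 0 * P.q 1 * (P.q 2 * P.q 3) * ((1 - P.q 0) * (1 - P.q 1)) *
          ((1 - P.q 2) * (1 - P.q 3))) := by
    have e1 : (s * cA P c e) * cB P (c + 1) e * (cC P (c + 1) e * (t * cD P c e)) *
        (P.q 0 * P.q 1 * (P.q 2 * P.q 3) * ((1 - P.q 0) * (1 - P.q 1)) *
          ((1 - P.q 2) * (1 - P.q 3))) = s * t * cA P c e * cD P c e *
          (cB P (c + 1) e * ((1 - P.q 0) * (1 - P.q 1))) * (cC P (c + 1) e * (P.q 2 * P.q 3)) *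
          (P.q 0 * P.q 1 * ((1 - P.q 2) * (1 - P.q 3))) := by ring
    rw [e1, hB, hC]
    ring
  have h2 : s * t * cA P c e * cB P c e * cC P c e * cD P c e *
      (P.p 0 * P.p 1 * ((1 - P.p 2) * (1 - P.p 3)) * (P.q 2 * P.q 3 * ((1 - P.q 0) * (1 - P.q 1)))) =
      (s * cC P c e) * cD P (c + 1) e * (cA P (c + 1) e * (t * cB P c e)) *
        (P.q 0 * P.q 1 * (P.q 2 * P.q 3) * ((1 - P.q 0) * (1 - P.q 1)) *
          ((1 - P.q 2) * (1 - P.q 3))) := by
    have e1 : (s * cC P c e) * cD P (c + 1) e * (cA P (c + 1) e * (t * cB P c e)) *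
        (P.q 0 * P.q 1 * (P.q 2 * P.q 3) * ((1 - P.q 0) * (1 - P.q 1)) *
          ((1 - P.q 2) * (1 - P.q 3))) = s * t * cC P c e * cB P c e *
          (cD P (c + 1) e * ((1 - P.q 2) * (1 - P.q 3))) * (cA P (c + 1) e * (P.q 0 * P.q 1)) *
          (P.q 2 * P.q 3 * ((1 - P.q 0) * (1 - P.q 1))) := by ring
    rw [e1, hD, hA]
    ring
  rw [h1, h2, h]

/-- the quadric of one line, from the restrictions -/
theorem quad_of_line {A B A' B' : K} (hA : A ≠ 0) (hB : B ≠ 0) (hA' : A' ≠ 0) (hB' : B' ≠ 0)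
    {w w' : Polynomial K} (hw : w ≠ 0) (hw' : w' ≠ 0)
    {rho : MvPolynomial (Fin 2) K →ₐ[K] Polynomial K} {g0 g1 g2 g3 u v : MvPolynomial (Fin 2) K}
    (h0 : rho g0 = w * (Polynomial.C A * (1 - Polynomial.X)))
    (h1 : rho g1 = w * (Polynomial.C B * Polynomial.X)) (h2 : rho g2 = 0) (h3 : rho g3 = 0)
    (hu : rho u = w' * (Polynomial.C A' * (1 - Polynomial.X)))
    (hv : rho v = w' * (Polynomial.C B' * Polynomial.X)) {m : ℕ} {R : MvPolynomial (Fin 4) K}
    (hR : R.IsHomogeneous m)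
    (h : aeval (fun i : Fin 4 => Polynomial.C (rho ((![g2, g3, g0, g1] :
      Fin 4 → MvPolynomial (Fin 2) K) i)) + Polynomial.X *
        Polynomial.C (rho ((![u, v, 0, 0] : Fin 4 → MvPolynomial (Fin 2) K) i))) R = 0) :
    (C (A * B') * (X 0 * X 3) - C (A' * B) * (X 1 * X 2) : MvPolynomial (Fin 4) K) ∣ R := by
  refine quad_dvd hA hB hA' hB' hw hw' hR ?_
  rw [← h]
  congr 2
  funext i
  fin_cases i
  · simp [h2, hu]
  · simp [h3, hv]
  · simp [h0]
  · simp [h1]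

theorem no_rel_contra {D : ℕ} (hD : 3 ≤ D) {gs : Fin 4 → MvPolynomial (Fin 2) K}
    (hgs : NoRel D gs) {R : MvPolynomial (Fin 4) K} (hR : R.IsHomogeneous (D + 3)) (hR0 : R ≠ 0)
    (hRg : aeval gs R = 0) {a b a' b' : K} (n1 : a ≠ 0) (n2 : b ≠ 0) (n3 : a' ≠ 0) (n4 : b' ≠ 0)
    (hne : a * b' ≠ a' * b)
    (h1 : (C a * (X 0 * X 3) - C b * (X 1 * X 2) : MvPolynomial (Fin 4) K) ∣ R)
    (h2 : (C a' * (X 0 * X 3) - C b' * (X 1 * X 2) : MvPolynomial (Fin 4) K) ∣ R) : False := by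
  obtain ⟨k, R', hk, hR', hRR⟩ := two_quads n1 n2 n3 n4 hne hR hR0 h1 h2
  have hhom : ∀ s t : K, (C s * (X 0 * X 3) - C t * (X 1 * X 2) :
      MvPolynomial (Fin 4) K).IsHomogeneous 2 := by
    intro s t
    refine IsHomogeneous.sub ?_ ?_
    · have := ((isHomogeneous_X K (0 : Fin 4)).mul (isHomogeneous_X K (3 : Fin 4)))
      exact this.C_mul s
    · have := ((isHomogeneous_X K (1 : Fin 4)).mul (isHomogeneous_X K (2 : Fin 4)))
      exact this.C_mul t
  have hq : ∀ s t : K, s ≠ 0 → t ≠ 0 → aeval gs (C s * (X 0 * X 3) - C t * (X 1 * X 2) :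
      MvPolynomial (Fin 4) K) ≠ 0 := by
    intro s t hs ht h0
    exact (quad_irreducible hs ht).ne_zero (hgs 2 (by omega) _ (hhom s t) h0)
  have h0 := hRg
  rw [hRR, map_mul, map_mul] at h0
  have h5 := hq a b n1 n2
  have h6 := hq a' b' n3 n4
  have h7 : aeval gs R' = 0 := by
    rcases mul_eq_zero.1 h0 with h3 | h3
    · exact absurd h3 h5
    · rcases mul_eq_zero.1 h3 with h4 | h4
      · exact absurd h4 h6
      · exact h4
  have h3 := hgs k (by omega) R' hR' h7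
  apply hR0
  rw [hRR, h3, mul_zero, mul_zero]

theorem step [Infinite K] (hP : P.Good) (he : e ≤ 1)
    (h1 : e = 1 → Module.finrank K (HH P 1 1) ≤ 1) (hc : 2 + e ≤ c) (h : PP P c e) :
    PP P (c + 1) e := by
  obtain ⟨g, hg, ha0, hb0, ha1, hb1, ha2, hb2, ha3, hb3, hrel⟩ := h
  have hec : e ≤ c := by omega
  have hec1 : e ≤ c + 1 := by omega
  obtain ⟨u, hu, hau, hbu⟩ := exists_uv hP he h1 (by omega : 1 ≤ c) 1 0
  obtain ⟨v, hv, hav, hbv⟩ := exists_uv hP he h1 (by omega : 1 ≤ c) 0 1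
  set gs : Fin 4 → MvPolynomial (Fin 2) K := ![g 2, g 3, g 0, g 1] with hgs
  set hh : Fin 4 → MvPolynomial (Fin 2) K := ![u, v, 0, 0] with hhh
  set d : ℕ := 2 * (2 * (c + 1) - 1 - e) with hd
  have hd4 : d = 2 * (2 * c - 1 - e) + 4 := by omega
  have hgs' : NoRel (2 * (2 * c - 1 - e)) gs := by
    have e1 : gs = g ∘ (![2, 3, 0, 1] : Fin 4 → Fin 4) := by
      funext i
      fin_cases i <;> rfl
    rw [e1]
    refine hrel.comp ?_
    decide
  -- the key: some `s0` works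
  have key : ∃ s0 : K, s0 ≠ 0 ∧ NoRel d (fun i => phi * gs i + C s0 * hh i) := by
    by_contra hcon
    push Not at hcon
    obtain ⟨R, hR, hR0, hRg, hRrho⟩ := limit_rel (K := K) (d := d) (by omega) (g := gs) (h := hh)
      (phi_ne_zero (K := K)) hcon
    -- left
    have hw0 : ∀ (t1 t2 : K) (n1 n2 : ℕ), (Polynomial.X - Polynomial.C t1) ^ n1 *
        (Polynomial.X - Polynomial.C t2) ^ n2 ≠ 0 := fun t1 t2 n1 n2 =>
      mul_ne_zero (pow_ne_zero _ (Polynomial.X_sub_C_ne_zero _))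
        (pow_ne_zero _ (Polynomial.X_sub_C_ne_zero _))
    have hl := quad_of_line (mul_ne_zero ha0 (cA_ne hP (c := c) (e := e)))
      (mul_ne_zero hb1 (cB_ne hP (c := c) (e := e))) (cA_ne hP (c := c + 1) (e := e))
      (cB_ne hP (c := c + 1) (e := e)) (hw0 (P.q 0) (P.q 1) c (c - e))
      (hw0 (P.q 0) (P.q 1) (c + 1) (c + 1 - e)) (rho := lef) (g0 := g 0) (g1 := g 1) (g2 := g 2)
      (g3 := g 3) (u := u) (v := v)
      (by rw [lef_eq hP hec (hg 0), hb0]; simp)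
      (by rw [lef_eq hP hec (hg 1), ha1]; simp)
      (by rw [lef_eq hP hec (hg 2), ha2, hb2]; simp)
      (by rw [lef_eq hP hec (hg 3), ha3, hb3]; simp)
      (by rw [lef_eq hP hec1 hu, hau, hbu]; simp)
      (by rw [lef_eq hP hec1 hv, hav, hbv]; simp) hR
      (hRrho lef lef_phi)
    have hr := quad_of_line (mul_ne_zero ha0 (cC_ne hP (c := c) (e := e)))
      (mul_ne_zero hb1 (cD_ne hP (c := c) (e := e))) (cC_ne hP (c := c + 1) (e := e))
      (cD_ne hP (c := c + 1) (e := e)) (hw0 (P.q 2) (P.q 3) c (c - e))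
      (hw0 (P.q 2) (P.q 3) (c + 1) (c + 1 - e)) (rho := rig) (g0 := g 0) (g1 := g 1) (g2 := g 2)
      (g3 := g 3) (u := u) (v := v)
      (by rw [rig_eq hP hec (hg 0), hb0]; simp)
      (by rw [rig_eq hP hec (hg 1), ha1]; simp)
      (by rw [rig_eq hP hec (hg 2), ha2, hb2]; simp)
      (by rw [rig_eq hP hec (hg 3), ha3, hb3]; simp)
      (by rw [rig_eq hP hec1 hu, hau, hbu]; simp)
      (by rw [rig_eq hP hec1 hv, hav, hbv]; simp) hR
      (hRrho rig rig_phi)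
    have n1 : al c (g 0) * cA P c e * cB P (c + 1) e ≠ 0 :=
      mul_ne_zero (mul_ne_zero ha0 (cA_ne hP)) (cB_ne hP)
    have n2 : cA P (c + 1) e * (be c (g 1) * cB P c e) ≠ 0 :=
      mul_ne_zero (cA_ne hP) (mul_ne_zero hb1 (cB_ne hP))
    have n3 : al c (g 0) * cC P c e * cD P (c + 1) e ≠ 0 :=
      mul_ne_zero (mul_ne_zero ha0 (cC_ne hP)) (cD_ne hP)
    have n4 : cC P (c + 1) e * (be c (g 1) * cD P c e) ≠ 0 :=
      mul_ne_zero (cC_ne hP) (mul_ne_zero hb1 (cD_ne hP))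
    exact no_rel_contra (D := 2 * (2 * c - 1 - e)) (by omega) hgs'
      (by
        have : d - 1 = 2 * (2 * c - 1 - e) + 3 := by omega
        rw [← this]
        exact hR) hR0 hRg n1 n2 n3 n4 (quads_ne hP hec ha0 hb1) hl hr
  obtain ⟨s0, hs0, hrel'⟩ := key
  have hal : ∀ F G : MvPolynomial (Fin 2) K, al (c + 1) (phi * F + C s0 * G) =
      s0 * al (c + 1) G := by
    intro F G
    unfold al
    have h3 : bot (C s0 : MvPolynomial (Fin 2) K) = Polynomial.C s0 := by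
      simp [bot]
    rw [map_add, map_mul, map_mul, bot_phi, zero_mul, zero_add, h3, Polynomial.coeff_C_mul]
  have hbe : ∀ F G : MvPolynomial (Fin 2) K, be (c + 1) (phi * F + C s0 * G) =
      s0 * be (c + 1) G := by
    intro F G
    unfold be
    have h3 : top (C s0 : MvPolynomial (Fin 2) K) = Polynomial.C s0 := by
      simp [top]
    rw [map_add, map_mul, map_mul, top_phi, zero_mul, zero_add, h3, Polynomial.coeff_C_mul]
  have hal0 : al (c + 1) (0 : MvPolynomial (Fin 2) K) = 0 := by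
    unfold al
    rw [map_zero, Polynomial.coeff_zero]
  have hbe0 : be (c + 1) (0 : MvPolynomial (Fin 2) K) = 0 := by
    unfold be
    rw [map_zero, Polynomial.coeff_zero]
  have hmem : ∀ F G : MvPolynomial (Fin 2) K, F ∈ HH P c e → G ∈ HH P (c + 1) e →
      phi * F + C s0 * G ∈ HH P (c + 1) e := by
    intro F G hF hG
    refine Submodule.add_mem _ (phi_mul_mem hP he hF) ?_
    rw [← smul_eq_C_mul]
    exact Submodule.smul_mem _ _ hG
  refine ⟨fun i => phi * gs i + C s0 * hh i, ?_, ?_, ?_, ?_, ?_, ?_, ?_, ?_, ?_, hrel'⟩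
  · intro i
    fin_cases i
    · exact hmem _ _ (hg 2) hu
    · exact hmem _ _ (hg 3) hv
    · exact hmem _ _ (hg 0) (Submodule.zero_mem _)
    · exact hmem _ _ (hg 1) (Submodule.zero_mem _)
  · have : al (c + 1) (phi * gs 0 + C s0 * hh 0) = s0 * al (c + 1) u := hal _ _
    rw [this, hau, mul_one]
    exact hs0
  · have : be (c + 1) (phi * gs 0 + C s0 * hh 0) = s0 * be (c + 1) u := hbe _ _
    rw [this, hbu, mul_zero]
  · have : al (c + 1) (phi * gs 1 + C s0 * hh 1) = s0 * al (c + 1) v := hal _ _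
    rw [this, hav, mul_zero]
  · have : be (c + 1) (phi * gs 1 + C s0 * hh 1) = s0 * be (c + 1) v := hbe _ _
    rw [this, hbv, mul_one]
    exact hs0
  · have : al (c + 1) (phi * gs 2 + C s0 * hh 2) = s0 * al (c + 1) 0 := hal _ _
    rw [this, hal0, mul_zero]
  · have : be (c + 1) (phi * gs 2 + C s0 * hh 2) = s0 * be (c + 1) 0 := hbe _ _
    rw [this, hbe0, mul_zero]
  · have : al (c + 1) (phi * gs 3 + C s0 * hh 3) = s0 * al (c + 1) 0 := hal _ _
    rw [this, hal0, mul_zero]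
  · have : be (c + 1) (phi * gs 3 + C s0 * hh 3) = s0 * be (c + 1) 0 := hbe _ _
    rw [this, hbe0, mul_zero]

end Pool.Agent.Lib.MP_ed661f_ag.S.Fam
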