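import Mathlib
import Pool.Agent.Lib.MP_ed661f_ag.S.Fam.Peel
import Pool.Agent.Lib.MP_ed661f_ag.S.KernAlg

/-!
# The first three sections have no homogeneous relation
-/

set_option autoImplicit false

open MvPolynomial

namespace Pool.Agent.Lib.MP_ed661f_ag.S.Fam

variable {K : Type} [Field K]

theorem aeval_scale {A σ : Type} [Fintype σ] [CommRing A] [Algebra K A] {m : ℕ}
    {R : MvPolynomial σ K} (hR : R.IsHomogeneous m) (c : A) (f : σ → A) :
    aeval (fun i => c * f i) R = c ^ m * aeval f R := by
  rw [aeval_def, aeval_def, eval₂_eq', eval₂_eq', Finset.mul_sum]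
  refine Finset.sum_congr rfl fun d hd => ?_
  have h1 : ∏ i, (c * f i) ^ d i = c ^ m * ∏ i, f i ^ d i := by
    have h2 : ∑ i, d i = m := by
      have h3 : d.degree = m := by
        rw [Finsupp.degree_eq_weight_one]
        exact hR (mem_support_iff.1 hd)
      rwa [Finsupp.degree_eq_sum] at h3
    rw [← h2, ← Finset.prod_pow_eq_pow_sum, ← Finset.prod_mul_distrib]
    exact Finset.prod_congr rfl fun i _ => mul_pow _ _ _
  rw [h1]
  ring

/-- two linear forms without common zero have no homogeneous relation -/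
theorem two_indep [Infinite K] {A B : K} (hA : A ≠ 0) (hB : B ≠ 0) {w : Polynomial K}
    (hw : w ≠ 0) {n : ℕ} {H : MvPolynomial (Fin 2) K} (hH : H.IsHomogeneous n)
    (h : aeval (![w * (Polynomial.C A * (1 - Polynomial.X)), w * (Polynomial.C B * Polynomial.X)] :
      Fin 2 → Polynomial K) H = 0) : H = 0 := by
  -- cancel `w`
  have h1 : aeval (![Polynomial.C A * (1 - Polynomial.X), Polynomial.C B * Polynomial.X] :
      Fin 2 → Polynomial K) H = 0 := by
    have e1 : (![w * (Polynomial.C A * (1 - Polynomial.X)), w * (Polynomial.C B * Polynomial.X)] :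
        Fin 2 → Polynomial K) = fun i => w * (![Polynomial.C A * (1 - Polynomial.X),
          Polynomial.C B * Polynomial.X] : Fin 2 → Polynomial K) i := by
      funext i
      fin_cases i <;> rfl
    rw [e1, aeval_scale hH] at h
    rcases mul_eq_zero.1 h with h2 | h2
    · exact absurd h2 (pow_ne_zero _ hw)
    · exact h2
  -- values
  have h2 : ∀ y : K, eval (![A * (1 - y), B * y] : Fin 2 → K) H = 0 := by
    intro y
    have h3 := congrArg (Polynomial.evalRingHom y) h1
    rw [map_zero] at h3
    rw [← h3]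
    have h4 : (eval (![A * (1 - y), B * y] : Fin 2 → K)) = ((Polynomial.evalRingHom y).comp
        (aeval (![Polynomial.C A * (1 - Polynomial.X), Polynomial.C B * Polynomial.X] :
          Fin 2 → Polynomial K) : MvPolynomial (Fin 2) K →ₐ[K] Polynomial K).toRingHom) := by
      refine MvPolynomial.ringHom_ext (fun r => ?_) fun i => ?_
      · simp
      · fin_cases i <;> simp
    rw [h4]
    rfl
  -- all the points off the line
  have h3 : ∀ x : Fin 2 → K, eval x (H * (C A⁻¹ * X 0 + C B⁻¹ * X 1)) = 0 := by
    intro x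
    rw [map_mul]
    set l : K := A⁻¹ * x 0 + B⁻¹ * x 1 with hl
    have hl' : eval x (C A⁻¹ * X 0 + C B⁻¹ * X 1 : MvPolynomial (Fin 2) K) = l := by
      simp [hl]
    rw [hl']
    by_cases h0 : l = 0
    · rw [h0, mul_zero]
    · have h4 : x = fun i => l * (![A * (1 - x 1 / (B * l)), B * (x 1 / (B * l))] : Fin 2 → K) i := by
        funext i
        fin_cases i
        · show x 0 = l * (A * (1 - x 1 / (B * l)))
          have : l * (A * (1 - x 1 / (B * l))) = A * (l - x 1 / B) := by
            field_simp
          rw [this, hl]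
          field_simp
          ring
        · show x 1 = l * (B * (x 1 / (B * l)))
          field_simp
      have h5 : eval x H = l ^ n * eval (![A * (1 - x 1 / (B * l)), B * (x 1 / (B * l))] :
          Fin 2 → K) H := by
        have h6 := aeval_scale hH l (![A * (1 - x 1 / (B * l)), B * (x 1 / (B * l))] : Fin 2 → K)
        rw [← h4] at h6
        rw [← MvPolynomial.coe_aeval_eq_eval, ← MvPolynomial.coe_aeval_eq_eval]
        exact h6
      rw [h5, h2, mul_zero, zero_mul]
  have h4 : H * (C A⁻¹ * X 0 + C B⁻¹ * X 1) = 0 := by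
    refine MvPolynomial.funext fun x => ?_
    rw [h3 x, map_zero]
  rcases mul_eq_zero.1 h4 with h5 | h5
  · exact h5
  · exfalso
    have h6 := congrArg (eval (![1, 0] : Fin 2 → K)) h5
    simp at h6
    exact hA h6

/-- `H` is divisible by `X 2` if it vanishes for `X 2 = 0` -/
theorem X2_dvd {H : MvPolynomial (Fin 3) K}
    (h : aeval (![X 0, X 1, 0] : Fin 3 → MvPolynomial (Fin 2) K) H = 0) :
    (X 2 : MvPolynomial (Fin 3) K) ∣ H := by
  rw [← Ideal.mem_span_singleton, ← Ideal.Quotient.eq_zero_iff_mem]
  set I : Ideal (MvPolynomial (Fin 3) K) := Ideal.span {X 2} with hI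
  have h1 : (Ideal.Quotient.mkₐ K I) H =
      (Ideal.Quotient.mkₐ K I) (aeval (![X 0, X 1] : Fin 2 → MvPolynomial (Fin 3) K)
        (aeval (![X 0, X 1, 0] : Fin 3 → MvPolynomial (Fin 2) K) H)) := by
    have h2 : Ideal.Quotient.mkₐ K I = ((Ideal.Quotient.mkₐ K I).comp
        (aeval (![X 0, X 1] : Fin 2 → MvPolynomial (Fin 3) K))).comp
          (aeval (![X 0, X 1, 0] : Fin 3 → MvPolynomial (Fin 2) K)) := by
      refine MvPolynomial.algHom_ext fun i => ?_
      fin_cases i
      · simp
      · simp
      · simp only [AlgHom.comp_apply, aeval_X]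
        show Ideal.Quotient.mk I (X 2) = _
        rw [Ideal.Quotient.eq_zero_iff_mem.2 (Ideal.mem_span_singleton_self _)]
        simp
    exact congrArg (fun ψ => ψ H) h2
  rw [h, map_zero, map_zero] at h1
  exact h1

theorem no_rel3 [Infinite K] {rho : MvPolynomial (Fin 2) K →ₐ[K] Polynomial K}
    {g0 g1 g2 : MvPolynomial (Fin 2) K} {A B : K} (hA : A ≠ 0) (hB : B ≠ 0) {w : Polynomial K}
    (hw : w ≠ 0) (h0 : rho g0 = w * (Polynomial.C A * (1 - Polynomial.X)))
    (h1 : rho g1 = w * (Polynomial.C B * Polynomial.X)) (h2 : rho g2 = 0) (hg2 : g2 ≠ 0) :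
    ∀ (n : ℕ) (H : MvPolynomial (Fin 3) K), H.IsHomogeneous n →
      aeval (![g0, g1, g2] : Fin 3 → MvPolynomial (Fin 2) K) H = 0 → H = 0 := by
  intro n
  induction n with
  | zero =>
    intro H hH hz
    have h3 : H = C (coeff 0 H) := (totalDegree_eq_zero_iff_eq_C.1 (by
      have := hH.totalDegree_le
      omega))
    rw [h3, aeval_C] at hz
    have h4 : coeff 0 H = 0 := by
      have := (algebraMap K (MvPolynomial (Fin 2) K)).injective (hz.trans (map_zero _).symm)
      exact this
    rw [h3, h4, map_zero]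
  | succ n ih =>
    intro H hH hz
    by_contra hne
    set H0 : MvPolynomial (Fin 2) K := aeval (![X 0, X 1, 0] : Fin 3 → MvPolynomial (Fin 2) K) H
      with hH0
    have hH0h : H0.IsHomogeneous (n + 1) := by
      have h2' : ∀ i, ((![X 0, X 1, 0] : Fin 3 → MvPolynomial (Fin 2) K) i).IsHomogeneous 1 := by
        intro i
        fin_cases i
        · exact isHomogeneous_X K (0 : Fin 2)
        · exact isHomogeneous_X K (1 : Fin 2)
        · exact isHomogeneous_zero (Fin 2) K 1
      have h3 := hH.aeval (![X 0, X 1, 0] : Fin 3 → MvPolynomial (Fin 2) K) h2'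
      rwa [one_mul] at h3
    have h3 : aeval (![w * (Polynomial.C A * (1 - Polynomial.X)),
        w * (Polynomial.C B * Polynomial.X)] : Fin 2 → Polynomial K) H0 = 0 := by
      have h4 := congrArg rho hz
      rw [map_zero] at h4
      rw [← h4, hH0]
      have h5 : ((aeval (![w * (Polynomial.C A * (1 - Polynomial.X)),
          w * (Polynomial.C B * Polynomial.X)] : Fin 2 → Polynomial K)).comp
            (aeval (![X 0, X 1, 0] : Fin 3 → MvPolynomial (Fin 2) K)) :
              MvPolynomial (Fin 3) K →ₐ[K] Polynomial K) =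
          rho.comp (aeval (![g0, g1, g2] : Fin 3 → MvPolynomial (Fin 2) K)) := by
        refine MvPolynomial.algHom_ext fun i => ?_
        fin_cases i
        · simp [h0]
        · simp [h1]
        · simp [h2]
      exact congrArg (fun ψ => ψ H) h5
    have h4 := two_indep hA hB hw hH0h h3
    obtain ⟨H', hH'⟩ := X2_dvd (H := H) h4
    have h5 : aeval (![g0, g1, g2] : Fin 3 → MvPolynomial (Fin 2) K) H' = 0 := by
      rw [hH', map_mul, aeval_X] at hz
      rcases mul_eq_zero.1 hz with h6 | h6
      · exact absurd h6 hg2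
      · exact h6
    have h6 : H'.IsHomogeneous n := by
      obtain ⟨a, b, ha, hb, hab⟩ := homogeneous_of_mul (A := X 2) (B := H') (d := n + 1)
        (by rw [← hH']; exact hH) (by rw [← hH']; exact hne)
      have h7 : a = 1 := ha.inj_right (isHomogeneous_X K (2 : Fin 3)) (X_ne_zero _)
      have h8 : b = n := by omega
      rw [← h8]
      exact hb
    apply hne
    rw [hH', ih H' h6 h5, mul_zero]

end Pool.Agent.Lib.MP_ed661f_ag.S.Fam
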