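import Mathlib
import Pool.Agent.Lib.MP_ed661f_ag.S.Fam.Step
import Pool.Agent.Lib.MP_ed661f_ag.S.Fam.Three
import Pool.Agent.Lib.MP_ed661f_ag.S.Fam.Base
import Pool.Agent.Lib.MP_ed661f_ag.S.Lift

/-!
# The family of base cases: result
-/

set_option autoImplicit false

open MvPolynomial

namespace Pool.Agent.Lib.MP_ed661f_ag.S.Fam

variable {K : Type} [Field K]

theorem PP_all [Infinite K] {P : Par K} {e : ℕ} (hP : P.Good) (he : e ≤ 1)
    (h1 : e = 1 → Module.finrank K (HH P 1 1) ≤ 1) (hb : PP P (2 + e) e) :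
    ∀ c, 2 + e ≤ c → PP P c e := by
  intro c hc
  induction c, hc using Nat.le_induction with
  | base => exact hb
  | succ c hc ih => exact step hP he h1 hc ih

/-- one family -/
theorem fam_one [Infinite K] {P : Par K} {e : ℕ} (hP : P.Good) (he : e ≤ 1)
    (h1 : e = 1 → Module.finrank K (HH P 1 1) ≤ 1) (hb : PP P (2 + e) e) {c : ℕ}
    (hc : 2 + e ≤ c) : ∃ f : Fin 4 → MvPolynomial (Fin 2) K,
      (∀ i, f i ∈ SecK (2 * c) (2 * c + 1 - e) (cc c e) P.x P.x') ∧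
      Module.finrank K (SecK (2 * c) (2 * c + 1 - e) (cc c e) P.x P.x') = 2 * c - e ∧
      NoRel (2 * (2 * c - 1 - e)) f ∧
      ∀ (n : ℕ) (H : MvPolynomial (Fin 3) K), H.IsHomogeneous n →
        aeval (fun i : Fin 3 => f i.castSucc) H = 0 → H = 0 := by
  obtain ⟨g, hg, ha0, hb0, ha1, hb1, ha2, hb2, ha3, hb3, hrel⟩ := PP_all hP he h1 hb c hc
  have hec : e ≤ c := by omega
  have hg2 : g 2 ≠ 0 := by
    intro h0
    have h2 := hrel 1 (by omega) (X 2) (isHomogeneous_X K (2 : Fin 4)) (by rw [aeval_X, h0])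
    exact X_ne_zero _ h2
  have hw : (Polynomial.X - Polynomial.C (P.q 0)) ^ c *
      (Polynomial.X - Polynomial.C (P.q 1)) ^ (c - e) ≠ 0 :=
    mul_ne_zero (pow_ne_zero _ (Polynomial.X_sub_C_ne_zero _))
      (pow_ne_zero _ (Polynomial.X_sub_C_ne_zero _))
  have h3 := no_rel3 (rho := lef) (g0 := g 0) (g1 := g 1) (g2 := g 2)
    (mul_ne_zero ha0 (cA_ne hP (c := c) (e := e))) (mul_ne_zero hb1 (cB_ne hP (c := c) (e := e)))
    hw (by rw [lef_eq hP hec (hg 0), hb0]; simp)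
    (by rw [lef_eq hP hec (hg 1), ha1]; simp)
    (by rw [lef_eq hP hec (hg 2), ha2, hb2]; simp) hg2
  refine ⟨g, hg, finrank_HH hP he h1 (by omega), hrel, fun n H hH hz => h3 n H hH ?_⟩
  rw [← hz]
  congr 2
  funext i
  fin_cases i <;> rfl

theorem cc_pos {c e : ℕ} (hc : 2 + e ≤ c) (j : Fin 5) : 1 ≤ cc c e j := by
  fin_cases j
  · show 1 ≤ c
    omega
  · show 1 ≤ c
    omega
  · show 1 ≤ c
    omega
  · show 1 ≤ c - e
    omega
  · exact le_refl 1

theorem cc_sum {c e : ℕ} (hc : 2 + e ≤ c) : 2 * c + (2 * c + 1 - e) = ∑ j, cc c e j := by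
  have h : ∑ j, cc c e j = c + c + c + (c - e) + 1 := by
    rw [Fin.sum_univ_five]
    rfl
  rw [h]
  omega

theorem cc_sq {c e : ℕ} (he : e ≤ 1) (hc : 2 + e ≤ c) :
    2 * c * (2 * c + 1 - e) = ∑ j, cc c e j ^ 2 + (2 * c - 1 - e) := by
  have h : ∑ j, cc c e j ^ 2 = c ^ 2 + c ^ 2 + c ^ 2 + (c - e) ^ 2 + 1 ^ 2 := by
    rw [Fin.sum_univ_five]
    rfl
  rw [h]
  obtain ⟨k, rfl⟩ := Nat.exists_eq_add_of_le hc
  rcases Nat.le_one_iff_eq_zero_or_eq_one.1 he with rfl | rfl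
  · have e1 : 2 + 0 + k - 0 = k + 2 := by omega
    have e2 : 2 * (2 + 0 + k) + 1 - 0 = 2 * k + 5 := by omega
    have e3 : 2 * (2 + 0 + k) - 1 - 0 = 2 * k + 3 := by omega
    rw [e1, e2, e3]
    ring
  · have e1 : 2 + 1 + k - 1 = k + 2 := by omega
    have e2 : 2 * (2 + 1 + k) + 1 - 1 = 2 * k + 6 := by omega
    have e3 : 2 * (2 + 1 + k) - 1 - 1 = 2 * k + 4 := by omega
    rw [e1, e2, e3]
    ring

/-- the sections at the special configuration over the rational numbers -/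
theorem family {D0 : ℕ} (hD : 3 ≤ D0) : ∃ (a b : ℕ) (c : Fin 5 → ℕ) (x x' : Fin 5 → Fin 2 → ℚ)
    (f : Fin 4 → MvPolynomial (Fin 2) ℚ), (∀ j, 1 ≤ c j) ∧ a + b = ∑ j, c j ∧
      a * b = ∑ j, c j ^ 2 + D0 ∧ (∀ i, f i ∈ SecK a b c x x') ∧
      Module.finrank ℚ (SecK a b c x x') = D0 + 1 ∧ NoRel (2 * D0) f ∧
      ∀ (n : ℕ) (H : MvPolynomial (Fin 3) ℚ), H.IsHomogeneous n →
        aeval (fun i : Fin 3 => f i.castSucc) H = 0 → H = 0 := by
  rcases Nat.even_or_odd D0 with ⟨t, ht⟩ | ⟨t, ht⟩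
  · -- `e = 1`, `c = t + 1`
    obtain ⟨P, hP, h1, hb⟩ := base8
    obtain ⟨f, hf, hdim, hrel, h3⟩ := fam_one (e := 1) hP le_rfl (fun _ => h1) hb (c := t + 1)
      (by omega)
    have e1 : 2 * (t + 1) - 1 - 1 = D0 := by omega
    refine ⟨2 * (t + 1), 2 * (t + 1) + 1 - 1, cc (t + 1) 1, P.x, P.x', f, cc_pos (by omega),
      cc_sum (by omega), ?_, hf, ?_, ?_, h3⟩
    · rw [cc_sq le_rfl (by omega), e1]
    · rw [hdim]
      omega
    · rw [e1] at hrel
      exact hrel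
  · -- `e = 0`, `c = t + 1`
    obtain ⟨P, hP, hb⟩ := base6
    obtain ⟨f, hf, hdim, hrel, h3⟩ := fam_one (e := 0) hP (by omega) (fun h => absurd h (by omega))
      hb (c := t + 1) (by omega)
    have e1 : 2 * (t + 1) - 1 - 0 = D0 := by omega
    refine ⟨2 * (t + 1), 2 * (t + 1) + 1 - 0, cc (t + 1) 0, P.x, P.x', f, cc_pos (by omega),
      cc_sum (by omega), ?_, hf, ?_, ?_, h3⟩
    · rw [cc_sq (by omega) (by omega), e1]
    · rw [hdim]
      omega
    · rw [e1] at hrel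
      exact hrel

/-- comparison of the two definitions of the sections -/
theorem SecK_eq_SecG {a b : ℕ} {c : Fin 5 → ℕ} {x x' : Fin 5 → Fin 2 → K} :
    SecK a b c x x' = SecG K a b (Sum.elim c c) (Sum.elim x x') := by
  ext F
  rw [mem_SecK, mem_SecG]
  constructor
  · rintro ⟨⟨h1, h2⟩, h3⟩
    refine ⟨fun e he => ?_, ?_⟩
    · by_contra h
      rw [degreeOf_le_iff] at h1 h2
      exact he ⟨h1 e (mem_support_iff.2 h), h2 e (mem_support_iff.2 h)⟩
    · rintro (j | j) e he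
      · exact (h3 j).1 e he
      · exact (h3 j).2 e he
  · rintro ⟨h1, h2⟩
    refine ⟨⟨?_, ?_⟩, fun j => ⟨fun e he => h2 (Sum.inl j) e he, fun e he => h2 (Sum.inr j) e he⟩⟩
    · rw [degreeOf_le_iff]
      intro e he
      by_contra h
      exact (mem_support_iff.1 he) (h1 e fun h3 => h h3.1)
    · rw [degreeOf_le_iff]
      intro e he
      by_contra h
      exact (mem_support_iff.1 he) (h1 e fun h3 => h h3.2)

/-- four sections at generic centres -/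
theorem family_generic {D0 : ℕ} (hD : 3 ≤ D0) : ∃ (a b : ℕ) (c : Fin 5 → ℕ), (∀ j, 1 ≤ c j) ∧
    a + b = ∑ j, c j ∧ a * b = ∑ j, c j ^ 2 + D0 ∧
      ∀ x x' : Fin 5 → R.Pt,
        AlgebraicIndependent ℚ (fun q : (Fin 5 ⊕ Fin 5) × Fin 2 => Sum.elim x x' q.1 q.2) →
        ∃ F : Fin 4 → R.Pol, (∀ i, F i ∈ Sec a b c x x' 1) ∧
          (∀ m < 2 * D0, ∀ H : MvPolynomial (Fin 4) ℂ, H.IsHomogeneous m → aeval F H = 0 → H = 0) ∧
          ∀ (n : ℕ) (H : MvPolynomial (Fin 3) ℂ), H.IsHomogeneous n →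
            aeval (fun i : Fin 3 => F i.castSucc) H = 0 → H = 0 := by
  obtain ⟨a, b, c, p, p', f, hc, hab, hD0, hf, hdim, hrel, h3⟩ := family hD
  refine ⟨a, b, c, hc, hab, hD0, fun x x' hz => ?_⟩
  obtain ⟨F, hF1, hF2, hF3⟩ := exists_generic_sections (R₀ := ℚ) (k := ℚ) (RingHom.id ℚ)
    Function.surjective_id (a := a) (b := b) (m := 2 * D0 - 1) (c := c) (p := p) (p' := p')
    (by
      rw [← SecK_eq_SecG, hdim]
      have e1 : ∑ j, c j * (c j + 1) = ∑ j, c j ^ 2 + ∑ j, c j := by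
        rw [← Finset.sum_add_distrib]
        exact Finset.sum_congr rfl fun j _ => by ring
      have e2 : (a + 1) * (b + 1) = a * b + (a + b) + 1 := by ring
      rw [e1, e2, hab, hD0]
      omega) (f := f)
    (fun i => by
      rw [← SecK_eq_SecG]
      exact hf i)
    (fun H hH hz => hrel (2 * D0 - 1) (by omega) H hH hz) h3 hz
  exact ⟨F, hF1, fun m hm H hH hz => hF2 m (by omega) H hH hz, hF3⟩

end Pool.Agent.Lib.MP_ed661f_ag.S.Fam
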