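import Mathlib
import Pool.Agent.Lib.MP_ed661f_ag.S.Fam.BaseW
import Pool.Agent.Lib.MP_ed661f_ag.S.Fam.Fin
import Pool.Agent.Lib.MP_ed661f_ag.S.LiftW

/-!
# The family of base cases of odd degree: result

`d = 2 D0 - 1`, `D0 ≥ 4`: the sections of the classes of `Fin.lean` which vanish at one more point.
-/

set_option autoImplicit false

open MvPolynomial

namespace Pool.Agent.Lib.MP_ed661f_ag.S.Fam

variable {K : Type} [Field K]

theorem PPV_all [Infinite K] {P : Par K} {w : Fin 2 → K} {e : ℕ} (hP : P.Good) (he : e ≤ 1)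
    (h1 : e = 1 → Module.finrank K (HH P 1 1) ≤ 1) (hw : evw w (phi : MvPolynomial (Fin 2) K) ≠ 0)
    (h0 : ∃ G ∈ HH P 3 e, evw w G ≠ 0) {D : ℕ} (hD : 3 ≤ D) (hb : PPV 3 (HHw P w 3 e) D) :
    ∀ k, PPV (3 + k) (HHw P w (3 + k) e) (D + 4 * k) := by
  intro k
  induction k with
  | zero => exact hb
  | succ k ih =>
    have h2 := stepW hP he h1 hw (by omega) (exists_not_zero hP he hw h0 (by omega : 3 ≤ 3 + k))
      (by omega) ih
    have e1 : D + 4 * k + 4 = D + 4 * (k + 1) := by ring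
    rw [e1] at h2
    exact h2

/-- one family -/
theorem fam_oneW [Infinite K] {P : Par K} {w : Fin 2 → K} {e : ℕ} (hP : P.Good) (he : e ≤ 1)
    (h1 : e = 1 → Module.finrank K (HH P 1 1) ≤ 1) (hw : evw w (phi : MvPolynomial (Fin 2) K) ≠ 0)
    (h0 : ∃ G ∈ HH P 3 e, evw w G ≠ 0) {D : ℕ} (hD : 3 ≤ D) (hb : PPV 3 (HHw P w 3 e) D) {c : ℕ}
    (hc : 3 ≤ c) : ∃ f : Fin 4 → MvPolynomial (Fin 2) K, (∀ i, f i ∈ HHw P w c e) ∧
      Module.finrank K (HHw P w c e) + 1 = 2 * c - e ∧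
      NoRel (D + 4 * (c - 3)) f ∧
      ∀ (n : ℕ) (H : MvPolynomial (Fin 3) K), H.IsHomogeneous n →
        aeval (fun i : Fin 3 => f i.castSucc) H = 0 → H = 0 := by
  obtain ⟨k, rfl⟩ := Nat.exists_eq_add_of_le hc
  obtain ⟨g, hgw, ha0, hb0, ha1, hb1, ha2, hb2, ha3, hb3, hrel⟩ := PPV_all hP he h1 hw h0 hD hb k
  have hg : ∀ i, g i ∈ HH P (3 + k) e := fun i => (hgw i).1
  have hec : e ≤ 3 + k := by omega
  have hg2 : g 2 ≠ 0 := by
    intro h0
    have h2 := hrel 1 (by omega) (X 2) (isHomogeneous_X K (2 : Fin 4)) (by rw [aeval_X, h0])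
    exact X_ne_zero _ h2
  have hq : (Polynomial.X - Polynomial.C (P.q 0)) ^ (3 + k) *
      (Polynomial.X - Polynomial.C (P.q 1)) ^ (3 + k - e) ≠ 0 :=
    mul_ne_zero (pow_ne_zero _ (Polynomial.X_sub_C_ne_zero _))
      (pow_ne_zero _ (Polynomial.X_sub_C_ne_zero _))
  have h3 := no_rel3 (rho := lef) (g0 := g 0) (g1 := g 1) (g2 := g 2)
    (mul_ne_zero ha0 (cA_ne hP (c := 3 + k) (e := e)))
    (mul_ne_zero hb1 (cB_ne hP (c := 3 + k) (e := e)))
    hq (by rw [lef_eq hP hec (hg 0), hb0]; simp)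
    (by rw [lef_eq hP hec (hg 1), ha1]; simp)
    (by rw [lef_eq hP hec (hg 2), ha2, hb2]; simp) hg2
  have e1 : 3 + k - 3 = k := by omega
  refine ⟨g, hgw, finrank_HHw hP he h1 (by omega) (exists_not_zero hP he hw h0 (by omega)), ?_,
    fun n H hH hz => h3 n H hH ?_⟩
  · rw [e1]
    exact hrel
  rw [← hz]
  congr 2
  funext i
  fin_cases i <;> rfl

/-- the sections through one more point, at the special configuration over the rational numbers -/
theorem familyW {D0 : ℕ} (hD : 4 ≤ D0) : ∃ (a b : ℕ) (c : Fin 5 → ℕ) (x x' : Fin 5 → Fin 2 → ℚ)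
    (w : Fin 2 → ℚ) (f : Fin 4 → MvPolynomial (Fin 2) ℚ), (∀ j, 1 ≤ c j) ∧ a + b = ∑ j, c j ∧
      a * b = ∑ j, c j ^ 2 + D0 ∧ (∀ i, f i ∈ SecK a b c x x' ⊓ LinearMap.ker (evw w)) ∧
      Module.finrank ℚ (SecK a b c x x' ⊓ LinearMap.ker (evw w) :
        Submodule ℚ (MvPolynomial (Fin 2) ℚ)) = D0 ∧ NoRel (2 * D0 - 1) f ∧
      ∀ (n : ℕ) (H : MvPolynomial (Fin 3) ℚ), H.IsHomogeneous n →
        aeval (fun i : Fin 3 => f i.castSucc) H = 0 → H = 0 := by
  rcases Nat.even_or_odd D0 with ⟨t, ht⟩ | ⟨t, ht⟩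
  · -- `e = 1`, `c = t + 1`
    obtain ⟨f, hf, hdim, hrel, h3⟩ := fam_oneW (e := 1) PB_good le_rfl (fun _ => finrank_HH11)
      phi_wB exW1 (by omega) base7 (c := t + 1) (by omega)
    have e1 : 2 * (t + 1) - 1 - 1 = D0 := by omega
    refine ⟨2 * (t + 1), 2 * (t + 1) + 1 - 1, cc (t + 1) 1, PB.x, PB.x', wB, f,
      cc_pos (by omega), cc_sum (by omega), ?_, hf, ?_, ?_, h3⟩
    · rw [cc_sq le_rfl (by omega), e1]
    · have h4 : Module.finrank ℚ (HHw PB wB (t + 1) 1) = D0 := by omega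
      exact h4
    · have e2 : 7 + 4 * (t + 1 - 3) = 2 * D0 - 1 := by omega
      rw [e2] at hrel
      exact hrel
  · -- `e = 0`, `c = t + 1`
    obtain ⟨f, hf, hdim, hrel, h3⟩ := fam_oneW (e := 0) PB_good (by omega)
      (fun h => absurd h (by omega)) phi_wB
      (exists_not_zero PB_good (by omega) phi_wB exW0 (by omega)) (by omega) base9 (c := t + 1)
      (by omega)
    have e1 : 2 * (t + 1) - 1 - 0 = D0 := by omega
    refine ⟨2 * (t + 1), 2 * (t + 1) + 1 - 0, cc (t + 1) 0, PB.x, PB.x', wB, f,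
      cc_pos (by omega), cc_sum (by omega), ?_, hf, ?_, ?_, h3⟩
    · rw [cc_sq (by omega) (by omega), e1]
    · have h4 : Module.finrank ℚ (HHw PB wB (t + 1) 0) = D0 := by omega
      exact h4
    · have e2 : 9 + 4 * (t + 1 - 3) = 2 * D0 - 1 := by omega
      rw [e2] at hrel
      exact hrel

/-- comparison of the two definitions of the sections -/
theorem SecK_evw_eq_SecG {a b : ℕ} {c : Fin 5 → ℕ} {x x' : Fin 5 → Fin 2 → K} {w : Fin 2 → K} :
    (SecK a b c x x' ⊓ LinearMap.ker (evw w) : Submodule K (MvPolynomial (Fin 2) K)) =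
      SecG K a b (wcc c) (wpp x x' w) := by
  ext F
  rw [Submodule.mem_inf, SecK_eq_SecG, mem_SecG, mem_SecG, LinearMap.mem_ker, evw_eq_eval,
    ← coeff_zero_tayK]
  constructor
  · rintro ⟨⟨h1, h2⟩, h3⟩
    refine ⟨h1, ?_⟩
    rintro ((i | i) | i) e he
    · exact h2 (Sum.inl i) e he
    · exact h2 (Sum.inr i) e he
    · have h4 : e = 0 := by
        have h5 : e.degree < 1 := he
        exact (Finsupp.degree_eq_zero_iff e).1 (by omega)
      rw [h4]
      exact h3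
  · rintro ⟨h1, h2⟩
    refine ⟨⟨h1, ?_⟩, ?_⟩
    · rintro (i | i) e he
      · exact h2 (Sum.inl (Sum.inl i)) e he
      · exact h2 (Sum.inl (Sum.inr i)) e he
    · exact h2 (Sum.inr 0) 0 (by simp)

open E R H in
/-- four sections at generic centres, with one more base point -/
theorem family_genericW {D0 : ℕ} (hD : 4 ≤ D0) : ∃ (a b : ℕ) (c : Fin 5 → ℕ), (∀ j, 1 ≤ c j) ∧
    a + b = ∑ j, c j ∧ a * b = ∑ j, c j ^ 2 + D0 ∧
      ∀ (x x' : Fin 5 → Pt) (w : Pt),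
        AlgebraicIndependent ℚ (fun q : ((Fin 5 ⊕ Fin 5) ⊕ Fin 1) × Fin 2 =>
          wpp x x' w q.1 q.2) →
        ∃ F : Fin 4 → Pol, (∀ i, F i ∈ SecW a b c 1 x x' w 1) ∧
          (∀ m < 2 * D0 - 1, ∀ H : MvPolynomial (Fin 4) ℂ, H.IsHomogeneous m →
            aeval F H = 0 → H = 0) ∧
          ∀ (n : ℕ) (H : MvPolynomial (Fin 3) ℂ), H.IsHomogeneous n →
            aeval (fun i : Fin 3 => F i.castSucc) H = 0 → H = 0 := by
  obtain ⟨a, b, c, p, p', w0, f, hc, hab, hD0, hf, hdim, hrel, h3⟩ := familyW hD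
  refine ⟨a, b, c, hc, hab, hD0, fun x x' w hz => ?_⟩
  obtain ⟨F, hF1, hF2, hF3⟩ := exists_generic_sectionsW (R₀ := ℚ) (k := ℚ) (RingHom.id ℚ)
    Function.surjective_id (a := a) (b := b) (m := 2 * D0 - 2) (c := c) (p := p) (p' := p')
    (w0 := w0)
    (by
      rw [← SecK_evw_eq_SecG, hdim]
      have e1 : ∑ j, c j * (c j + 1) = ∑ j, c j ^ 2 + ∑ j, c j := by
        rw [← Finset.sum_add_distrib]
        exact Finset.sum_congr rfl fun j _ => by ring
      have e2 : (a + 1) * (b + 1) = a * b + (a + b) + 1 := by ring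
      rw [e1, e2, hab, hD0]
      omega) (f := f)
    (fun i => by
      rw [← SecK_evw_eq_SecG]
      exact hf i)
    (fun H hH hz => hrel (2 * D0 - 2) (by omega) H hH hz) h3 hz
  exact ⟨F, hF1, fun m hm H hH hz => hF2 m (by omega) H hH hz, hF3⟩

end Pool.Agent.Lib.MP_ed661f_ag.S.Fam
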